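import Pool.Agent.H893.TW.Rd

/-!
# Ruled function fields of deficiency two: general residue fields
-/

set_option autoImplicit false
set_option linter.unusedVariables false
set_option linter.unusedSectionVars false

universe u

namespace Pool.Agent.H893.TW

open Pool.Agent.W418.LU2 IsLocalRing Polynomial Pool.Agent.H893 Pool.Agent.H893.DD
open Pool.Agent.H176.DT (Mod SU PP St)
open scoped NNReal

/-- The residue field is a finite separable extension of the ground field. -/
theorem su_rul_sep {k K : Type u} [Field k] (H : Hyp.{u, 0}) (hS : S_su2.{u, 0}) (p : ℕ)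
    [Fact p.Prime] [CharP k p] [Field K] [Algebra k K] [Algebra.EssFiniteType k K]
    (v : Valuation K ℝ≥0) (hk : ∀ c : k, c ≠ 0 → v (algebraMap k K c) = 1)
    (a : K) (m : k[X]) (hm : m.Monic)
    (hirr : Irreducible m) (hsep : m.Separable) (ha : v a ≤ 1) (hma : v (aeval a m) < 1)
    (hres : ∀ x : K, v x ≤ 1 → ∃ q : k[X], v (x - aeval a q) < 1)
    (E : IntermediateField k K) [Algebra.EssFiniteType k E] (t : K)
    (hEt : ∀ F : IntermediateField k K, E ≤ F → t ∈ F → F = ⊤) (r : ℕ) (hr : 2 ≤ r)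
    (htrE : Algebra.trdeg k E = ((r + 1 : ℕ) : Cardinal))
    (htr : Algebra.trdeg k K = ((r + 2 : ℕ) : Cardinal))
    (x : Fin r → E) (hx0 : ∀ i, x i ≠ 0)
    (hind : ∀ m : Fin r → ℤ, ∏ i, v (x i : K) ^ m i = 1 → m = 0)
    (hrr : ∀ z : K, z ≠ 0 → ∃ n : ℕ, n ≠ 0 ∧
      ∃ m : Fin r → ℤ, v z ^ n = ∏ i, v (x i : K) ^ m i) :
    ∃ U : Set K, U.Finite ∧
      Mod v.valuationSubring (Subring.closure (Set.range (algebraMap k K) ∪ U)) ∧
      SU v.valuationSubring (Subring.closure (Set.range (algebraMap k K) ∪ U)) := by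
  classical
  obtain ⟨L, _, _, _, _, w, ζ, hζm, hζa, hwv, hgen, hdens⟩ :=
    t_ext v hk a m hm hirr hsep ha hma
  obtain ⟨e1, e2, e3, e4, e5, e6⟩ := t_Lk v w hk a ζ m hm hζm ha hres hζa hwv hgen hdens
    (IntermediateField.adjoin k {ζ}) rfl
  set k' := IntermediateField.adjoin k {ζ} with hk'
  have hchar : CharP k' p := charP_of_injective_algebraMap (algebraMap k k').injective p
  obtain ⟨E', f1, f2, f3, f4⟩ := comp_field E inferInstance ζ ⟨m, hm.ne_zero, hζm⟩ k' hk'
  refine desc_ext p v hk a m hm hirr hsep ha hma w ζ hζm hζa hwv hgen k' hk' e4 e6 r (by omega)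
    (fun i => (x i : K)) (fun i h => hx0 i (Subtype.ext h)) hind hrr ?_
  refine su_rul0 (k := k') H hS p w (fun c hc => e2 c hc) e3 E' (algebraMap K L t) ?_ r hr
    (f3.trans htrE) (e5.trans htr) (fun i => ⟨algebraMap K L (x i : K), f1 _ (x i).2⟩) ?_ ?_ ?_
  · intro F hF htF
    have h1 : (F.restrictScalars k).comap (IsScalarTower.toAlgHom k K L) = ⊤ := by
      refine hEt _ (fun e he => ?_) ?_
      · exact hF (f1 e he)
      · exact htF
    have h2 : ∀ z : K, algebraMap K L z ∈ F := by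
      intro z
      have h3 : z ∈ (F.restrictScalars k).comap (IsScalarTower.toAlgHom k K L) := by
        rw [h1]
        trivial
      exact h3
    have h3 : ζ ∈ F := F.algebraMap_mem ⟨ζ, IntermediateField.mem_adjoin_simple_self k ζ⟩
    rw [eq_top_iff]
    intro z _
    obtain ⟨f, rfl⟩ := hgen z
    rw [aeval_eq_sum_range]
    refine sum_mem fun i _ => ?_
    rw [Algebra.smul_def]
    exact mul_mem (h2 _) (pow_mem h3 _)
  · intro i h
    have h1 := congrArg Subtype.val h
    exact hx0 i (Subtype.ext ((_root_.map_eq_zero (algebraMap K L)).1 h1))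
  · intro n hn
    apply hind n
    rw [← hn]
    refine Finset.prod_congr rfl fun i _ => ?_
    rw [hwv]
  · intro z hz
    obtain ⟨b, hb, h1⟩ := e4 z hz
    obtain ⟨n, hn, m, h2⟩ := hrr b hb
    refine ⟨n, hn, m, ?_⟩
    rw [h1, h2]
    refine Finset.prod_congr rfl fun i _ => ?_
    rw [hwv]

/-- Ruled function fields of deficiency two: the residue field is finitely generated over `k`, and
`E` contains lifts of a separating transcendence basis. -/
theorem su_rul_all {k K : Type u} [Field k] (H : Hyp.{u, 0}) (hS : S_su2.{u, 0}) (p : ℕ)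
    [Fact p.Prime] [CharP k p] [Field K] [Algebra k K] [Algebra.EssFiniteType k K]
    (v : Valuation K ℝ≥0) (hk : ∀ c : k, c ≠ 0 → v (algebraMap k K c) = 1)
    (E : IntermediateField k K) (hE : Algebra.EssFiniteType k E) (t : K)
    (hEt : ∀ F : IntermediateField k K, E ≤ F → t ∈ F → F = ⊤)
    (hess : letI := rAlg v hk; Algebra.EssFiniteType k (Rf v))
    (hsg : letI := rAlg v hk; ∃ s : Finset (Rf v), IsTranscendenceBasis k ((↑) : s → Rf v) ∧
      Algebra.IsSeparable (IntermediateField.adjoin k (s : Set (Rf v))) (Rf v) ∧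
      ∀ i ∈ s, ∃ y : v.valuationSubring, (y : K) ∈ E ∧
        IsLocalRing.residue v.valuationSubring y = i)
    (r : ℕ) (hr : 2 ≤ r)
    (htrE : letI := rAlg v hk;
      Algebra.trdeg k E = Algebra.trdeg k (Rf v) + ((r + 1 : ℕ) : Cardinal))
    (htr : letI := rAlg v hk;
      Algebra.trdeg k K = Algebra.trdeg k (Rf v) + ((r + 2 : ℕ) : Cardinal))
    (x : Fin r → E) (hx0 : ∀ i, x i ≠ 0)
    (hind : ∀ m : Fin r → ℤ, ∏ i, v (x i : K) ^ m i = 1 → m = 0)
    (hrr : ∀ z : K, z ≠ 0 → ∃ n : ℕ, n ≠ 0 ∧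
      ∃ m : Fin r → ℤ, v z ^ n = ∏ i, v (x i : K) ^ m i) :
    ∃ U : Set K, U.Finite ∧
      Mod v.valuationSubring (Subring.closure (Set.range (algebraMap k K) ∪ U)) ∧
      SU v.valuationSubring (Subring.closure (Set.range (algebraMap k K) ∪ U)) := by
  obtain ⟨S, F0, a, m, hF0, hF0E, hF1, ha, hm, hirr, hsep, hma, hres, htd⟩ :=
    TW.rdata v hk E hess hsg
  have hchar : CharP F0 p := charP_of_injective_algebraMap (algebraMap k F0).injective p
  have hEF : Algebra.EssFiniteType F0 K := Algebra.EssFiniteType.of_comp k F0 K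
  set E1 : IntermediateField F0 K := IntermediateField.extendScalars hF0E with hE1
  have hE1m : ∀ z : K, z ∈ E1 ↔ z ∈ E := fun z => IntermediateField.mem_extendScalars hF0E
  -- the field `E` over `F0`
  let φ : E ≃+* E1 :=
    { toFun := fun z => ⟨z, (hE1m z).2 z.2⟩
      invFun := fun z => ⟨z, (hE1m z).1 z.2⟩
      left_inv := fun z => rfl
      right_inv := fun z => rfl
      map_mul' := fun a b => rfl
      map_add' := fun a b => rfl }
  let ψ : E ≃ₐ[k] E1 := AlgEquiv.ofRingEquiv (f := φ) fun c => rfl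
  have hE2 : Algebra.EssFiniteType k E1 :=
    (Algebra.EssFiniteType.iff_of_algEquiv ψ).1 hE
  have hE3 : Algebra.EssFiniteType F0 E1 := Algebra.EssFiniteType.of_comp k F0 E1
  have hsub : ∀ (M : Type u) [Field M] [Algebra k M] [Algebra F0 M] [IsScalarTower k F0 M]
      (n : ℕ), (letI := rAlg v hk; Algebra.trdeg k M = Algebra.trdeg k (Rf v) +
      (n : Cardinal)) → Algebra.trdeg k M < Cardinal.aleph0 →
      Algebra.trdeg F0 M = (n : Cardinal) := by
    intro M _ _ _ _ n hn hlt
    have h1 := _root_.trdeg_add_eq k F0 (A := M)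
    rw [htd, hn] at h1
    rw [hn] at hlt
    exact Cardinal.eq_of_add_eq_add_left h1 (lt_of_le_of_lt (self_le_add_right _ _) hlt)
  have htr1 : Algebra.trdeg F0 K = ((r + 2 : ℕ) : Cardinal) :=
    hsub K (r + 2) htr (trdeg_lt_aleph0 k K)
  have htrE1 : Algebra.trdeg F0 E1 = ((r + 1 : ℕ) : Cardinal) := by
    refine hsub E1 (r + 1) ?_ (trdeg_lt_aleph0 k E1)
    change Algebra.trdeg k E1 = _
    rw [← ψ.trdeg_eq]
    exact htrE
  obtain ⟨U, hU, hM, hSU⟩ := su_rul_sep (k := F0) H hS p v hF1 a m hm hirr hsep ha hma hres E1 t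
    (by
      intro F hF htF
      have h1 : F.restrictScalars k = ⊤ :=
        hEt _ (fun e he => hF ((hE1m e).2 he)) htF
      rw [eq_top_iff]
      intro z _
      have h2 : z ∈ F.restrictScalars k := by
        rw [h1]
        trivial
      exact h2) r hr htrE1 htr1 (fun i => φ (x i)) (fun i h => hx0 i (by
        have h1 := congrArg Subtype.val h
        exact Subtype.ext h1)) hind hrr
  have h1 : Set.range (algebraMap F0 K) = (F0 : Set K) := by
    ext z
    constructor
    · rintro ⟨c, rfl⟩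
      exact c.2
    · intro hz
      exact ⟨⟨z, hz⟩, rfl⟩
  rw [h1] at hM hSU
  exact t_down v S F0 hF0 hF1 U hU hM hSU

end Pool.Agent.H893.TW
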