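import Pool.Agent.H893.TW.Stm
import Pool.Agent.H893.P3

/-!
# TW: the ramified step from a vertex, and the first vertex (task P1v, helper253)
-/

set_option autoImplicit false
set_option linter.unusedVariables false
set_option linter.unusedSectionVars false

universe u w

namespace Pool.Agent.H893.TW

open Polynomial Pool.Agent.H893 Pool.Agent.W418.LU2
open scoped NNReal

theorem t_P1v (h1 : S_core.{u, w}) (h2 : S_lb.{u, w}) : S_P1v.{u, w} := by
  classical
  intro k K L _ _ _ _ _ _ v p _ _ hk hres htr d ω X y z f S η hη hyη hηω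
  refine ⟨fun {A b} hV => ?_, ?_⟩
  · obtain ⟨ω', X', y', z', f', A', w, n, g1, g2, ⟨rfl, g3, g4⟩, g5, g6, g7, g8⟩ :=
      h1 p hk hres htr S hη hyη hηω hV.A0.le hV.b0 hV.lv hV.sl (A + b * η)
      (fun Φ _ hΦ _ A' h => vtx_bound S.inj hη hV hΦ h)
      (fun A' w => w = b ∧ A ≤ A' ∧ A' ≤ A + b * η) (by
        intro Φ hΦ hs A' hA' hLw hatt
        have hup := vtx_bound S.inj hη hV hΦ hLw
        have hlv1 : Lv (wX ω) A d (taylor Φ f) := hV.lv.taylor hΦ
        refine ⟨b, hV.b0, ⟨rfl, ?_, hup⟩, ?_⟩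
        · obtain ⟨j, hj, μ, hμ, h1⟩ := hatt
          have h2 := hlv1 j μ hμ
          rw [wX_apply] at h2
          rw [wW_apply] at h1
          have h4 : (0 : ℝ) < (d : ℝ) - j := by
            have : (j : ℝ) < d := by exact_mod_cast hj
            linarith
          have h5 : (0 : ℝ) ≤ μ.2 * η := by positivity
          exact le_of_mul_le_mul_left (by linarith) h4
        · intro j μ hj hμ h1
          have h2 := hlv1 j μ hμ
          rw [wX_apply] at h2
          rw [wW_apply] at h1
          have h4 : (0 : ℝ) < (d : ℝ) - j := by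
            have : (j : ℝ) < d := by exact_mod_cast hj
            linarith
          have h5 : ((d : ℝ) - j) * A' ≤ ((d : ℝ) - j) * (A + b * η) :=
            mul_le_mul_of_nonneg_left hup h4.le
          have h6 : (μ.2 : ℝ) * η ≤ ((d : ℝ) - j) * b * η := by linarith
          exact le_of_mul_le_mul_right h6 hη)
    exact ⟨ω', X', y', z', f', A', n, g1, g2, g3, g4, g6, g7, g8⟩
  · obtain ⟨Bd, hBd⟩ := (h2 hk hres htr S).2.2 hη hyη
    obtain ⟨ω', X', y', z', f', A', w, n, g1, -, -, -, g6, -, -⟩ :=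
      h1 p hk hres htr S hη hyη hηω le_rfl le_rfl (A := 0) (b := 0) (by
      intro j
      rw [mul_zero]
      exact S.ge0 j) (by
      intro j _
      rw [mul_zero]
      exact og_nonpos le_rfl _) Bd (fun Φ hΦ _ _ A' h => hBd Φ hΦ A' h)
      (fun _ _ => True) (by
      intro Φ hΦ hs A' hA' hLw hatt
      set f1 := taylor Φ f with hf1
      let F : Finset (L × ℕ) := (Finset.range (f1.natDegree + 1)).biUnion
        fun j => (f1.coeff j).coeff.support
      have hF : ∀ j μ, (f1.coeff j).coeff μ ≠ 0 → μ ∈ F := by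
        intro j μ hμ
        refine Finset.mem_biUnion.2 ⟨j, ?_, Finsupp.mem_support_iff.2 hμ⟩
        rw [Finset.mem_range]
        by_contra h
        apply hμ
        rw [coeff_eq_zero_of_natDegree_lt (by omega)]
        rfl
      refine ⟨(F.sup Prod.snd : ℕ), Nat.cast_nonneg _, trivial, ?_⟩
      intro j μ hj hμ _
      have h1 : μ.2 ≤ F.sup Prod.snd := Finset.le_sup (f := Prod.snd) (hF j μ hμ)
      have h2 : (1 : ℝ) ≤ (d : ℝ) - j := by
        have h3 : j + 1 ≤ d := hj
        have h4 : ((j : ℝ) + 1) ≤ d := by exact_mod_cast h3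
        linarith
      calc (μ.2 : ℝ) ≤ (F.sup Prod.snd : ℕ) := by exact_mod_cast h1
        _ = 1 * (F.sup Prod.snd : ℕ) := (one_mul _).symm
        _ ≤ ((d : ℝ) - j) * (F.sup Prod.snd : ℕ) :=
          mul_le_mul_of_nonneg_right h2 (Nat.cast_nonneg _))
    exact ⟨ω', X', y', z', f', A', n, g1, g6⟩

end Pool.Agent.H893.TW
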