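import Pool.Agent.H893.TW.Stm

/-!
# Coordinates are algebraically independent (task al, helper81)
-/

set_option autoImplicit false

universe u w

namespace Pool.Agent.H893.TW

open Polynomial Pool.Agent.H893 Pool.Agent.W418.LU2
open scoped NNReal

namespace Pal

variable {k K L : Type*} [Field k] [Field K] [Algebra k K] [AddCommGroup L]
  [Module.Free ℤ L] [Module.Finite ℤ L] {s : ℕ}

/-- The coordinates. -/
noncomputable def fm (b : Module.Basis (Fin s) ℤ L) (X : Multiplicative L →* Kˣ) (y z : K) :
    Option (Option (Fin s)) → K := fun o => Option.elim o z (fam b X y)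

lemma fm_some (b : Module.Basis (Fin s) ℤ L) (X : Multiplicative L →* Kˣ) (y z : K) :
    (fm b X y z) ∘ some = fam b X y := rfl

open IntermediateField.algebraAdjoinAdjoin in
theorem indep (htr : Algebra.trdeg k K = ((Module.finrank ℤ L + 2 : ℕ) : Cardinal))
    {X : Multiplicative L →* Kˣ} {y z : K}
    (hgen : ∀ F : IntermediateField k K, (∀ β, (X β : K) ∈ F) → y ∈ F → z ∈ F → F = ⊤) :
    AlgebraicIndependent k (fm (Module.finBasis ℤ L) X y z) := by
  set F := IntermediateField.adjoin k (Set.range (fm (Module.finBasis ℤ L) X y z)) with hF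
  have hle : FE k X y ≤ F := by
    rw [FE, IntermediateField.adjoin_le_iff]
    rintro _ ⟨o, rfl⟩
    exact IntermediateField.subset_adjoin _ _ ⟨some o, rfl⟩
  have htop : F = ⊤ := hgen F (fun β => hle (X_mem_FE X y β)) (hle (y_mem_FE X y))
    (IntermediateField.subset_adjoin _ _ ⟨none, rfl⟩)
  have halg : Algebra.IsAlgebraic F K := by
    refine ⟨fun x => ?_⟩
    have hx : x ∈ F := by
      rw [htop]
      trivial
    exact isAlgebraic_algebraMap (⟨x, hx⟩ : F)
  have h1 : Algebra.IsAlgebraic (Algebra.adjoin k
      (Set.range (fm (Module.finBasis ℤ L) X y z))) K :=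
    IntermediateField.isAlgebraic_adjoin_iff_top.1 halg
  refine (Algebra.IsAlgebraic.isTranscendenceBasis_of_lift_le_trdeg_of_finite k
    (fm (Module.finBasis ℤ L) X y z) ?_).1
  rw [htr]
  simp only [Cardinal.mk_option, Cardinal.mk_fin, Cardinal.lift_add, Cardinal.lift_natCast,
    Cardinal.lift_one]
  push_cast
  rw [add_assoc, one_add_one_eq_two]

open IntermediateField.algebraAdjoinAdjoin in
theorem not_alg (htr : Algebra.trdeg k K = ((Module.finrank ℤ L + 2 : ℕ) : Cardinal))
    {X : Multiplicative L →* Kˣ} {y : K} (hi : Function.Injective (ev k X y)) :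
    ¬ Algebra.IsAlgebraic (FE k X y) K := by
  intro h
  have h1 : Algebra.IsAlgebraic (Algebra.adjoin k (Set.range (fam (Module.finBasis ℤ L) X y)))
      K := IntermediateField.isAlgebraic_adjoin_iff_top.1 h
  have h2 := (inj_iff (Module.finBasis ℤ L) X y).1 hi
  have h3 : IsTranscendenceBasis k (fam (Module.finBasis ℤ L) X y) :=
    h2.isTranscendenceBasis_iff_isAlgebraic.2 h1
  have h4 := h3.lift_cardinalMk_eq_trdeg
  rw [htr] at h4
  simp only [Cardinal.mk_option, Cardinal.mk_fin, Cardinal.lift_add, Cardinal.lift_natCast,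
    Cardinal.lift_one] at h4
  have h5 : ((Module.finrank ℤ L + 1 : ℕ) : Cardinal) = ((Module.finrank ℤ L + 2 : ℕ) : Cardinal) := by
    rw [← h4]
    push_cast
    rfl
  have h6 := Nat.cast_injective h5
  omega

theorem EV_inj (htr : Algebra.trdeg k K = ((Module.finrank ℤ L + 2 : ℕ) : Cardinal))
    {X : Multiplicative L →* Kˣ} {y z : K}
    (hgen : ∀ F : IntermediateField k K, (∀ β, (X β : K) ∈ F) → y ∈ F → z ∈ F → F = ⊤)
    (hi : Function.Injective (ev k X y)) :
    Function.Injective (EV k X y z) := by
  have key : ∀ f : (AddMonoidAlgebra k (L × ℕ))[X], EV k X y z f = 0 → f = 0 := by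
    intro f h0
    by_contra hf
    apply not_alg htr hi
    set E := FE k X y with hE
    let φ : AddMonoidAlgebra k (L × ℕ) →+* E :=
      ((ev k X y : AddMonoidAlgebra k (L × ℕ) →+* K)).codRestrict E.toSubring.toSubsemiring
        fun g => ev_mem_FE X y g
    have hφ : (algebraMap E K).comp φ = (ev k X y : AddMonoidAlgebra k (L × ℕ) →+* K) := by
      ext1 <;> rfl
    have hz : IsAlgebraic E z := by
      refine ⟨f.map φ, ?_, ?_⟩
      · intro h1
        apply hf
        ext1 d
        have h2 := congrArg (fun q => algebraMap E K (q.coeff d)) h1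
        simp only [coeff_map, coeff_zero, map_zero] at h2
        have h3 : ev k X y (f.coeff d) = 0 := h2
        rw [coeff_zero]
        exact hi (by rw [h3, map_zero])
      · rw [aeval_def, eval₂_map, hφ]
        exact h0
    have h1 := hgen ((algebraicClosure E K).restrictScalars k) (fun β => ?_) ?_ ?_
    · refine ⟨fun x => ?_⟩
      have h2 : x ∈ (algebraicClosure E K).restrictScalars k := by
        rw [h1]
        trivial
      exact mem_algebraicClosure_iff.1 h2
    · exact (algebraicClosure E K).algebraMap_mem ⟨_, X_mem_FE X y β⟩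
    · exact (algebraicClosure E K).algebraMap_mem ⟨_, y_mem_FE X y⟩
    · exact mem_algebraicClosure_iff.2 hz
  intro f g hfg
  have h1 : EV k X y z (f - g) = 0 := by
    have h2 : EV k X y z (f - g) = EV k X y z f - EV k X y z g := by
      rw [EV, eval₂_sub]
      rfl
    rw [h2, hfg, sub_self]
  exact sub_eq_zero.1 (key _ h1)

end Pal

/-- Task al. -/
theorem t_al : S_al.{u, w} := by
  intro k K L _ _ _ _ _ _ v ω X y z htr hC
  have h := Pal.indep htr hC.gen
  have h1 : AlgebraicIndependent k (fam (Module.finBasis ℤ L) X y) := by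
    have h2 := h.comp some (Option.some_injective _)
    exact h2
  have hi : Function.Injective (ev k X y) := (inj_iff (Module.finBasis ℤ L) X y).2 h1
  exact ⟨Pal.EV_inj htr hC.gen hi, hi, h.ne_zero (some none), h.ne_zero none⟩

end Pool.Agent.H893.TW
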