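import Pool.Agent.H893.TW.Stm

/-!
# Charts in two variables
-/

set_option autoImplicit false
set_option linter.unusedVariables false
set_option linter.unusedSectionVars false

universe u w

namespace Pool.Agent.H893.TW

open Polynomial Pool.Agent.H893 Pool.Agent.W418.LU2
open scoped NNReal

namespace Pchart2

section ch

variable {k K : Type u} {L : Type w} [Field k] [Field K] [Algebra k K] [AddCommGroup L]
  [Module.Free ℤ L] [Module.Finite ℤ L] {v : Valuation K ℝ≥0} {ω : L →+ ℝ}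
  {X : Multiplicative L →* Kˣ} {y z : K} {s : ℕ}

lemma fam2_some (b : Module.Basis (Fin s) ℤ L) (o : Option (Fin s)) :
    fam2 b X y z (some o) = fam b X y o := by
  rcases o with _ | j
  · rfl
  · rfl

/-- The value of a polynomial in the coordinates. -/
lemma EV_aeval (b : Module.Basis (Fin s) ℤ L) (P : MvPolynomial (Option (Option (Fin s))) k) :
    EV k X y z ((MvPolynomial.optionEquivLeft k (Option (Fin s)) P).map
      (Io k b : MvPolynomial (Option (Fin s)) k →+* AddMonoidAlgebra k (L × ℕ))) =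
      MvPolynomial.aeval (fam2 b X y z) P := by
  have h : ((eval₂RingHom (ev k X y : AddMonoidAlgebra k (L × ℕ) →+* K) z).comp
      (mapRingHom (Io k b : MvPolynomial (Option (Fin s)) k →+* AddMonoidAlgebra k (L × ℕ)))).comp
      (MvPolynomial.optionEquivLeft k (Option (Fin s)) :
        MvPolynomial (Option (Option (Fin s))) k →+* (MvPolynomial (Option (Fin s)) k)[X]) =
      ((MvPolynomial.aeval (fam2 b X y z) :
        MvPolynomial (Option (Option (Fin s))) k →ₐ[k] K) :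
        MvPolynomial (Option (Option (Fin s))) k →+* K) := by
    apply MvPolynomial.ringHom_ext
    · intro c
      have h1 : MvPolynomial.optionEquivLeft k (Option (Fin s)) (MvPolynomial.C c) =
          C (MvPolynomial.C c) := by
        rw [MvPolynomial.optionEquivLeft_C]
      simp only [RingHom.comp_apply, RingHom.coe_coe, coe_mapRingHom, coe_eval₂RingHom]
      rw [h1, Polynomial.map_C, eval₂_C]
      simp only [RingHom.coe_coe]
      rw [ev_Io]
      simp
    · rintro (_ | o)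
      · simp only [RingHom.comp_apply, RingHom.coe_coe, coe_mapRingHom, coe_eval₂RingHom]
        rw [MvPolynomial.optionEquivLeft_X_none, Polynomial.map_X, eval₂_X,
          MvPolynomial.aeval_X]
        rfl
      · simp only [RingHom.comp_apply, RingHom.coe_coe, coe_mapRingHom, coe_eval₂RingHom]
        rw [MvPolynomial.optionEquivLeft_X_some, Polynomial.map_C, eval₂_C,
          MvPolynomial.aeval_X]
        simp only [RingHom.coe_coe]
        rw [ev_Io, MvPolynomial.aeval_X, fam2_some]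
  exact congrArg (fun φ => φ P) h

lemma al2 (b : Module.Basis (Fin s) ℤ L) (h : Function.Injective (EV k X y z)) :
    AlgebraicIndependent k (fam2 b X y z) := by
  intro P Q hPQ
  apply (MvPolynomial.optionEquivLeft k (Option (Fin s))).injective
  apply Polynomial.map_injective
    (Io k b : MvPolynomial (Option (Fin s)) k →+* AddMonoidAlgebra k (L × ℕ)) (Io_injective b)
  apply h
  rw [EV_aeval, EV_aeval]
  exact hPQ

lemma alg_mem (b : Module.Basis (Fin s) ℤ L) (c : k) : algebraMap k K c ∈ AC2 k b X y z :=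
  Subring.subset_closure (Or.inl ⟨c, rfl⟩)

lemma fam_mem (b : Module.Basis (Fin s) ℤ L) (o : Option (Option (Fin s))) :
    fam2 b X y z o ∈ AC2 k b X y z :=
  Subring.subset_closure (Or.inr ⟨o, rfl⟩)

lemma y_mem (b : Module.Basis (Fin s) ℤ L) : y ∈ AC2 k b X y z := fam_mem b (some none)

lemma z_mem (b : Module.Basis (Fin s) ℤ L) : z ∈ AC2 k b X y z := fam_mem b none

lemma AC_le_AC2 (b : Module.Basis (Fin s) ℤ L) : AC k b X y ≤ AC2 k b X y z := by
  unfold AC
  rw [Subring.closure_le]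
  rintro t (⟨c, rfl⟩ | ⟨o, rfl⟩)
  · exact alg_mem b c
  · rw [← fam2_some (z := z)]
    exact fam_mem b (some o)

lemma AC2_le (hk : ∀ c : k, c ≠ 0 → v (algebraMap k K c) = 1) (S : CS k v ω X y z)
    (b : Module.Basis (Fin s) ℤ L) (hb : ∀ j, 0 < ω (b j)) :
    AC2 k b X y z ≤ v.valuationSubring.toSubring := by
  unfold AC2
  rw [Subring.closure_le]
  rintro t (⟨c, rfl⟩ | ⟨_ | _ | j, rfl⟩)
  · exact vk_le hk c
  · exact S.hz.le
  · exact S.hy.le
  · change v (X (.ofAdd (b j)) : K) ≤ 1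
    rw [S.hX, ex_le_one]
    exact (hb j).le

lemma X_mem (b : Module.Basis (Fin s) ℤ L) {β : L} (hβ : β ∈ chartP b) :
    (X (.ofAdd β) : K) ∈ AC2 k b X y z :=
  AC_le_AC2 b (X_mem_AC b hβ)

/-- Clearing denominators. -/
lemma CO_shift (b : Module.Basis (Fin s) ℤ L) (t : K) (ht : t ∈ CO k X y z) :
    ∃ β ∈ chartP b, (X (.ofAdd β) : K) * t ∈ AC2 k b X y z := by
  have h0 : ∀ x : K, x ∈ AC2 k b X y z →
      ∃ β ∈ chartP b, (X (.ofAdd β) : K) * x ∈ AC2 k b X y z := by
    intro x hx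
    exact ⟨0, zero_mem _, mul_mem (X_mem b (zero_mem _)) hx⟩
  have hXa : ∀ β γ : L, (X (.ofAdd (β + γ)) : K) = (X (.ofAdd β) : K) * (X (.ofAdd γ) : K) := by
    intro β γ
    rw [ofAdd_add, map_mul, Units.val_mul]
  unfold CO at ht
  induction ht using Subring.closure_induction with
  | mem x hx =>
    rcases hx with (⟨c, rfl⟩ | ⟨l, rfl⟩) | hx
    · exact h0 _ (alg_mem b c)
    · obtain ⟨ν, hν, h1⟩ := exists_shift (k := k) b (AddMonoidAlgebra.single (l.toAdd, 0) 1)
      refine ⟨ν, hν, ?_⟩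
      have h2 := AC_le_AC2 (z := z) b (ev_mem_AC (X := X) (y := y) b h1)
      rw [map_mul, ev_single, ev_single] at h2
      simpa using h2
    · rcases hx with rfl | hx
      · exact h0 _ (y_mem b)
      · rw [Set.mem_singleton_iff] at hx
        subst hx
        exact h0 _ (z_mem b)
  | zero => exact h0 _ (zero_mem _)
  | one => exact h0 _ (one_mem _)
  | add x x' _ _ hx hx' =>
    obtain ⟨β, hβ, h1⟩ := hx
    obtain ⟨γ, hγ, h2⟩ := hx'
    refine ⟨β + γ, add_mem hβ hγ, ?_⟩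
    have h3 : (X (.ofAdd (β + γ)) : K) * (x + x') =
        (X (.ofAdd γ) : K) * ((X (.ofAdd β) : K) * x) +
          (X (.ofAdd β) : K) * ((X (.ofAdd γ) : K) * x') := by
      rw [hXa]
      ring
    rw [h3]
    exact add_mem (mul_mem (X_mem b hγ) h1) (mul_mem (X_mem b hβ) h2)
  | neg x _ hx =>
    obtain ⟨β, hβ, h1⟩ := hx
    refine ⟨β, hβ, ?_⟩
    rw [mul_neg]
    exact neg_mem h1
  | mul x x' _ _ hx hx' =>
    obtain ⟨β, hβ, h1⟩ := hx
    obtain ⟨γ, hγ, h2⟩ := hx'
    refine ⟨β + γ, add_mem hβ hγ, ?_⟩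
    have h3 : (X (.ofAdd (β + γ)) : K) * (x * x') =
        ((X (.ofAdd β) : K) * x) * ((X (.ofAdd γ) : K) * x') := by
      rw [hXa]
      ring
    rw [h3]
    exact mul_mem h1 h2

/-- Elements of `CP` lie in the algebras of suitable charts. -/
lemma CP_chart (hω : Function.Injective ω) (t : K) (ht : t ∈ CP k ω X y z) :
    ∃ D : Finset L, (∀ d ∈ D, 0 < ω d) ∧ ∀ (s : ℕ) (b : Module.Basis (Fin s) ℤ L),
      (∀ d ∈ D, d ∈ chartP b) → t ∈ AC2 k b X y z := by
  classical
  unfold CP at ht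
  induction ht using Subring.closure_induction with
  | mem x hx =>
    rcases hx with (⟨c, rfl⟩ | ⟨a, ha, rfl⟩) | hx
    · exact ⟨∅, by simp, fun s b _ => alg_mem b c⟩
    · rcases ha.lt_or_eq with h1 | h1
      · refine ⟨{a}, by simpa using h1, fun s b hb => X_mem b (hb a (by simp))⟩
      · refine ⟨∅, by simp, fun s b _ => X_mem b ?_⟩
        have h2 : a = 0 := hω (by rw [← h1, map_zero])
        rw [h2]
        exact zero_mem _
    · rcases hx with rfl | hx
      · exact ⟨∅, by simp, fun s b _ => y_mem b⟩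
      · rw [Set.mem_singleton_iff] at hx
        subst hx
        exact ⟨∅, by simp, fun s b _ => z_mem b⟩
  | zero => exact ⟨∅, by simp, fun s b _ => zero_mem _⟩
  | one => exact ⟨∅, by simp, fun s b _ => one_mem _⟩
  | add x x' _ _ hx hx' =>
    obtain ⟨D, hD, h1⟩ := hx
    obtain ⟨D', hD', h2⟩ := hx'
    refine ⟨D ∪ D', fun d hd => (Finset.mem_union.1 hd).elim (hD d) (hD' d), fun s b hb => ?_⟩
    exact add_mem (h1 s b fun d hd => hb d (Finset.mem_union_left _ hd))
      (h2 s b fun d hd => hb d (Finset.mem_union_right _ hd))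
  | neg x _ hx =>
    obtain ⟨D, hD, h1⟩ := hx
    exact ⟨D, hD, fun s b hb => neg_mem (h1 s b hb)⟩
  | mul x x' _ _ hx hx' =>
    obtain ⟨D, hD, h1⟩ := hx
    obtain ⟨D', hD', h2⟩ := hx'
    refine ⟨D ∪ D', fun d hd => (Finset.mem_union.1 hd).elim (hD d) (hD' d), fun s b hb => ?_⟩
    exact mul_mem (h1 s b fun d hd => hb d (Finset.mem_union_left _ hd))
      (h2 s b fun d hd => hb d (Finset.mem_union_right _ hd))

/-- The monomials. -/
lemma X_mo2 (b : Module.Basis (Fin s) ℤ L) (β : L) :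
    (X (.ofAdd β) : K) = mo (fam2 b X y z) fun o => Option.elim o 0 fun o' =>
      Option.elim o' 0 fun j => b.repr β j := by
  have h1 := X_mo (X := X) (y := y) b β
  unfold mo at h1 ⊢
  rw [Fintype.prod_option]
  simp only [Option.elim_none, Option.elim_some, zpow_zero, one_mul, fam2_some]
  exact h1

end ch

end Pchart2

open Pchart2 in
/-- Charts. -/
theorem t_chart2 (h1 : S_mo.{u, w}) (h2 : S_al.{u, w}) : S_chart2.{u, w} := by
  classical
  intro k K L _ _ _ _ _ _ v hk htr ω X y z S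
  refine ⟨fun {s} b => ⟨al2 b (h2 htr S).1, AC2_le hk S b, fun β hβ => X_mem b hβ,
    fun t ht => CO_shift b t ht⟩, ?_⟩
  intro T hT
  obtain ⟨-, -, -, -, -, -, -, -, -, -, hPI⟩ := h1 hk S
  have hrep : ∀ t : K, ∃ (β : L) (a c : K) (Da Dc : Finset L), t ∈ T →
      (t = (X (.ofAdd β) : K) * (a * c⁻¹) ∧ v a = 1 ∧ v c = 1 ∧
      ((∀ d ∈ Da, 0 < ω d) ∧ ∀ (s : ℕ) (b : Module.Basis (Fin s) ℤ L),
        (∀ d ∈ Da, d ∈ chartP b) → a ∈ AC2 k b X y z) ∧
      ((∀ d ∈ Dc, 0 < ω d) ∧ ∀ (s : ℕ) (b : Module.Basis (Fin s) ℤ L),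
        (∀ d ∈ Dc, d ∈ chartP b) → c ∈ AC2 k b X y z)) := by
    intro t
    by_cases ht : t ∈ T
    · obtain ⟨β, u, hu, hvu, htu⟩ := hT t ht
      obtain ⟨a, ha, c, hc, hc0, hcV, rfl⟩ := hu
      obtain ⟨Da, hDa⟩ := CP_chart S.inj a ha
      obtain ⟨Dc, hDc⟩ := CP_chart S.inj c hc
      have hc1 : v c ≤ 1 := hPI c (le_lo _ _ hc)
      have hc2 : v c⁻¹ ≤ 1 := hcV
      have hvc0 : v c ≠ 0 := (Valuation.ne_zero_iff _).2 hc0
      have hc3 : v c = 1 := by
        refine le_antisymm hc1 ?_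
        rw [map_inv₀] at hc2
        exact (inv_le_one₀ (zero_lt_iff.2 hvc0)).1 hc2
      have ha3 : v a = 1 := by
        rw [map_mul, map_inv₀, hc3, inv_one, mul_one] at hvu
        exact hvu
      exact ⟨β, a, c, Da, Dc, fun _ => ⟨htu, ha3, hc3, hDa, hDc⟩⟩
    · exact ⟨0, 0, 0, ∅, ∅, fun h => absurd h ht⟩
  choose B a c Da Dc hall using hrep
  let D0 : Finset L := T.biUnion fun t => Da t ∪ Dc t ∪ {B t}
  let D : Finset L := D0.filter fun d => 0 < ω d
  obtain ⟨s, b, hb, hD⟩ := exists_chart ω S.inj D (fun d hd => (Finset.mem_filter.1 hd).2)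
  refine ⟨s, b, hb, fun t ht => ?_⟩
  obtain ⟨e1, e2, e3, ⟨e4, e5⟩, ⟨e6, e7⟩⟩ := hall t ht
  have hmem : ∀ d, d ∈ Da t ∪ Dc t ∪ {B t} → 0 < ω d → d ∈ chartP b := by
    intro d hd hd0
    exact hD d (Finset.mem_filter.2 ⟨Finset.mem_biUnion.2 ⟨t, ht, hd⟩, hd0⟩)
  have ha : a t ∈ AC2 k b X y z := e5 s b fun d hd =>
    hmem d (Finset.mem_union_left _ (Finset.mem_union_left _ hd)) (e4 d hd)
  have hc : c t ∈ AC2 k b X y z := e7 s b fun d hd =>
    hmem d (Finset.mem_union_left _ (Finset.mem_union_right _ hd)) (e6 d hd)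
  have hne : ∀ x : K, v x = 1 → x ≠ 0 := by
    rintro x hx rfl
    rw [map_zero] at hx
    exact zero_ne_one hx
  have hinv : ∀ x : K, v x = 1 → x⁻¹ ∈ v.valuationSubring.toSubring := by
    intro x hx
    change v x⁻¹ ≤ 1
    rw [map_inv₀, hx, inv_one]
  have hu1 : a t * (c t)⁻¹ ∈ PC2 k v b X y z :=
    ⟨a t, ha, c t, hc, hne _ e3, hinv _ e3, rfl⟩
  have hu2 : (a t * (c t)⁻¹)⁻¹ ∈ PC2 k v b X y z := by
    refine ⟨c t, hc, a t, ha, hne _ e2, hinv _ e2, ?_⟩
    rw [mul_inv, inv_inv, mul_comm]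
  refine ⟨⟨a t * (c t)⁻¹, mul_ne_zero (hne _ e2) (inv_ne_zero (hne _ e3)), hu1, hu2,
    fun o => Option.elim o 0 fun o' => Option.elim o' 0 fun j => b.repr (B t) j, ?_⟩,
    fun htV => ?_⟩
  · rw [← X_mo2, mul_comm]
    exact e1
  · rw [e1]
    refine mul_mem (le_lo _ _ (X_mem b ?_)) hu1
    have h6 : 0 ≤ ω (B t) := by
      have h7 : v t ≤ 1 := htV
      rw [e1, map_mul, map_mul, map_inv₀, e2, e3, inv_one, mul_one, mul_one, S.hX,
        ex_le_one] at h7
      exact h7
    rcases h6.lt_or_eq with h8 | h8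
    · exact hmem _ (Finset.mem_union_right _ (Finset.mem_singleton_self _)) h8
    · have h9 : B t = 0 := S.inj (by rw [← h8, map_zero])
      rw [h9]
      exact zero_mem _

end Pool.Agent.H893.TW
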