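import Pool.Agent.H893.TW.Stm
import Pool.Agent.H893.P2

/-!
# Project TW: the ramified step for systems
-/

set_option autoImplicit false
set_option linter.unusedVariables false
set_option linter.unusedSectionVars false

universe u w

namespace Pool.Agent.H893.TW

open Polynomial Pool.Agent.H893 Pool.Agent.W418.LU2
open scoped NNReal

theorem t_core (h1 : S_mo.{u, w}) (h2 : S_dm.{u, w}) (h3 : S_same.{u, w})
    (h4 : S_ram.{u, w}) (h5 : S_lb.{u, w}) : S_core.{u, w} := by
  intro k K L _ _ _ _ _ _ v p _ _ hk hres htr d ω X y z f S η hη hyη hηω A b hA hb hlv hsl Bd hBd Q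
    hw
  classical
  have hd : 0 < d := (h5 hk hres htr S).1
  obtain ⟨s, bs, hbs, hfP⟩ := exists_chart_f S.inj f S.ge0
  obtain ⟨Φ, A', hReg, hA', hLw, hatt, huns⟩ := phaseA p S.inj hη bs hbs hd S.top rfl hfP S.low
    hA hb hlv hsl Bd (fun Φ hΦ A' h => hBd Φ (gt_of_coeff_zero S.inj hη
      (ge_mono hA hΦ.2.1) hΦ.2.2.2) hΦ.2.1 hΦ.2.2.1 A' h)
  obtain ⟨w, hw0, hQ, hwid⟩ := hw Φ hReg.2.1 hReg.2.2.1 A' hA' hLw hatt
  have hΦgt : Φ ∈ gt (k := k) (wW ω η) 0 := gt_of_coeff_zero S.inj hη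
    (ge_mono hA hReg.2.1) hReg.2.2.2
  set f1 := taylor Φ f with hf1
  have hf1P : ∀ j, f1.coeff j ∈ inP k ((chartP bs).prod ⊤) := fun j => inP_taylor hfP hReg.1 j
  have hpos : ∀ j μ, (f1.coeff j).coeff μ ≠ 0 → μ = 0 ∨ 0 < wW ω η μ := by
    intro j μ hμ
    have h1 := hf1P j μ hμ
    have h2 := chartP_nonneg hbs h1.1
    by_cases h3 : μ = 0
    · exact Or.inl h3
    · right
      have h4 : AddMonoidAlgebra.single μ (1 : k) ∈ gt (k := k) (wW ω η) 0 := by
        apply gt_of_coeff_zero S.inj hη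
        · exact single_mem_ge fun _ => h2
        · rw [AddMonoidAlgebra.coeff_single, Finsupp.single_apply, if_neg h3]
      exact h4 μ (by
        rw [AddMonoidAlgebra.coeff_single, Finsupp.single_eq_same]
        exact one_ne_zero)
  -- the change of monomials
  let F : Finset (L × ℕ) := (Finset.range (f1.natDegree + 1)).biUnion
    fun j => (f1.coeff j).coeff.support
  have hF : ∀ j μ, (f1.coeff j).coeff μ ≠ 0 → μ ∈ F := by
    intro j μ hμ
    refine Finset.mem_biUnion.2 ⟨j, ?_, Finsupp.mem_support_iff.2 hμ⟩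
    rw [Finset.mem_range]
    by_contra h
    apply hμ
    rw [coeff_eq_zero_of_natDegree_lt (by omega)]
    rfl
  have hy0 : y ≠ 0 := by
    intro h
    rw [h, map_zero] at hyη
    exact ex_ne _ hyη.symm
  obtain ⟨m0, hm0, a0, ha0⟩ := S.rr y hy0
  obtain ⟨ω', e, m, ys, hFe⟩ := exists_YS S.inj hηω ⟨m0, hm0, a0, by
    rw [hyη, ← ex_nmul, ex_inj] at ha0
    exact ha0.symm⟩ F (by
      intro μ hμ
      obtain ⟨j, -, hj⟩ := Finset.mem_biUnion.1 hμ
      exact hpos j μ (Finsupp.mem_support_iff.1 hj))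
  have hne : ∀ j, f1.coeff j ∈ inP k (Ne' e) := fun j μ hμ => hFe μ (hF j μ hμ)
  have hf0W : ∀ j, f.coeff j ∈ ge (k := k) (wW ω η) 0 := by
    intro j μ hμ
    have h1 := S.ge0 j μ hμ
    rw [wX_apply] at h1
    rw [wW_apply]
    positivity
  have hfd : (f1.coeff d).coeff 0 = (f.coeff d).coeff 0 := by
    have h1 := coeff_taylor_top le_rfl hf0W hΦgt d
    by_contra h2
    have h3 := h1 0 (by
      rw [AddMonoidAlgebra.coeff_sub, Finsupp.sub_apply]
      exact sub_ne_zero.2 h2)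
    rw [map_zero] at h3
    exact lt_irrefl _ h3
  have hDat : Dat ω η ω' e m d f1 ((f.coeff d).coeff 0) A' w :=
    { inj := S.inj
      hη := hη
      ys := ys
      hd := hd
      hc0 := S.top
      fd := hfd
      pos := hpos
      ne := hne
      hA' := hA'
      lw := hLw
      att := hatt
      uns := huns
      hw := hw0
      wid := hwid }
  -- the new point
  obtain ⟨yU, hyU⟩ : ∃ yU : Kˣ, (yU : K) = y := ⟨Units.mk0 y hy0, rfl⟩
  have hΦ0 : Φ ∈ ge (k := k) (wX ω) 0 := ge_mono hA hReg.2.1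
  have hevΦ : v (ev k X y Φ) < 1 := by
    rw [← ex_zero]
    exact v_ev_lt hk S.hX hyη.le hΦgt
  have hevPI : ∀ {ω : L →+ ℝ} {X : Multiplicative L →* Kˣ} {y z : K} (S : CS k v ω X y z)
      (t : K) (g : AddMonoidAlgebra k (L × ℕ)), t ∈ PI k v ω X y z →
      g ∈ ge (k := k) (wX ω) 0 → ev k X t g ∈ PI k v ω X y z := by
    intro ω X y z S t g ht hg
    obtain ⟨-, -, -, -, m5, m6, m7, m8, m9, -, -⟩ := h1 hk S
    refine ge_induction (p := fun g => ev k X t g ∈ PI k v ω X y z) hg ?_ ?_ ?_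
    · rw [map_zero]
      exact zero_mem _
    · intro μ c hμ
      rw [ev_single]
      exact mul_mem (m8 c) (mul_mem (m5 μ.1 hμ) (pow_mem ht _))
    · intro a b ha hb
      rw [map_add]
      exact add_mem ha hb
  have c1 : ∀ {X : Multiplicative L →* Kˣ} {y z : K} (c : k), algebraMap k K c ∈ CO k X y z :=
    fun c => Subring.subset_closure (Or.inl (Or.inl ⟨c, rfl⟩))
  have c2 : ∀ {X : Multiplicative L →* Kˣ} {y z : K} (l : Multiplicative L),
      (X l : K) ∈ CO k X y z := fun l =>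
    Subring.subset_closure (Or.inl (Or.inr ⟨l, rfl⟩))
  have c3 : ∀ {X : Multiplicative L →* Kˣ} {y z : K}, y ∈ CO k X y z :=
    Subring.subset_closure (Or.inr (Or.inl rfl))
  have c4 : ∀ {X : Multiplicative L →* Kˣ} {y z : K}, z ∈ CO k X y z :=
    Subring.subset_closure (Or.inr (Or.inr rfl))
  have hevCO : ∀ {X : Multiplicative L →* Kˣ} {y z : K} (t : K)
      (g : AddMonoidAlgebra k (L × ℕ)), t ∈ CO k X y z → ev k X t g ∈ CO k X y z := by
    intro X y z t g ht
    induction g using AddMonoidAlgebra.induction_linear with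
    | zero => rw [map_zero]; exact zero_mem _
    | add f g hf hg => rw [map_add]; exact add_mem hf hg
    | single μ c =>
      rw [ev_single]
      exact mul_mem (c1 c) (mul_mem (c2 _) (pow_mem ht _))
  -- the first change
  set z1 := z - ev k X y Φ with hz1
  have hCS : CS k v ω X y z := S.toCS
  have hCS1 : CS k v ω X y z1 :=
    { inj := S.inj
      hX := S.hX
      hy := S.hy
      hz := by
        rw [hz1]
        exact lt_of_le_of_lt (v.map_sub _ _) (max_lt S.hz hevΦ)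
      gen := by
        intro F' hF1 hF2 hF3
        refine S.gen F' hF1 hF2 ?_
        have h6 : z = z1 + ev k X y Φ := by rw [hz1]; ring
        rw [h6]
        exact add_mem hF3 (ev_mem hF1 hF2 _)
      rr := S.rr }
  have hD1 : Dm k v ω X y z ω X y z1 := by
    obtain ⟨-, -, -, -, m5, m6, m7, m8, m9, -, -⟩ := h1 hk hCS1
    refine h3 hk hCS hCS1 m6 ?_ c3 (sub_mem c4 (hevCO _ _ c3))
    have h6 : z = z1 + ev k X y Φ := by rw [hz1]; ring
    rw [h6]
    exact add_mem m7 (m9 Φ hΦ0)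
  -- the ramified change
  have huv : v (nu e X yU : K) = 1 := by
    have h6 := ys.v_Mon (X := X) (y := yU) S.hX (by rw [hyU, hyη]) (e.symm (0, 1))
    rw [AddEquiv.apply_symm_apply, map_zero, ex_zero] at h6
    rw [← h6]
    rfl
  obtain ⟨c, hc1⟩ := hres (nu e X yU : K) huv.le
  obtain ⟨hc, -, hCS2, hD2, -, -⟩ := h4 hk hCS1 hη hyη ys yU hyU c hc1
  set X' := nX e X yU with hX'
  set u := nu e X yU with hu
  obtain ⟨ρ, n, hρ0, hρs, hρu, hcase1, hcase2⟩ := phaseB p hDat hc
  obtain ⟨R, hR, hRs⟩ := exists_R (L := L) (ω := ω') (A := A') ρ hρ0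
  have hD0 : (0 : ℝ) < d.factorial := by exact_mod_cast d.factorial_pos
  have hTm0 : ∀ j, (TmP e f1).coeff j ∈ ge (k := k) (wX ω') 0 := by
    intro j
    rw [TmP_coeff]
    exact ys.Tm_ge (hDat.ge0 j)
  have hψ0 : (AddMonoidAlgebra.single 0 c : AddMonoidAlgebra k (L × ℕ)) ∈
      ge (k := k) (wX ω') 0 := single_mem_ge fun _ => by rw [map_zero]
  have hψc : slice ω' 0 (AddMonoidAlgebra.single (0 : L × ℕ) c) = C c := by
    rw [slice_single, if_pos (by simp)]
    rfl
  obtain ⟨hVtx, hge0, htop, hlow⟩ := step_poly ys.inj hA' hTm0 hDat.lv S.top hDat.G_d hDat.G_gt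
    hR hRs (c := c) (b := (n : ℝ) / d.factorial) (by positivity) hρs hρ0 hρu hψ0 hψc
  set f' := mapTau (AddMonoidAlgebra.single 0 c) (taylor R (TmP e f1)) with hf'
  set z2 := z1 - ev k X' (u : K) R with hz2
  set y2 := (u : K) - algebraMap k K c with hy2
  have hevc : ∀ t : K, ev k X' t (AddMonoidAlgebra.single 0 c) = algebraMap k K c := by
    intro t
    rw [ev_single]
    simp
  have hEV : EV k X' y2 z2 f' = EV k X y z f := by
    have h6 : EV k X' y2 z2 f' = EV k X' (u : K) z2 (taylor R (TmP e f1)) := by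
      rw [hf', mapTau, EV, eval₂_map, EV]
      congr 1
      apply RingHom.ext
      intro t
      change ev k X' y2 (tau (AddMonoidAlgebra.single 0 c) t) = ev k X' u t
      rw [ev_tau, hevc, hy2, sub_add_cancel]
    rw [h6, hz2, EV_taylor, hX', hu, EV_TmP X yU _ hne, hyU, hz1, EV_taylor]
  have hevR : v (ev k X' (u : K) R) ≤ ex A' := by
    refine v_ev_le (η := 0) hk hCS2.hX (by rw [huv, ex_zero]) ?_
    rw [wW_zero]
    exact hR
  have hCS3 : CS k v ω' X' y2 z2 :=
    { inj := hCS2.inj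
      hX := hCS2.hX
      hy := hCS2.hy
      hz := by
        rw [hz2]
        refine lt_of_le_of_lt (v.map_sub _ _) (max_lt hCS1.hz ?_)
        exact lt_of_le_of_lt hevR (ex_lt_one.2 hA')
      gen := by
        intro F' hF1 hF2 hF3
        refine hCS2.gen F' hF1 hF2 ?_
        have h6 : (u : K) ∈ F' := by
          have h7 := add_mem hF2 (F'.algebraMap_mem c)
          rwa [sub_add_cancel] at h7
        have h7 : z1 = z2 + ev k X' (u : K) R := by rw [hz2]; ring
        rw [h7]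
        exact add_mem hF3 (ev_mem hF1 h6 _)
      rr := hCS2.rr }
  have hD3 : Dm k v ω' X' y2 z1 ω' X' y2 z2 := by
    obtain ⟨-, -, -, -, m5, m6, m7, m8, m9, -, -⟩ := h1 hk hCS3
    have huPI : (u : K) ∈ PI k v ω' X' y2 z2 := by
      have h6 : (u : K) = y2 + algebraMap k K c := by rw [hy2, sub_add_cancel]
      rw [h6]
      exact add_mem m6 (m8 c)
    refine h3 hk hCS2 hCS3 m6 ?_ c3 (sub_mem c4 (hevCO _ _ ?_))
    · have h7 : z1 = z2 + ev k X' (u : K) R := by rw [hz2]; ring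
      rw [h7]
      exact add_mem m7 (hevPI hCS3 _ _ huPI (ge_mono hA'.le hR))
    · have h6 : (u : K) = y2 + algebraMap k K c := by rw [hy2, sub_add_cancel]
      rw [h6]
      exact add_mem c3 (c1 c)
  have hDm : Dm k v ω X y z ω' X' y2 z2 := by
    have h6 := ((h2 hk hCS).2 hCS1 hD1).2.2 hCS2 hD2
    exact ((h2 hk hCS).2 hCS2 h6).2.2 hCS3 hD3
  have hng : ¬ Goal k v ω' X' y2 z2 (EV k X' y2 z2 f') := by
    rw [hEV]
    refine ((h2 hk hCS).2 hCS3 hDm).2.1 _ _ ⟨1, ?_⟩ S.ng
    rw [map_one, Units.val_one, one_mul]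
  have hm2 : (2 : ℝ) ≤ m := by exact_mod_cast ys.m2
  have hwm : w / m ≤ w / 2 := div_le_div_of_nonneg_left hw0 two_pos hm2
  refine ⟨ω', X', y2, z2, f', A', w, n,
    { toCS := hCS3, ge0 := hge0, ng := hng, top := htop, low := hlow }, ?_, hQ, hw0, hVtx, ?_, ?_⟩
  · refine ⟨(e (0, 1)).1, ?_⟩
    rw [ys.wt]
    simp
  · intro ha
    obtain ⟨h6, h7⟩ := hcase1 ha
    refine ⟨h6.trans (by linarith), fun h8 => h7 ?_⟩
    linarith
  · intro ha
    exact (hcase2 ha).trans hwm

end Pool.Agent.H893.TW
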