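import Pool.Agent.H893.TW.Stm
import Pool.Agent.H893.N4

/-!
# Project TW: the unramified step for systems
-/

set_option autoImplicit false
set_option linter.unusedVariables false
set_option linter.unusedSectionVars false

universe u w

namespace Pool.Agent.H893.TW

open Polynomial Pool.Agent.H893 Pool.Agent.W418.LU2
open scoped NNReal

theorem t_core1 (h1 : S_mo.{u, w}) (h2 : S_dm.{u, w}) (h3 : S_same.{u, w})
    (h4 : S_lb.{u, w}) : S_core1.{u, w} := by
  intro k K L _ _ _ _ _ _ v p _ _ hk hres htr d ω X y z f S γ hη hyη A b hA hb hlv hsl Bd hBd Q hw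
  classical
  have hd : 0 < d := (h4 hk hres htr S).1
  obtain ⟨s, bs, hbs, hfP⟩ := exists_chart_f S.inj f S.ge0
  obtain ⟨Φ, A', hReg, hA', hΦA', hLw, hatt, huns⟩ := phaseA1 p S.inj hη bs hbs hd S.top rfl hfP
    S.low hA hb hlv hsl Bd (fun Φ hΦ A' h => hBd Φ (gt_of_coeff_zero S.inj hη
      (ge_mono hA hΦ.2.1) hΦ.2.2.2) hΦ.2.1 hΦ.2.2.1 A' h)
  obtain ⟨w, hw0, hQ, hwid⟩ := hw Φ hReg.2.1 hReg.2.2.1 A' hA' hLw hatt
  have hΦgt : Φ ∈ gt (k := k) (wW ω (ω γ)) 0 := gt_of_coeff_zero S.inj hη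
    (ge_mono hA hReg.2.1) hReg.2.2.2
  set f1 := taylor Φ f with hf1
  have hf1P : ∀ j, f1.coeff j ∈ inP k ((chartP bs).prod ⊤) := fun j => inP_taylor hfP hReg.1 j
  have hpos : ∀ j μ, (f1.coeff j).coeff μ ≠ 0 → μ = 0 ∨ 0 < wW ω (ω γ) μ := by
    intro j μ hμ
    have h1 := hf1P j μ hμ
    have h2 := chartP_nonneg hbs h1.1
    by_cases h3 : μ = 0
    · exact Or.inl h3
    · right
      have h4 : AddMonoidAlgebra.single μ (1 : k) ∈ gt (k := k) (wW ω (ω γ)) 0 := by
        apply gt_of_coeff_zero S.inj hη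
        · exact single_mem_ge fun _ => h2
        · rw [AddMonoidAlgebra.coeff_single, Finsupp.single_apply, if_neg h3]
      exact h4 μ (by
        rw [AddMonoidAlgebra.coeff_single, Finsupp.single_eq_same]
        exact one_ne_zero)
  have hf1ge : ∀ j, f1.coeff j ∈ ge (k := k) (wW ω (ω γ)) 0 := by
    intro j μ hμ
    rcases hpos j μ hμ with h1 | h1
    · rw [h1, map_zero]
    · exact h1.le
  have hf0W : ∀ j, f.coeff j ∈ ge (k := k) (wW ω (ω γ)) 0 := by
    intro j μ hμ
    have h1 := S.ge0 j μ hμ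
    rw [wX_apply] at h1
    rw [wW_apply]
    positivity
  have hfd : (f1.coeff d).coeff 0 = (f.coeff d).coeff 0 := by
    have h1 := coeff_taylor_top le_rfl hf0W hΦgt d
    by_contra h2
    have h3 := h1 0 (by
      rw [AddMonoidAlgebra.coeff_sub, Finsupp.sub_apply]
      exact sub_ne_zero.2 h2)
    rw [map_zero] at h3
    exact lt_irrefl _ h3
  set g := ShP γ f1 with hg
  have hg0 : ∀ j, g.coeff j ∈ ge (k := k) (wX ω) 0 := by
    intro j
    rw [hg, ShP_coeff]
    exact Sh_ge (hf1ge j)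
  have hglv : Lv (wX ω) A' d g := by
    intro j
    rw [hg, ShP_coeff]
    exact Sh_ge (hLw.lv hA'.le hf1ge j)
  set G := LF ω A' d g with hG
  have hGne : ∀ j t, (G.coeff j).coeff t ≠ 0 → ∃ μ, (f1.coeff j).coeff μ ≠ 0 ∧
      wW ω (ω γ) μ = ((d : ℝ) - j) * A' ∧ μ.2 = t := by
    intro j t ht
    rw [hG, LF_coeff, hg, ShP_coeff] at ht
    obtain ⟨β, hβ, h1⟩ := slice_ne ω S.inj ht
    obtain ⟨μ, hμ, h2⟩ := Sh_ne γ h1
    refine ⟨μ, hμ, ?_, ?_⟩
    · rw [← shM_wt, ← h2, hβ]
    · exact (congrArg Prod.snd h2).symm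
  have hGdeg : ∀ j : ℕ, j < d → ∀ i, (G.coeff j).coeff i ≠ 0 → (i : ℝ) ≤ ((d : ℝ) - j) * w := by
    intro j hj i hi
    obtain ⟨μ, hμ, h1, h2⟩ := hGne j i hi
    rw [← h2]
    exact hwid j μ hj hμ h1
  have hGgt : ∀ j, d < j → G.coeff j = 0 := by
    intro j hj
    rw [hG, LF_coeff]
    apply slice_gt
    refine gt_of_ge ?_ (hg0 j)
    have h1 : (d : ℝ) < j := by exact_mod_cast hj
    exact mul_neg_of_neg_of_pos (by linarith) hA'
  have hGd : G.coeff d = C ((f.coeff d).coeff 0) := by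
    ext t
    rw [coeff_C]
    by_cases ht : t = 0
    · subst ht
      rw [if_pos rfl, hG, LF_coeff, hg, ShP_coeff, sub_self, zero_mul]
      have h1 := slice_coeff ω S.inj (Sh γ (f1.coeff d)) 0 0
      rw [map_zero] at h1
      rw [h1, Sh_coeff', ← hfd]
      simp
      rfl
    · rw [if_neg ht]
      by_contra h1
      obtain ⟨μ, hμ, h2, h3⟩ := hGne d t h1
      rw [sub_self, zero_mul] at h2
      rcases hpos d μ hμ with h5 | h5
      · rw [h5] at h3
        exact ht h3.symm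
      · rw [h2] at h5
        exact lt_irrefl _ h5
  have hGnp : ∀ ρ : k[X], ((∀ a, ω a ≠ A') → ρ = 0) → ∃ j < d, (taylor ρ G).coeff j ≠ 0 := by
    intro ρ hρ
    obtain ⟨R, hR, hRs⟩ := exists_R1 (L := L) (ω := ω) (A := A') ρ hρ
    have hRge : R ∈ ge (k := k) (wX ω) A' := fun μ hμ => (hR μ hμ).1.ge
    obtain ⟨j, hj, h1⟩ := huns (Sh (-γ) R) (by
      intro μ hμ
      obtain ⟨ν, hν, rfl⟩ := Sh_ne (-γ) hμ
      rw [← (hR ν hν).1, wW_apply]
      simp only [shM, map_add, map_nsmul, map_neg, nsmul_eq_mul]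
      ring)
    refine ⟨j, hj, fun h2 => h1 ?_⟩
    have h3 : ShP γ (taylor (Sh (-γ) R) f1) = taylor R g := by
      rw [ShP_taylor, Sh_neg]
    have h4 : (taylor R g).coeff j ∈ gt (k := k) (wX ω) (((d : ℝ) - j) * A') := by
      apply gt_of_slice ω S.inj
      · exact hglv.taylor hRge j
      · rw [← LF_coeff, LF_taylor ω hglv hRge, hRs]
        exact h2
    rw [← h3, ShP_coeff] at h4
    exact of_Sh_gt h4
  -- the new point
  set u : K := (X (.ofAdd (-γ)) : K) * y with hu
  have hXX : (X (.ofAdd γ) : K) * (X (.ofAdd (-γ)) : K) = 1 := by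
    rw [← Units.val_mul, ← map_mul, ← ofAdd_add, add_neg_cancel, ofAdd_zero, map_one,
      Units.val_one]
  have hyu : y = (X (.ofAdd γ) : K) * u := by
    rw [hu, ← mul_assoc, hXX, one_mul]
  have huv : v u = 1 := by
    rw [hu, map_mul, S.hX, hyη, ← ex_add, map_neg, neg_add_cancel, ex_zero]
  obtain ⟨c, hc1⟩ := hres u huv.le
  have hc : c ≠ 0 := by
    rintro rfl
    rw [map_zero, sub_zero, huv] at hc1
    exact lt_irrefl _ hc1
  obtain ⟨ρ, n, hρ0, hρd, hρs, hρu, hnw⟩ := slopeB (T := ∀ a, ω a ≠ A') hd hGd hGgt hw0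
    hGdeg c hGnp
  obtain ⟨R, hR, hRs⟩ := exists_R1 (L := L) (ω := ω) (A := A') ρ hρ0
  have hRge : R ∈ ge (k := k) (wX ω) A' := fun μ hμ => (hR μ hμ).1.ge
  have hψ0 : (AddMonoidAlgebra.single 0 c : AddMonoidAlgebra k (L × ℕ)) ∈
      ge (k := k) (wX ω) 0 := single_mem_ge fun _ => by rw [map_zero]
  have hψc : slice ω 0 (AddMonoidAlgebra.single (0 : L × ℕ) c) = C c := by
    rw [slice_single, if_pos (by simp)]
    rfl
  have hD0 : (0 : ℝ) < d.factorial := by exact_mod_cast d.factorial_pos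
  obtain ⟨hVtx, hge0, htop, hlow⟩ := step_poly S.inj hA' hg0 hglv S.top hGd hGgt
    hRge hRs (c := c) (b := (n : ℝ) / d.factorial) (by positivity) hρs hρ0 hρu hψ0 hψc
  set f' := mapTau (AddMonoidAlgebra.single 0 c) (taylor R g) with hf'
  set z2 := z - ev k X y Φ - ev k X u R with hz2
  set y2 := u - algebraMap k (K) c with hy2
  have hevc : ∀ t : K, ev k X t (AddMonoidAlgebra.single 0 c) =
      algebraMap k (K) c := by
    intro t
    rw [ev_single]
    simp
  have hEV : EV k X y2 z2 f' = EV k X y z f := by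
    have h1 : EV k X y2 z2 f' = EV k X u z2 (taylor R g) := by
      rw [hf', mapTau, EV, eval₂_map, EV]
      congr 1
      apply RingHom.ext
      intro t
      change ev k X y2 (tau (AddMonoidAlgebra.single 0 c) t) = ev k X u t
      rw [ev_tau, hevc, hy2, sub_add_cancel]
    rw [h1, hz2, EV_taylor, hg, EV_ShP, ← hyu, EV_taylor]
  have hevR : v (ev k X u R) ≤ ex A' := by
    refine v_ev_le (η := 0) hk S.hX (by rw [huv, ex_zero]) ?_
    rw [wW_zero]
    exact hRge
  have hevΦ : v (ev k X y Φ) < 1 := by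
    rw [← ex_zero]
    exact v_ev_lt hk S.hX hyη.le hΦgt
  -- the new coordinate system
  have hCS' : CS k v ω X y2 z2 :=
    { inj := S.inj
      hX := S.hX
      hy := by
        rw [hy2]
        exact hc1
      hz := by
        rw [hz2]
        refine lt_of_le_of_lt (v.map_sub _ _) (max_lt ?_ ?_)
        · exact lt_of_le_of_lt (v.map_sub _ _) (max_lt S.hz hevΦ)
        · exact lt_of_le_of_lt hevR (ex_lt_one.2 hA')
      gen := by
        intro F' hF1 hF2 hF3
        rw [hy2] at hF2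
        have h2' : u ∈ F' := by
          have h3' := add_mem hF2 (F'.algebraMap_mem c)
          rwa [sub_add_cancel] at h3'
        have h4' : y ∈ F' := by
          rw [hyu]
          exact mul_mem (hF1 (.ofAdd γ)) h2'
        refine S.gen F' hF1 h4' ?_
        have h5 : z = z2 + (ev k X y Φ) + (ev k X u R) := by
          rw [hz2]
          ring
        rw [h5]
        exact add_mem (add_mem hF3 (ev_mem hF1 h4' _)) (ev_mem hF1 h2' _)
      rr := S.rr }
  have hCS : CS k v ω X y z := S.toCS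
  obtain ⟨-, -, -, -, m5, m6, m7, m8, m9, -, -⟩ := h1 hk hCS'
  have hΦ0 : Φ ∈ ge (k := k) (wX ω) 0 := ge_mono hA hReg.2.1
  have hR0 : R ∈ ge (k := k) (wX ω) 0 := ge_mono hA'.le hRge
  have hevPI : ∀ (t : K) (g : AddMonoidAlgebra k (L × ℕ)), t ∈ PI k v ω X y2 z2 →
      g ∈ ge (k := k) (wX ω) 0 → ev k X t g ∈ PI k v ω X y2 z2 := by
    intro t g ht hg
    refine ge_induction (p := fun g => ev k X t g ∈ PI k v ω X y2 z2) hg ?_ ?_ ?_
    · rw [map_zero]
      exact zero_mem _
    · intro μ c hμ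
      rw [ev_single]
      exact mul_mem (m8 c) (mul_mem (m5 μ.1 hμ) (pow_mem ht _))
    · intro a b ha hb
      rw [map_add]
      exact add_mem ha hb
  have huPI : u ∈ PI k v ω X y2 z2 := by
    have h5 : u = y2 + algebraMap k K c := by
      rw [hy2, sub_add_cancel]
    rw [h5]
    exact add_mem m6 (m8 c)
  have hyPI : y ∈ PI k v ω X y2 z2 := by
    rw [hyu]
    exact mul_mem (m5 γ hη.le) huPI
  have hzPI : z ∈ PI k v ω X y2 z2 := by
    have h5 : z = z2 + (ev k X y Φ) + (ev k X u R) := by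
      rw [hz2]
      ring
    rw [h5]
    exact add_mem (add_mem m7 (hevPI y Φ hyPI hΦ0)) (hevPI u R huPI hR0)
  have c1 : ∀ c : k, algebraMap k K c ∈ CO k X y z := fun c =>
    Subring.subset_closure (Or.inl (Or.inl ⟨c, rfl⟩))
  have c2 : ∀ l : Multiplicative L, (X l : K) ∈ CO k X y z := fun l =>
    Subring.subset_closure (Or.inl (Or.inr ⟨l, rfl⟩))
  have c3 : y ∈ CO k X y z := Subring.subset_closure (Or.inr (Or.inl rfl))
  have c4 : z ∈ CO k X y z := Subring.subset_closure (Or.inr (Or.inr rfl))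
  have hevCO : ∀ (t : K) (g : AddMonoidAlgebra k (L × ℕ)), t ∈ CO k X y z →
      ev k X t g ∈ CO k X y z := by
    intro t g ht
    induction g using AddMonoidAlgebra.induction_linear with
    | zero => rw [map_zero]; exact zero_mem _
    | add f g hf hg => rw [map_add]; exact add_mem hf hg
    | single μ c =>
      rw [ev_single]
      exact mul_mem (c1 c) (mul_mem (c2 _) (pow_mem ht _))
  have huCO : u ∈ CO k X y z := by
    rw [hu]
    exact mul_mem (c2 _) c3
  have hy2CO : y2 ∈ CO k X y z := by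
    rw [hy2]
    exact sub_mem huCO (c1 c)
  have hz2CO : z2 ∈ CO k X y z := by
    rw [hz2]
    exact sub_mem (sub_mem c4 (hevCO y Φ c3)) (hevCO u R huCO)
  have hDm : Dm k v ω X y z ω X y2 z2 := h3 hk hCS hCS' hyPI hzPI hy2CO hz2CO
  have hng : ¬ Goal k v ω X y2 z2 (EV k X y2 z2 f') := by
    rw [hEV]
    refine ((h2 hk hCS).2 hCS' hDm).2.1 _ _ ⟨1, ?_⟩ S.ng
    rw [map_one, Units.val_one, one_mul]
  refine ⟨y2, z2, f', u, Φ, R, c, A', w, n, hQ, hw0, ?_⟩
  exact
    { hc := hc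
      hu := hyu
      hy' := rfl
      hz' := rfl
      hf' := rfl
      hA' := hA'
      Φ0 := fun μ hμ => ⟨hΦgt μ hμ, hΦA' μ hμ⟩
      ΦA := fun μ hμ => hReg.2.1 μ hμ
      lw := hLw
      att := hatt
      R0 := fun μ hμ => ⟨(hR μ hμ).1, hρd _ (hR μ hμ).2⟩
      sys :=
        { toCS := hCS'
          ge0 := hge0
          ng := hng
          top := htop
          low := hlow }
      vtx := hVtx
      gdeg := hGdeg
      gd := hGd
      ggt := hGgt
      gnp := hGnp
      glv := hglv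
      gsl := by rw [hRs]; exact hρs
      bw := hnw }

end Pool.Agent.H893.TW
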