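import Pool.Agent.H893.TW.Stm

/-!
# Domination of coordinate systems is transitive
-/

set_option autoImplicit false
set_option linter.unusedVariables false
set_option linter.unusedSectionVars false

universe u w

namespace Pool.Agent.H893.TW

open Polynomial Pool.Agent.H893 Pool.Agent.W418.LU2
open scoped NNReal

namespace Pdm

variable {k K : Type u} {L : Type w} [Field k] [Field K] [Algebra k K] [AddCommGroup L]
  {v : Valuation K ℝ≥0}

/-- One is a monomial. -/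
lemma mo_one (h1 : S_mo.{u, w}) (hv : ∀ c : k, c ≠ 0 → v (algebraMap k K c) = 1)
    {ω : L →+ ℝ} {X : Multiplicative L →* Kˣ} {y z : K} (hC : CS k v ω X y z) :
    Mo k v ω X y z 1 := by
  have h := (h1 hv hC).2.2.1 1
  simpa using h

/-- Powers of monomials. -/
lemma mo_pow (h1 : S_mo.{u, w}) (hv : ∀ c : k, c ≠ 0 → v (algebraMap k K c) = 1)
    {ω : L →+ ℝ} {X : Multiplicative L →* Kˣ} {y z : K} (hC : CS k v ω X y z) {s : K}
    (hs : Mo k v ω X y z s) (n : ℕ) : Mo k v ω X y z (s ^ n) := by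
  induction n with
  | zero => rw [pow_zero]; exact mo_one h1 hv hC
  | succ n ih => rw [pow_succ]; exact (h1 hv hC).1 _ _ ih hs

/-- Monomials of the first system are monomials of a dominating system. -/
lemma mo_up (h1 : S_mo.{u, w}) (hv : ∀ c : k, c ≠ 0 → v (algebraMap k K c) = 1)
    {ω : L →+ ℝ} {X : Multiplicative L →* Kˣ} {y z : K}
    {ω' : L →+ ℝ} {X' : Multiplicative L →* Kˣ} {y' z' : K} (hC' : CS k v ω' X' y' z')
    (hD : Dm k v ω X y z ω' X' y' z') {t : K} (ht : Mo k v ω X y z t) :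
    Mo k v ω' X' y' z' t := by
  obtain ⟨β, u, hu, hvu, rfl⟩ := ht
  exact (h1 hv hC').1 _ _ (hD.mo _) ((h1 hv hC').2.2.2.1 u (hD.le hu) hvu).1

/-- The system dominates itself. -/
lemma dm_refl (h1 : S_mo.{u, w}) (hv : ∀ c : k, c ≠ 0 → v (algebraMap k K c) = 1)
    {ω : L →+ ℝ} {X : Multiplicative L →* Kˣ} {y z : K} (hC : CS k v ω X y z) :
    Dm k v ω X y z ω X y z where
  le := le_rfl
  mo := (h1 hv hC).2.2.1
  den := ⟨1, (CO k X y z).one_mem, mo_one h1 hv hC, fun t ht => ⟨0, by simpa using ht⟩⟩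

/-- Transitivity. -/
lemma dm_trans (h1 : S_mo.{u, w}) (hv : ∀ c : k, c ≠ 0 → v (algebraMap k K c) = 1)
    {ω : L →+ ℝ} {X : Multiplicative L →* Kˣ} {y z : K}
    {ω' : L →+ ℝ} {X' : Multiplicative L →* Kˣ} {y' z' : K}
    {ω'' : L →+ ℝ} {X'' : Multiplicative L →* Kˣ} {y'' z'' : K}
    (hC' : CS k v ω' X' y' z') (hC'' : CS k v ω'' X'' y'' z'')
    (hD : Dm k v ω X y z ω' X' y' z') (hD' : Dm k v ω' X' y' z' ω'' X'' y'' z'') :
    Dm k v ω X y z ω'' X'' y'' z'' := by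
  refine ⟨hD.le.trans hD'.le, fun β => mo_up h1 hv hC'' hD' (hD.mo β), ?_⟩
  obtain ⟨s, hs, hsM, hsN⟩ := hD.den
  obtain ⟨s', hs', hsM', hsN'⟩ := hD'.den
  obtain ⟨N0, hN0⟩ := hsN s' hs'
  have hm : Mo k v ω'' X'' y'' z'' s := mo_up h1 hv hC'' hD' hsM
  refine ⟨s * (s ^ N0 * s'), (CO k X y z).mul_mem hs hN0, ?_, ?_⟩
  · exact (h1 hv hC'').1 _ _ hm ((h1 hv hC'').1 _ _ (mo_pow h1 hv hC'' hm N0) hsM')
  · intro t ht
    obtain ⟨M, hM⟩ := hsN' t ht
    obtain ⟨N1, hN1⟩ := hsN _ hM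
    refine ⟨M + N1, ?_⟩
    have e : (s * (s ^ N0 * s')) ^ (M + N1) * t =
        s ^ (M + N0 * M) * (s ^ N0 * s') ^ N1 * (s ^ N1 * (s' ^ M * t)) := by
      ring
    rw [e]
    exact (CO k X y z).mul_mem ((CO k X y z).mul_mem (Subring.pow_mem _ hs _)
      (Subring.pow_mem _ hN0 _)) hN1

/-- A change of the last two coordinates. -/
lemma dm_same (h1 : S_mo.{u, w}) (hv : ∀ c : k, c ≠ 0 → v (algebraMap k K c) = 1)
    {ω : L →+ ℝ} {X : Multiplicative L →* Kˣ} {y z y' z' : K} (hC : CS k v ω X y z)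
    (hC' : CS k v ω X y' z') (hy : y ∈ PI k v ω X y' z') (hz : z ∈ PI k v ω X y' z')
    (hy' : y' ∈ CO k X y z) (hz' : z' ∈ CO k X y z) : Dm k v ω X y z ω X y' z' := by
  have hh := h1 hv hC'
  have hle : CP k ω X y z ≤ PI k v ω X y' z' := by
    rw [CP, Subring.closure_le]
    rintro x ((⟨c, rfl⟩ | ⟨a, ha, rfl⟩) | hx)
    · exact hh.2.2.2.2.2.2.2.1 c
    · exact hh.2.2.2.2.1 a ha
    · rcases hx with rfl | rfl
      · exact hy
      · exact hz
  have hCO : CO k X y' z' ≤ CO k X y z := by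
    rw [CO, Subring.closure_le]
    rintro x ((⟨c, rfl⟩ | ⟨a, rfl⟩) | hx)
    · exact Subring.subset_closure (Or.inl (Or.inl ⟨c, rfl⟩))
    · exact Subring.subset_closure (Or.inl (Or.inr ⟨a, rfl⟩))
    · rcases hx with rfl | rfl
      · exact hy'
      · exact hz'
  refine ⟨?_, hh.2.2.1, 1, (CO k X y z).one_mem, mo_one h1 hv hC', fun t ht => ⟨0, ?_⟩⟩
  · rintro x ⟨a, ha, b, hb, hb0, hbA, rfl⟩
    have hb1 : v b ≤ 1 := hh.2.2.2.2.2.2.2.2.2.2 b (hle hb)
    have hb2 : v b⁻¹ ≤ 1 := hbA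
    have hb3 : v b = 1 := by
      apply le_antisymm hb1
      rw [map_inv₀] at hb2
      have h0 : 0 < v b := by
        rw [Valuation.pos_iff]; exact hb0
      exact (one_le_inv₀ (inv_pos.2 h0)).2 hb2 |>.trans (by rw [inv_inv])
    exact (PI k v ω X y' z').mul_mem (hle ha) (hh.2.2.2.1 b (hle hb) hb3).2
  · simpa using hCO ht

end Pdm

open Pdm in
theorem t_dm (h1 : S_mo.{u, w}) : S_dm.{u, w} ∧ S_same.{u, w} := by
  refine ⟨?_, ?_⟩
  · intro k K L _ _ _ _ v hv ω X y z hC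
    refine ⟨dm_refl h1 hv hC, ?_⟩
    intro ω' X' y' z' hC' hD
    refine ⟨fun t ht => mo_up h1 hv hC' hD ht, ?_, ?_⟩
    · rintro t t' ⟨β, rfl⟩ hng ⟨ω'', X'', y'', z'', hC'', hD', hM⟩
      apply hng
      have hD'' := dm_trans h1 hv hC' hC'' hD hD'
      refine ⟨ω'', X'', y'', z'', hC'', hD'', ?_⟩
      have h2 := (h1 hv hC'').1 _ _ ((h1 hv hC'').2.1 _ (hD''.mo β)) hM
      have h3 : ((X β : Kˣ) : K)⁻¹ * ((X β : K) * t) = t := by
        rw [← mul_assoc, inv_mul_cancel₀ (Units.ne_zero _), one_mul]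
      rwa [h3] at h2
    · intro ω'' X'' y'' z'' hC'' hD'
      exact dm_trans h1 hv hC' hC'' hD hD'
  · intro k K L _ _ _ _ v hv ω X y z y' z' hC hC' hy hz hy' hz'
    exact dm_same h1 hv hC hC' hy hz hy' hz'

end Pool.Agent.H893.TW
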