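import Pool.Agent.H893.TW.Stm

/-!
# The order drops if the slope is less than one
-/

set_option autoImplicit false
set_option linter.unusedVariables false
set_option linter.unusedSectionVars false

universe u w

namespace Pool.Agent.H893.TW

open Polynomial Pool.Agent.H893 Pool.Agent.W418.LU2
open scoped NNReal

namespace PdropA1

/-- The case of slope zero. -/
theorem dropA0 (h5 : S_root.{u, w}) (h7 : S_div.{u, w})
    {k K : Type u} {L : Type w} [Field k] [Field K] [Algebra k K] [AddCommGroup L]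
    [Module.Free ℤ L] [Module.Finite ℤ L]
    {v : Valuation K ℝ≥0} (hk : ∀ c : k, c ≠ 0 → v (algebraMap k K c) = 1)
    (hres : ∀ x : K, v x ≤ 1 → ∃ c : k, v (x - algebraMap k K c) < 1)
    (htr : Algebra.trdeg k K = ((Module.finrank ℤ L + 2 : ℕ) : Cardinal))
    {d : ℕ} {ω : L →+ ℝ} {X : Multiplicative L →* Kˣ} {y z : K}
    {f : (AddMonoidAlgebra k (L × ℕ))[X]}
    (S : SysE k v d ω X y z f) {A : ℝ} (hV : Vtx ω A 0 d f) (hA : ∃ a, ω a = A) :
    ∃ (y' z' : K) (f' : (AddMonoidAlgebra k (L × ℕ))[X]) (d1 : ℕ), d1 < d ∧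
      SysE k v d1 ω X y' z' f' := by
  classical
  obtain ⟨a, ha⟩ := hA
  have hroot := h5 hk hres htr S hV.A0.le hV.lv
  have hz1 : v (z * (X (.ofAdd (-a)) : K)) ≤ 1 := by
    rw [map_mul, S.hX, map_neg, ha]
    calc v z * ex (-A) ≤ ex A * ex (-A) := mul_le_mul_of_nonneg_right hroot zero_le
      _ = 1 := by rw [← ex_add, add_neg_cancel, ex_zero]
  obtain ⟨c1, hc1⟩ := hres _ hz1
  have hG0 : ∀ j, (Zd a (d • a) f).coeff j ∈ ge (k := k) (wX ω) 0 := by
    intro j
    refine ge_mono (le_of_eq ?_) (Zd_ge (hV.lv j))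
    rw [map_nsmul, ha, nsmul_eq_mul]
    ring
  have hS2 := h7 hk S.toPSE a (d • a) (by rw [ha]; exact hV.A0.le) hG0 c1 hc1
  have hLF : LF ω 0 d (Zd a (d • a) f) = LF ω A d f := by
    ext1 j
    rw [LF_coeff, LF_coeff, Zd_coeff, mul_zero]
    have h1 := slice_shift (ω := ω) (j • a - d • a) (((d : ℝ) - j) * A) (f.coeff j)
    have h2 : ω (j • a - d • a) + ((d : ℝ) - j) * A = 0 := by
      rw [map_sub, map_nsmul, map_nsmul, ha, nsmul_eq_mul, nsmul_eq_mul]
      ring
    rw [h2] at h1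
    exact h1
  have hs : slice ω 0 (AddMonoidAlgebra.single (0 : L × ℕ) c1) = C c1 := by
    rw [slice_single, if_pos (by simp)]
    rfl
  have hLF2 : LF ω 0 d (taylor (AddMonoidAlgebra.single 0 c1) (Zd a (d • a) f)) =
      taylor (C c1) (LF ω A d f) := by
    rw [LF_taylor ω (A := 0) (by
      intro j
      rw [mul_zero]
      exact hG0 j) (single_mem_ge fun _ => by rw [map_zero]), hs, hLF]
  obtain ⟨j, hj, i, hi, h1⟩ := hV.uns (C c1) (fun h => absurd ha (h a))
  have hi0 : i = 0 := by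
    rw [mul_zero] at hi
    exact_mod_cast le_antisymm hi (Nat.cast_nonneg i)
  subst hi0
  have hne : ((taylor (AddMonoidAlgebra.single 0 c1) (Zd a (d • a) f)).coeff j).coeff (0, 0) ≠
      0 := by
    rw [← hLF2, LF_coeff, mul_zero] at h1
    have h2 := slice_coeff ω S.inj ((taylor (AddMonoidAlgebra.single 0 c1)
      (Zd a (d • a) f)).coeff j) 0 0
    rw [map_zero] at h2
    rw [← h2]
    exact h1
  have hex : ∃ j : ℕ, ((taylor (AddMonoidAlgebra.single 0 c1) (Zd a (d • a) f)).coeff j).coeff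
      0 ≠ 0 := ⟨j, hne⟩
  refine ⟨y, _, _, Nat.find hex, lt_of_le_of_lt (Nat.find_min' hex hne) hj,
    ⟨hS2, Nat.find_spec hex, ?_⟩⟩
  intro n hn
  by_contra h
  exact Nat.find_min hex hn h

end PdropA1



theorem t_dropA1 (h1 : S_mo.{u, w}) (h2 : S_dm.{u, w}) (h3 : S_same.{u, w}) (h4 : S_unit.{u, w})
    (h5 : S_root.{u, w}) (h6 : S_lin.{u, w}) (h7 : S_div.{u, w}) (h8 : S_shift.{u, w})
    (h9 : S_lin1.{u, w}) : S_dropA1.{u, w} := by
  classical
  intro k K L _ _ _ _ _ _ v hk hres htr d ω X y z f hden S A b hV hb hA hbn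
  rcases hV.b0.eq_or_lt with hb0 | hb0
  · subst hb0
    exact PdropA1.dropA0 h5 h7 hk hres htr S hV hA
  obtain ⟨a, ha⟩ := hA
  obtain ⟨n, hn⟩ := hbn
  obtain ⟨ε, hε, hmono⟩ := hV.mono S.inj
  obtain ⟨η, hη, hyη⟩ := exists_pos_ex S.hy
  have hD : (0 : ℝ) < (d.factorial : ℝ) := by exact_mod_cast d.factorial_pos
  have hdb : (0 : ℝ) < (d : ℝ) * b + 1 := by positivity
  obtain ⟨β0, k1, k2⟩ := hden 0 (min η (ε / ((d : ℝ) * b + 1)) / d.factorial)
    (div_pos (lt_min hη (div_pos hε hdb)) hD)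
  set β : L := d.factorial • β0 with hβd
  have hβ0 : ω β = d.factorial * ω β0 := by rw [hβd, map_nsmul, nsmul_eq_mul]
  have hβpos : 0 < ω β := by rw [hβ0]; positivity
  have hβlt : ω β < min η (ε / ((d : ℝ) * b + 1)) := by
    rw [lt_div_iff₀ hD] at k2
    rw [hβ0]
    linarith
  have hβη : ω β < η := lt_of_lt_of_le hβlt (min_le_left _ _)
  have hβε : ((d : ℝ) * b + 1) * ω β < ε := by
    have h3 := lt_of_lt_of_le hβlt (min_le_right _ _)
    rw [lt_div_iff₀ hdb] at h3
    linarith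
  obtain ⟨P1, P1c⟩ := h8 hk S.toPSE β hβpos (lt_of_le_of_lt hyη (ex_lt.2 hβη))
  have S1 : SysE k v d ω X (y * (X (.ofAdd (-β)) : K)) z (ShP β f) := by
    refine ⟨P1, ?_, ?_⟩
    · rw [P1c]
      exact S.top
    · intro j hj
      rw [P1c]
      exact S.low j hj
  set f1 := ShP β f with hf1
  set a1 : L := a + n • β0 with ha1d
  set A1 : ℝ := A + b * ω β with hA1d
  have ha1 : ω a1 = A1 := by
    rw [ha1d, map_add, ha, map_nsmul, nsmul_eq_mul, hA1d, hβ0, hn]
    field_simp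
  have hA1pos : 0 < A1 := by
    have h3 := hV.A0
    have h4 := mul_pos hb0 hβpos
    rw [hA1d]
    linarith
  -- weights after the change
  have hwt : ∀ j : ℕ, ∀ μ : L × ℕ, (f.coeff j).coeff μ ≠ 0 →
      (j < d → (ω μ.1 + μ.2 * ω β = ((d : ℝ) - j) * A1 ∧ (μ.2 : ℝ) = ((d : ℝ) - j) * b ∧
          ω μ.1 = ((d : ℝ) - j) * A) ∨
        ((d : ℝ) - j) * A1 < ω μ.1 + μ.2 * ω β) ∧
      (d ≤ j → 0 ≤ ω μ.1 ∧ 0 ≤ ω μ.1 + μ.2 * ω β) := by
    intro j μ hμ
    constructor
    · intro hj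
      have hjd : (0 : ℝ) < (d : ℝ) - j := by
        have : (j : ℝ) < d := by exact_mod_cast hj
        linarith
      rcases hmono j hj μ hμ with ⟨h3, h4⟩ | h3
      · rcases h4.eq_or_lt with h5 | h5
        · left
          refine ⟨?_, h5.symm, h3⟩
          rw [h3, ← h5, hA1d]
          ring
        · right
          rw [h3, hA1d]
          nlinarith
      · right
        have h4 : (0 : ℝ) ≤ μ.2 * ω β := by positivity
        have h5 : ((d : ℝ) - j) * (b * ω β) ≤ d * b * ω β := by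
          have h6 : (0 : ℝ) ≤ j := Nat.cast_nonneg j
          have h7 := mul_pos hb0 hβpos
          nlinarith
        rw [hA1d]
        nlinarith
    · intro hj
      have h3 := S.ge0 j μ hμ
      rw [wX_apply] at h3
      refine ⟨h3, ?_⟩
      positivity
  have hf1lv : Lv (wX ω) A1 d f1 := by
    intro j
    rw [hf1, ShP_coeff]
    refine Sh_ge ?_
    intro μ hμ
    rw [wW_apply]
    obtain ⟨h3, h4⟩ := hwt j μ hμ
    by_cases hj : j < d
    · rcases h3 hj with ⟨h5, -, -⟩ | h5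
      · exact h5.ge
      · exact h5.le
    · push Not at hj
      have h5 : (d : ℝ) ≤ j := by exact_mod_cast hj
      have h6 := (h4 hj).2
      nlinarith
  have hroot := h5 hk hres htr S1 hA1pos.le hf1lv
  set y1 := y * (X (.ofAdd (-β)) : K) with hy1
  set z1 := z * (X (.ofAdd (-a1)) : K) with hz1
  set f2 := Zd a1 (d • a1) f1 with hf2
  have hz1le : v z1 ≤ 1 := by
    rw [hz1, map_mul, S.hX, map_neg, ha1]
    calc v z * ex (-A1) ≤ ex A1 * ex (-A1) := mul_le_mul_of_nonneg_right hroot zero_le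
      _ = 1 := by rw [← ex_add, add_neg_cancel, ex_zero]
  have hG0 : ∀ j, f2.coeff j ∈ ge (k := k) (wX ω) 0 := by
    intro j
    refine ge_mono (le_of_eq ?_) (Zd_ge (hf1lv j))
    rw [map_nsmul, ha1, nsmul_eq_mul]
    ring
  -- the monomials of the new equation
  have hsup : ∀ (j : ℕ) (ν : L × ℕ), (f2.coeff j).coeff ν ≠ 0 →
      ∃ μ : L × ℕ, (f.coeff j).coeff μ ≠ 0 ∧ ν.2 = μ.2 ∧
        ω ν.1 = ((j : ℝ) - d) * A1 + (ω μ.1 + μ.2 * ω β) := by
    intro j ν hν
    rw [hf2, Zd_coeff] at hν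
    obtain ⟨p, q, hp, hq, rfl⟩ := coeff_mul_ne hν
    rw [AddMonoidAlgebra.coeff_single, Finsupp.single_apply] at hp
    have hp2 : (j • a1 - d • a1, 0) = p := by
      by_contra h3
      rw [if_neg h3] at hp
      exact hp rfl
    subst hp2
    rw [hf1, ShP_coeff] at hq
    obtain ⟨μ, hμ, rfl⟩ := Sh_ne β hq
    refine ⟨μ, hμ, ?_, ?_⟩
    · simp [shM]
    · simp only [shM, Prod.fst_add, map_add, map_sub, map_nsmul, nsmul_eq_mul, ha1]
      ring
  have hz1lt : v z1 < 1 := by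
    by_contra hcon
    have hz1e : v z1 = 1 := le_antisymm hz1le (not_lt.1 hcon)
    have hze : v z = ex (ω a1) := by
      have e1 : v z1 = v z * ex (-A1) := by rw [hz1, map_mul, S.hX, map_neg, ha1]
      rw [ha1]
      calc v z = v z * (ex (-A1) * ex A1) := by
            rw [← ex_add, neg_add_cancel, ex_zero, mul_one]
        _ = v z1 * ex A1 := by rw [e1, mul_assoc]
        _ = ex A1 := by rw [hz1e, one_mul]
    refine S1.ng (h4 hk hres (d := d) S1.toCS a1 (d • a1) (by rw [ha1]; exact hA1pos.le) hze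
      hG0 ?_ ?_)
    · have h10 : f2.coeff d = f1.coeff d := by
        rw [hf2, Zd_coeff, sub_self]
        exact one_mul _
      rw [← hf2, h10]
      exact S1.top
    · intro j hj
      rw [← hf2]
      by_contra hcf
      obtain ⟨μ, hμ, h10, h11⟩ := hsup j 0 hcf
      have h12 : (μ.2 : ℝ) = 0 := by
        rw [← h10]
        simp
      have h13 : ω (0 : L × ℕ).1 = 0 := by simp
      rw [h13] at h11
      obtain ⟨h14, h15⟩ := hwt j μ hμ
      rcases lt_or_gt_of_ne hj with h16 | h16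
      · rcases h14 h16 with ⟨h17, h18, -⟩ | h17
        · have h19 : (j : ℝ) < d := by exact_mod_cast h16
          have h20 : 0 < ((d : ℝ) - j) * b := mul_pos (by linarith) hb0
          linarith
        · linarith
      · have h17 := (h15 h16.le).2
        have h18 : (d : ℝ) < j := by exact_mod_cast h16
        have h19 : 0 < ((j : ℝ) - d) * A1 := mul_pos (by linarith) hA1pos
        linarith
  have hS2 := h7 hk S1.toPSE a1 (d • a1) (by rw [ha1]; exact hA1pos.le) hG0 0 (by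
    rw [map_zero, sub_zero]
    exact hz1lt)
  rw [AddMonoidAlgebra.single_zero, taylor_zero] at hS2
  -- the smallest index
  have hex : ∃ j : ℕ, j < d ∧ ∃ (i : ℕ) (β' : L), (i : ℝ) = ((d : ℝ) - j) * b ∧
      ω β' = ((d : ℝ) - j) * A ∧ (f.coeff j).coeff (β', i) ≠ 0 := hV.vert S.inj
  set j0 := Nat.find hex with hj0
  obtain ⟨hj0d, i0, β', hi0, hβ', hcf⟩ := Nat.find_spec hex
  rw [← hj0] at hj0d hi0 hβ' hcf
  have hj0R : (j0 : ℝ) < d := by exact_mod_cast hj0d
  have h0 : (f2.coeff j0).coeff (0, i0) ≠ 0 := by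
    have h3 := slice_shift (ω := ω) (j0 • a1 - d • a1) (((d : ℝ) - j0) * A1) (f1.coeff j0)
    have h4 : ω (j0 • a1 - d • a1) + ((d : ℝ) - j0) * A1 = 0 := by
      rw [map_sub, map_nsmul, map_nsmul, ha1, nsmul_eq_mul, nsmul_eq_mul]
      ring
    rw [h4, ← Zd_coeff] at h3
    have h5 := slice_coeff ω S.inj (f2.coeff j0) 0 i0
    rw [map_zero, hf2, h3] at h5
    rw [hf2, ← h5]
    have h6 : ω (β' + i0 • β) = ((d : ℝ) - j0) * A1 := by
      rw [map_add, hβ', map_nsmul, nsmul_eq_mul, hi0, hA1d]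
      ring
    rw [← h6, slice_coeff ω S.inj, hf1, ShP_coeff]
    have h7 := Sh_coeff β (f.coeff j0) (β', i0)
    rw [shM] at h7
    rw [h7]
    exact hcf
  have hsum : ((i0 + j0 : ℕ) : ℝ) = d * b + (1 - b) * j0 := by
    push_cast
    rw [hi0]
    ring
  have hlt : i0 + j0 < d := by
    have h3 : ((i0 + j0 : ℕ) : ℝ) < d := by
      rw [hsum]
      nlinarith
    exact_mod_cast h3
  have hmin : ∀ i j : ℕ, (f2.coeff j).coeff (0, i) ≠ 0 →
      (i = i0 ∧ j = j0) ∨ i0 + j0 < i + j := by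
    intro i j hij
    obtain ⟨μ, hμ, h4, h5⟩ := hsup j (0, i) hij
    change i = μ.2 at h4
    change ω 0 = _ at h5
    rw [map_zero] at h5
    obtain ⟨h6, h7⟩ := hwt j μ hμ
    rcases lt_trichotomy j d with h8 | h8 | h8
    · rcases h6 h8 with ⟨h9, h10, h11⟩ | h9
      · have hPj : j < d ∧ ∃ (i : ℕ) (β' : L), (i : ℝ) = ((d : ℝ) - j) * b ∧
            ω β' = ((d : ℝ) - j) * A ∧ (f.coeff j).coeff (β', i) ≠ 0 :=
          ⟨h8, μ.2, μ.1, h10, h11, hμ⟩
        have h12 : j0 ≤ j := Nat.find_min' hex hPj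
        rcases h12.eq_or_lt with h13 | h13
        · left
          refine ⟨?_, h13.symm⟩
          rw [h4]
          have h14 : (μ.2 : ℝ) = i0 := by rw [h10, hi0, h13]
          exact_mod_cast h14
        · right
          have h14 : (j0 : ℝ) < j := by exact_mod_cast h13
          have h15 : ((i0 + j0 : ℕ) : ℝ) < ((i + j : ℕ) : ℝ) := by
            rw [hsum]
            push_cast
            rw [h4, h10]
            nlinarith
          exact_mod_cast h15
      · exfalso
        linarith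
    · right
      omega
    · exfalso
      have h9 := (h7 h8.le).2
      have h11 : (d : ℝ) < j := by exact_mod_cast h8
      have h12 : 0 < ((j : ℝ) - d) * A1 := mul_pos (by linarith) hA1pos
      linarith
  obtain ⟨y', f', h3⟩ := h9 hk hS2 h0 hmin
  exact ⟨y', _, f', i0 + j0, hlt, h3⟩

end Pool.Agent.H893.TW
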