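import Pool.Agent.H893.TW.Stm
import Pool.Agent.H893.P5

/-!
# The order drops (ramified case, slope zero)
-/

set_option autoImplicit false
set_option linter.unusedVariables false
set_option linter.unusedSectionVars false

universe u w

namespace Pool.Agent.H893.TW.PdropB

open Polynomial Pool.Agent.H893 Pool.Agent.H893.TW
open scoped NNReal

section ystep

variable {k K : Type u} {L : Type w} [Field k] [Field K] [Algebra k K] [AddCommGroup L]
  [Module.Free ℤ L] [Module.Finite ℤ L] {v : Valuation K ℝ≥0}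

variable {d : ℕ} {ω : L →+ ℝ} {X : Multiplicative L →* Kˣ}
    {y z : K} {f : (AddMonoidAlgebra k (L × ℕ))[X]}

/-- The ramified step without translation of the last variable. -/
theorem ystepE (h2 : S_dm.{u, w}) (h4 : S_ram.{u, w})
    (hk : ∀ c : k, c ≠ 0 → v (algebraMap k K c) = 1)
    (hres : ∀ x : K, v x ≤ 1 → ∃ c : k, v (x - algebraMap k K c) < 1)
    (S : PSE k v ω X y z f)
    {η : ℝ} (hη : 0 < η) (hyη : v y = ex η) (hηω : ∀ a, ω a ≠ η) :
    ∃ (ω' : L →+ ℝ) (e : (L × ℤ) ≃+ (L × ℤ)) (m : ℕ) (X' : Multiplicative L →* Kˣ)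
      (y' : K) (ψ : AddMonoidAlgebra k (L × ℕ)) (c : k),
      YS ω η ω' e m ∧ (∀ j, f.coeff j ∈ inP k (Ne' e)) ∧ c ≠ 0 ∧ ψ ∈ ge (k := k) (wX ω') 0 ∧
      slice ω' 0 ψ = C c ∧ PSE k v ω' X' y' z (mapTau ψ (TmP e f)) := by
  classical
  have hpos : ∀ j μ, (f.coeff j).coeff μ ≠ 0 → μ = 0 ∨ 0 < wW ω η μ := by
    intro j μ hμ
    by_cases h3 : μ = 0
    · exact Or.inl h3
    · right
      have h4 : AddMonoidAlgebra.single μ (1 : k) ∈ gt (k := k) (wW ω η) 0 := by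
        apply gt_of_coeff_zero S.inj hη
        · exact single_mem_ge fun _ => S.ge0 j μ hμ
        · rw [AddMonoidAlgebra.coeff_single, Finsupp.single_apply, if_neg h3]
      exact h4 μ (by
        rw [AddMonoidAlgebra.coeff_single, Finsupp.single_eq_same]
        exact one_ne_zero)
  let F : Finset (L × ℕ) := (Finset.range (f.natDegree + 1)).biUnion
    fun j => (f.coeff j).coeff.support
  have hF : ∀ j μ, (f.coeff j).coeff μ ≠ 0 → μ ∈ F := by
    intro j μ hμ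
    refine Finset.mem_biUnion.2 ⟨j, ?_, Finsupp.mem_support_iff.2 hμ⟩
    rw [Finset.mem_range]
    by_contra h
    apply hμ
    rw [coeff_eq_zero_of_natDegree_lt (by omega)]
    rfl
  have hy0 : y ≠ 0 := by
    intro h
    rw [h, map_zero] at hyη
    exact ex_ne _ hyη.symm
  obtain ⟨m0, hm0, a0, ha0⟩ := S.rr y hy0
  obtain ⟨ω', e, m, ys, hFe⟩ := exists_YS S.inj hηω ⟨m0, hm0, a0, by
    rw [hyη, ← ex_nmul, ex_inj] at ha0
    exact ha0.symm⟩ F (by
      intro μ hμ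
      obtain ⟨j, -, hj⟩ := Finset.mem_biUnion.1 hμ
      exact hpos j μ (Finsupp.mem_support_iff.1 hj))
  have hne : ∀ j, f.coeff j ∈ inP k (Ne' e) := fun j μ hμ => hFe μ (hF j μ hμ)
  obtain ⟨yU, hyU⟩ : ∃ yU : Kˣ, (yU : K) = y := ⟨Units.mk0 y hy0, rfl⟩
  have huv : v (nu e X yU : K) = 1 := by
    have h1 := ys.v_Mon (X := X) (y := yU) S.hX (by rw [hyU, hyη]) (e.symm (0, 1))
    rw [AddEquiv.apply_symm_apply, map_zero, ex_zero] at h1
    rw [← h1]
    rfl
  obtain ⟨c, hc1⟩ := hres (nu e X yU : K) huv.le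
  obtain ⟨hc, -, hCS, hDm, -, -⟩ := h4 hk S.toCS hη hyη ys yU hyU c hc1
  have hψ0 : (AddMonoidAlgebra.single 0 c : AddMonoidAlgebra k (L × ℕ)) ∈
      ge (k := k) (wX ω') 0 := single_mem_ge fun _ => by rw [map_zero]
  have hψc : slice ω' 0 (AddMonoidAlgebra.single (0 : L × ℕ) c) = C c := by
    rw [slice_single, if_pos (by simp)]
    rfl
  have hf0W : ∀ j, f.coeff j ∈ ge (k := k) (wW ω η) 0 := by
    intro j μ hμ
    rcases hpos j μ hμ with h1 | h1
    · rw [h1, map_zero]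
    · exact h1.le
  have hevc : ∀ t : K, ev k (nX e X yU) t (AddMonoidAlgebra.single 0 c) =
      algebraMap k K c := by
    intro t
    rw [ev_single]
    simp
  have hEV : EV k (nX e X yU) ((nu e X yU : K) - algebraMap k K c) z
      (mapTau (AddMonoidAlgebra.single 0 c) (TmP e f)) = EV k X y z f := by
    have h1 : EV k (nX e X yU) ((nu e X yU : K) - algebraMap k K c) z
        (mapTau (AddMonoidAlgebra.single 0 c) (TmP e f)) =
        EV k (nX e X yU) (nu e X yU : K) z (TmP e f) := by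
      rw [mapTau, EV, eval₂_map, EV]
      congr 1
      apply RingHom.ext
      intro t
      change ev k (nX e X yU) ((nu e X yU : K) - algebraMap k K c)
        (tau (AddMonoidAlgebra.single 0 c) t) = ev k (nX e X yU) (nu e X yU : K) t
      rw [ev_tau, hevc, sub_add_cancel]
    rw [h1, EV_TmP X yU _ hne, hyU]
  refine ⟨ω', e, m, nX e X yU, (nu e X yU : K) - algebraMap k K c,
    AddMonoidAlgebra.single 0 c, c, ys, hne, hc, hψ0, hψc, ⟨hCS, ?_, ?_⟩⟩
  · intro j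
    rw [mapTau_coeff, TmP_coeff]
    exact tau_ge hψ0 (ys.Tm_ge (hf0W j))
  · rw [hEV]
    exact (((h2 hk S.toCS).2 hCS hDm).2.1) _ _ ⟨1, by rw [map_one, Units.val_one, one_mul]⟩ S.ng

/-- The order drops if the value of the root is greater than the level. -/
theorem dropBE (h2 : S_dm.{u, w}) (h4 : S_ram.{u, w}) (h5 : S_div.{u, w})
    (hk : ∀ c : k, c ≠ 0 → v (algebraMap k K c) = 1)
    (hres : ∀ x : K, v x ≤ 1 → ∃ c : k, v (x - algebraMap k K c) < 1)
    (hden : ∀ ω : L →+ ℝ, Function.Injective ω → ∀ x y : ℝ, x < y → ∃ a, x < ω a ∧ ω a < y)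
    (S : SysE k v d ω X y z f) {η : ℝ} (hη : 0 < η) (hyη : v y = ex η)
    (hηω : ∀ a, ω a ≠ η) {A : ℝ} (hV : Vtx ω A 0 d f) (hz : v z < ex A) :
    ∃ (ω' : L →+ ℝ) (X' : Multiplicative L →* Kˣ) (y' z' : K)
      (f' : (AddMonoidAlgebra k (L × ℕ))[X]) (d1 : ℕ), d1 < d ∧
      SysE k v d1 ω' X' y' z' f' := by
  classical
  obtain ⟨ω', e, m, X', y', ψ, c, ys, hne, hc, hψ0, hψc, hPS⟩ :=
    ystepE h2 h4 hk hres S.toPSE hη hyη hηω
  set g := mapTau ψ (TmP e f) with hg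
  have hTge : ∀ j : ℕ, Tm e (f.coeff j) ∈ ge (k := k) (wX ω') (((d : ℝ) - j) * A) := by
    intro j
    apply ys.Tm_ge
    intro μ hμ
    have h1 := hV.lv j μ hμ
    rw [wX_apply] at h1
    rw [wW_apply]
    have h5 : (0 : ℝ) ≤ μ.2 * η := by positivity
    linarith
  have hglv : ∀ j : ℕ, g.coeff j ∈ ge (k := k) (wX ω') (((d : ℝ) - j) * A) := by
    intro j
    rw [hg, mapTau_coeff, TmP_coeff]
    exact tau_ge hψ0 (hTge j)
  have hgs : ∀ j : ℕ, slice ω' (((d : ℝ) - j) * A) (g.coeff j) =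
      taylor c (slice ω' (((d : ℝ) - j) * A) (Tm e (f.coeff j))) := by
    intro j
    rw [hg, mapTau_coeff, TmP_coeff, slice_tau hψ0 hψc (hTge j)]
  -- the smallest index
  obtain ⟨j1, hj1, i, hi, h1⟩ := hV.uns 0 fun _ => rfl
  have hi0 : i = 0 := by
    have h2 : (i : ℝ) ≤ 0 := by rwa [mul_zero] at hi
    exact_mod_cast le_antisymm h2 (Nat.cast_nonneg i)
  subst hi0
  rw [taylor_zero, LF_coeff] at h1
  obtain ⟨β1, hβ1, h2⟩ := slice_ne ω S.inj h1
  have hex : ∃ j : ℕ, slice ω' (((d : ℝ) - j) * A) (g.coeff j) ≠ 0 := by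
    refine ⟨j1, ?_⟩
    rw [hgs, slice_Tm_eq S.inj hη ys (hne j1) (hV.lv j1) hβ1 h2]
    intro h3
    apply h2
    have h4 := (taylor_eq_zero c (monomial (tm e (β1, 0)).2
      ((f.coeff j1).coeff (β1, 0)))).1 h3
    exact (monomial_eq_zero_iff _ _).1 h4
  set j0 := Nat.find hex with hj0
  have hj0s : slice ω' (((d : ℝ) - j0) * A) (g.coeff j0) ≠ 0 := Nat.find_spec hex
  have hlow : ∀ j : ℕ, j < j0 → slice ω' (((d : ℝ) - j) * A) (g.coeff j) = 0 := fun n hn => by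
    by_contra h2
    exact Nat.find_min hex hn h2
  have hj0d : j0 < d := by
    refine lt_of_le_of_lt (Nat.find_min' hex ?_) hj1
    rw [hgs, slice_Tm_eq S.inj hη ys (hne j1) (hV.lv j1) hβ1 h2]
    intro h3
    apply h2
    have h4 := (taylor_eq_zero c (monomial (tm e (β1, 0)).2
      ((f.coeff j1).coeff (β1, 0)))).1 h3
    exact (monomial_eq_zero_iff _ _).1 h4
  -- the constant coefficient
  obtain ⟨β0, hβ0, hcst⟩ : ∃ β0, ω' β0 = ((d : ℝ) - j0) * A ∧
      (slice ω' (((d : ℝ) - j0) * A) (g.coeff j0)).coeff 0 ≠ 0 := by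
    have h3 : slice ω' (((d : ℝ) - j0) * A) (Tm e (f.coeff j0)) ≠ 0 := by
      intro h4
      apply hj0s
      rw [hgs, h4, map_zero]
    obtain ⟨t, ht⟩ : ∃ t, (slice ω' (((d : ℝ) - j0) * A) (Tm e (f.coeff j0))).coeff t ≠ 0 := by
      by_contra hcon
      push Not at hcon
      apply h3
      ext t
      rw [hcon t, coeff_zero]
    obtain ⟨β', hβ', -⟩ := slice_ne ω' ys.inj ht
    obtain ⟨β, h4, h5, h6⟩ := slice_Tm_ne hη ys (hV.lv j0) ht
    refine ⟨β', hβ', ?_⟩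
    rw [hgs, slice_Tm_eq S.inj hη ys (hne j0) (hV.lv j0) h4 h5, taylor_coeff_zero,
      eval_monomial]
    exact mul_ne_zero h5 (pow_ne_zero _ hc)
  obtain ⟨ε, hε, hgε⟩ := exists_ge_of_gt' (k := k) (w := wX ω')
    (B := fun j : ℕ => ((d : ℝ) - j) * A) (g := fun j => g.coeff j) j0
    (fun j hj => gt_of_slice ω' ys.inj (hglv j) (hlow j hj))
  obtain ⟨ζ, hζA, hzζ⟩ : ∃ ζ : ℝ, A < ζ ∧ v z ≤ ex ζ := by
    by_cases h3 : v z = 0
    · exact ⟨A + 1, by linarith, by rw [h3]; exact zero_le⟩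
    · obtain ⟨ζ, hζ⟩ := exists_ex h3
      refine ⟨ζ, ?_, hζ.le⟩
      rw [hζ] at hz
      exact ex_lt.1 hz
  have hd1 : (0 : ℝ) < (d : ℝ) + 1 := by positivity
  obtain ⟨a0, ha1, ha2⟩ := hden ω' ys.inj A (min ζ (A + ε / (d + 1)))
    (lt_min hζA (by have := div_pos hε hd1; linarith))
  have ha3 : ω' a0 < ζ := lt_of_lt_of_le ha2 (min_le_left _ _)
  have ha4 : ω' a0 < A + ε / (d + 1) := lt_of_lt_of_le ha2 (min_le_right _ _)
  set δ := ω' a0 - A with hδ
  have hδ0 : 0 < δ := by linarith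
  have hδε : ((d : ℝ) + 1) * δ < ε := by
    have h3 : δ < ε / (d + 1) := by linarith
    rw [lt_div_iff₀ hd1] at h3
    linarith
  set e0 : L := β0 + j0 • a0 with he0
  have he0v : ω' e0 = ((d : ℝ) - j0) * A + j0 * ω' a0 := by
    rw [he0, map_add, hβ0, map_nsmul, nsmul_eq_mul]
  have hωa : ω' a0 = A + δ := by rw [hδ]; ring
  have hj0R : (j0 : ℝ) < d := by exact_mod_cast hj0d
  have hpos : ∀ j : ℕ, j ≠ j0 → (Zd a0 e0 g).coeff j ∈ gt (k := k) (wX ω') 0 := by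
    intro j hj
    rcases lt_or_gt_of_ne hj with h3 | h3
    · refine gt_of_ge ?_ (Zd_ge (hgε j h3))
      rw [he0v, hωa]
      have h4 : (j : ℝ) < j0 := by exact_mod_cast h3
      have h5 : (0 : ℝ) ≤ j := Nat.cast_nonneg j
      nlinarith
    · refine gt_of_ge ?_ (Zd_ge (hglv j))
      rw [he0v, hωa]
      have h4 : (j0 : ℝ) < j := by exact_mod_cast h3
      nlinarith
  have hj0ge : (Zd a0 e0 g).coeff j0 ∈ ge (k := k) (wX ω') 0 := by
    refine ge_mono (le_of_eq ?_) (Zd_ge (hglv j0))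
    rw [he0v]
    ring
  have hge : ∀ j : ℕ, (Zd a0 e0 g).coeff j ∈ ge (k := k) (wX ω') 0 := by
    intro j
    by_cases hj : j = j0
    · rw [hj]; exact hj0ge
    · exact gt_ge (hpos j hj)
  have hdiv := h5 hk hPS a0 e0 (by linarith [hV.A0]) hge 0 (by
    rw [map_zero, sub_zero, map_mul, hPS.hX, map_neg]
    have h3 : v z < ex (ω' a0) := lt_of_le_of_lt hzζ (ex_lt.2 ha3)
    calc v z * ex (-(ω' a0)) < ex (ω' a0) * ex (-(ω' a0)) :=
          mul_lt_mul_of_pos_right h3 (ex_pos _)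
      _ = 1 := by rw [← ex_add, add_neg_cancel, ex_zero])
  rw [AddMonoidAlgebra.single_zero, taylor_zero] at hdiv
  refine ⟨ω', X', y', _, _, j0, hj0d, ⟨hdiv, ?_, ?_⟩⟩
  · have h3 := slice_shift (ω := ω') (j0 • a0 - e0) (((d : ℝ) - j0) * A) (g.coeff j0)
    have h4 : ω' (j0 • a0 - e0) + ((d : ℝ) - j0) * A = 0 := by
      rw [map_sub, he0v, map_nsmul, nsmul_eq_mul]
      ring
    rw [h4, ← Zd_coeff] at h3
    have h5 := slice_coeff ω' ys.inj ((Zd a0 e0 g).coeff j0) 0 0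
    rw [map_zero, h3, ← Prod.zero_eq_mk] at h5
    rw [← h5]
    exact hcst
  · intro j hj
    by_contra h3
    have h4 := hpos j hj.ne 0 h3
    rw [map_zero] at h4
    exact lt_irrefl _ h4

end ystep

end Pool.Agent.H893.TW.PdropB

namespace Pool.Agent.H893.TW

open Polynomial Pool.Agent.H893
open scoped NNReal

theorem t_dropB (h1 : S_mo.{u, w}) (h2 : S_dm.{u, w}) (h3 : S_same.{u, w}) (h4 : S_ram.{u, w})
    (h5 : S_div.{u, w}) (h6 : S_lb.{u, w}) : S_dropB.{u, w} := by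
  intro k K L _ _ _ _ _ _ v hk hres _ hden d ω X y z f S η hη hyη hηω A hV hz
  exact PdropB.dropBE h2 h4 h5 hk hres hden S hη hyη hηω hV hz

end Pool.Agent.H893.TW
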