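import Pool.Agent.H893.TW.Stm

/-!
# Exchange of the two variables (task TW dropC)
-/

set_option autoImplicit false
set_option linter.unusedVariables false
set_option linter.unusedSectionVars false

universe u w

namespace Pool.Agent.H893.TW

open Polynomial Pool.Agent.H893 Pool.Agent.W418.LU2
open scoped NNReal

/-- **dropC.**  The exchange of the two variables. -/
theorem t_dropC (h1 : S_lin.{u, w}) (h2 : S_div.{u, w}) : S_dropC.{u, w} := by
  intro k K L _ _ _ _ _ _ v hk hres htr d ω X y z f hden S A b hA hV hz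
  obtain ⟨η, hη, hyη⟩ := exists_pos_ex S.hy
  obtain ⟨a0, ha1, ha2⟩ := hden (max 0 (A - η)) A (max_lt hV.A0 (by linarith))
  have ha3 : 0 < ω a0 := lt_of_le_of_lt (le_max_left _ _) ha1
  have ha4 : A - η < ω a0 := lt_of_le_of_lt (le_max_right _ _) ha1
  obtain ⟨A1, hA1⟩ : ∃ A1, A1 = A - ω a0 := ⟨_, rfl⟩
  have hA10 : 0 < A1 := by linarith
  have hA1η : A1 < η := by linarith
  have hA1ω : ∀ a, ω a ≠ A1 := by
    intro a h
    apply hA (a + a0)
    rw [map_add, h, hA1]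
    ring
  -- the division
  have hG0 : ∀ j, (Zd a0 (d • a0) f).coeff j ∈ ge (k := k) (wX ω) 0 := by
    intro j
    by_cases hj : j ≤ d
    · refine ge_mono ?_ (Zd_ge (hV.lv j))
      rw [map_nsmul, nsmul_eq_mul]
      have h1 : (0 : ℝ) ≤ (d : ℝ) - j := by
        have : (j : ℝ) ≤ d := by exact_mod_cast hj
        linarith
      nlinarith
    · push Not at hj
      refine ge_mono ?_ (Zd_ge (S.ge0 j))
      rw [map_nsmul, nsmul_eq_mul]
      have h1 : (0 : ℝ) ≤ (j : ℝ) - d := by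
        have : (d : ℝ) ≤ j := by exact_mod_cast hj.le
        linarith
      nlinarith
  have hGlv : Lv (wX ω) A1 d (Zd a0 (d • a0) f) := by
    intro j
    refine ge_mono (le_of_eq ?_) (Zd_ge (hV.lv j))
    rw [map_nsmul, nsmul_eq_mul, hA1]
    ring
  have hLF : LF ω A1 d (Zd a0 (d • a0) f) = LF ω A d f := by
    ext1 j
    rw [LF_coeff, LF_coeff, Zd_coeff]
    have h1 := slice_shift (ω := ω) (j • a0 - d • a0) (((d : ℝ) - j) * A) (f.coeff j)
    have h2 : ω (j • a0 - d • a0) + ((d : ℝ) - j) * A = ((d : ℝ) - j) * A1 := by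
      rw [map_sub, map_nsmul, map_nsmul, nsmul_eq_mul, nsmul_eq_mul, hA1]
      ring
    rw [h2] at h1
    exact h1
  have hz1 : v (z * (X (.ofAdd (-a0)) : K)) = ex A1 := by
    rw [map_mul, S.hX, map_neg, hz, ← ex_add, hA1]
    rfl
  have hdiv := h2 hk S.toPSE a0 (d • a0) ha3.le hG0 0 (by
    rw [map_zero, sub_zero, hz1]
    exact ex_lt_one.2 hA10)
  rw [AddMonoidAlgebra.single_zero, taylor_zero, map_zero, sub_zero] at hdiv
  have hlin := h1 hk hdiv (-1)
  have hy1v : v (y - algebraMap k K (-1) * (z * (X (.ofAdd (-a0)) : K))) = ex A1 := by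
    rw [map_neg, map_one, neg_mul, one_mul, sub_neg_eq_add,
      v.map_add_eq_of_lt_right (by rw [hz1]; exact lt_of_le_of_lt hyη (ex_lt.2 hA1η)), hz1]
  have hlv1 : Lv (wX ω) A1 d (Lc (-1) (Zd a0 (d • a0) f)) := Lc_lv _ hA10.le hGlv
  have hLF1 : LF ω A1 d (Lc (-1) (Zd a0 (d • a0) f)) = LF ω A d f := by
    rw [LF_Lc _ hA10 hGlv, hLF]
  have hd1 : ((Lc (-1) (Zd a0 (d • a0) f)).coeff d).coeff 0 ≠ 0 := by
    have h1 := LF_coeff ω A1 d (Lc (-1) (Zd a0 (d • a0) f)) d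
    rw [hLF1, LF_coeff, sub_self, zero_mul, zero_mul] at h1
    have h2 := slice_coeff ω S.inj ((Lc (-1) (Zd a0 (d • a0) f)).coeff d) 0 0
    have h3 := slice_coeff ω S.inj (f.coeff d) 0 0
    rw [map_zero, ← Prod.zero_eq_mk] at h2 h3
    rw [← h2, ← h1, h3]
    exact S.top
  have hlow1 : ∀ j < d, ((Lc (-1) (Zd a0 (d • a0) f)).coeff j).coeff 0 = 0 := by
    intro j hj
    by_contra h1
    have h2 := hlv1 j 0 h1
    rw [map_zero] at h2
    have h3 : (0 : ℝ) < (d : ℝ) - j := by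
      have : (j : ℝ) < d := by exact_mod_cast hj
      linarith
    have h4 : 0 < ((d : ℝ) - j) * A1 := mul_pos h3 hA10
    linarith
  have hV1 : Vtx ω A1 b d (Lc (-1) (Zd a0 (d • a0) f)) := by
    refine ⟨hA10, hV.b0, hlv1, ?_, ?_⟩
    · rw [hLF1]
      exact hV.sl
    · intro ρ hρ
      rw [hLF1]
      exact hV.uns ρ fun _ => hρ hA1ω
  exact ⟨_, _, _, A1, hA10, hA1ω, hy1v, ⟨hlin, hd1, hlow1⟩, hV1⟩

end Pool.Agent.H893.TW
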