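import Pool.Agent.H893.TW.Stm

/-!
# TW: elementary changes of coordinates
-/

set_option autoImplicit false
set_option linter.unusedVariables false
set_option linter.unusedSectionVars false

universe u w

namespace Pool.Agent.H893.TW

open Polynomial Pool.Agent.H893
open scoped NNReal

namespace Pel

section aux

variable {k K : Type u} {L : Type w} [Field k] [Field K] [Algebra k K] [AddCommGroup L]
  {v : Valuation K ℝ≥0} {ω : L →+ ℝ} {X : Multiplicative L →* Kˣ} {y z y' z' : K}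

lemma y_mem : y ∈ CO k X y z := Subring.subset_closure (Or.inr (Or.inl rfl))

lemma z_mem : z ∈ CO k X y z := Subring.subset_closure (Or.inr (Or.inr rfl))

lemma c_mem (c : k) : algebraMap k K c ∈ CO k X y z :=
  Subring.subset_closure (Or.inl (Or.inl ⟨c, rfl⟩))

lemma X_mem (β : Multiplicative L) : (X β : K) ∈ CO k X y z :=
  Subring.subset_closure (Or.inl (Or.inr ⟨β, rfl⟩))

lemma XX (X : Multiplicative L →* Kˣ) (a : L) :
    (X (.ofAdd (-a)) : K) * (X (.ofAdd a) : K) = 1 := by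
  rw [← Units.val_mul, ← map_mul, ← ofAdd_add, neg_add_cancel, ofAdd_zero, map_one,
    Units.val_one]

/-- The equation does not become a monomial after a change of the last two coordinates. -/
lemma ngo (h2 : S_dm.{u, w}) (h3 : S_same.{u, w})
    (hk : ∀ c : k, c ≠ 0 → v (algebraMap k K c) = 1) (C1 : CS k v ω X y z)
    (C2 : CS k v ω X y' z') (hy : y ∈ PI k v ω X y' z') (hz : z ∈ PI k v ω X y' z')
    (hy' : y' ∈ CO k X y z) (hz' : z' ∈ CO k X y z) {t t' : K} (β : Multiplicative L)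
    (ht : t' = (X β : K) * t) (hng : ¬ Goal k v ω X y z t) : ¬ Goal k v ω X y' z' t' := by
  have hD : Dm k v ω X y z ω X y' z' := h3 hk C1 C2 hy hz hy' hz'
  exact ((h2 hk C1).2 C2 hD).2.1 t t' ⟨β, ht⟩ hng

end aux

theorem lin (h1 : S_mo.{u, w}) (h2 : S_dm.{u, w}) (h3 : S_same.{u, w}) : S_lin.{u, w} := by
  intro k K L _ _ _ _ _ _ v hk ω X y z f S lam
  have C1 := S.toCS
  have C2 : CS k v ω X (y - algebraMap k K lam * z) z := by
    refine ⟨C1.inj, C1.hX, ?_, C1.hz, ?_, C1.rr⟩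
    · refine lt_of_le_of_lt (v.map_sub _ _) (max_lt C1.hy ?_)
      rw [map_mul]
      exact lt_of_le_of_lt (mul_le_of_le_one_left zero_le (vk_le hk lam)) C1.hz
    · intro F hF1 hF2 hF3
      refine C1.gen F hF1 ?_ hF3
      have h1 := add_mem hF2 (mul_mem (F.algebraMap_mem lam) hF3)
      rwa [sub_add_cancel] at h1
  obtain ⟨-, -, -, -, -, m1, m2, m3, -⟩ := h1 hk C2
  refine ⟨C2, Lc_ge lam S.ge0, ?_⟩
  refine ngo h2 h3 hk C1 C2 ?_ m2 ?_ z_mem 1 ?_ S.ng
  · have h4 := add_mem m1 (mul_mem (m3 lam) m2)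
    rwa [sub_add_cancel] at h4
  · exact sub_mem y_mem (mul_mem (c_mem lam) z_mem)
  · rw [EV_Lc, map_one, Units.val_one, one_mul]

theorem div (h1 : S_mo.{u, w}) (h2 : S_dm.{u, w}) (h3 : S_same.{u, w}) : S_div.{u, w} := by
  intro k K L _ _ _ _ _ _ v hk ω X y z f S a e0 ha h0 c1 hz
  have C1 := S.toCS
  have hev : ev k X y (AddMonoidAlgebra.single 0 c1) = algebraMap k K c1 := by
    rw [ev_single]
    simp
  have hEV : EV k X y (z * (X (.ofAdd (-a)) : K) - algebraMap k K c1)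
      (taylor (AddMonoidAlgebra.single 0 c1) (Zd a e0 f)) =
      (X (.ofAdd (-e0)) : K) * EV k X y z f := by
    rw [← hev, EV_taylor, EV_Zd]
  have C2 : CS k v ω X y (z * (X (.ofAdd (-a)) : K) - algebraMap k K c1) := by
    refine ⟨C1.inj, C1.hX, C1.hy, hz, ?_, C1.rr⟩
    intro F hF1 hF2 hF3
    refine C1.gen F hF1 hF2 ?_
    have h2 := add_mem hF3 (F.algebraMap_mem c1)
    rw [sub_add_cancel] at h2
    have h3 := mul_mem h2 (hF1 (.ofAdd a))
    rwa [mul_assoc, XX, mul_one] at h3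
  obtain ⟨-, -, -, -, m0, m1, m2, m3, -⟩ := h1 hk C2
  refine ⟨C2, ?_, ?_⟩
  · intro j
    refine ge_zero_taylor h0 (single_mem_ge fun _ => ?_) j
    rw [map_zero]
  · refine ngo h2 h3 hk C1 C2 m1 ?_ y_mem ?_ (.ofAdd (-e0)) hEV S.ng
    · have h4 := mul_mem (add_mem m2 (m3 c1)) (m0 a ha)
      rwa [sub_add_cancel, mul_assoc, XX, mul_one] at h4
    · exact sub_mem (mul_mem z_mem (X_mem _)) (c_mem c1)

theorem shift (h1 : S_mo.{u, w}) (h2 : S_dm.{u, w}) (h3 : S_same.{u, w}) : S_shift.{u, w} := by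
  intro k K L _ _ _ _ _ _ v hk ω X y z f S β hβ hy
  have C1 := S.toCS
  have hEV : EV k X (y * (X (.ofAdd (-β)) : K)) z (ShP β f) = EV k X y z f := by
    rw [EV_ShP]
    congr 1
    rw [mul_comm, mul_assoc, XX, mul_one]
  have hc0 : ∀ j, ((ShP β f).coeff j).coeff 0 = (f.coeff j).coeff 0 := by
    intro j
    rw [ShP_coeff, Sh_coeff']
    congr 1
    apply Prod.ext
    · simp
    · rfl
  have C2 : CS k v ω X (y * (X (.ofAdd (-β)) : K)) z := by
    refine ⟨C1.inj, C1.hX, ?_, C1.hz, ?_, C1.rr⟩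
    · rw [map_mul, C1.hX, map_neg, ex_neg]
      have h1 : 0 < ex (ω β) := ex_pos _
      calc v y * (ex (ω β))⁻¹ < ex (ω β) * (ex (ω β))⁻¹ :=
            mul_lt_mul_of_pos_right hy (inv_pos.2 h1)
        _ = 1 := mul_inv_cancel₀ h1.ne'
    · intro F hF1 hF2 hF3
      refine C1.gen F hF1 ?_ hF3
      have h1 := mul_mem hF2 (hF1 (.ofAdd β))
      rwa [mul_assoc, XX, mul_one] at h1
  obtain ⟨-, -, -, -, m0, m1, m2, m3, -⟩ := h1 hk C2
  refine ⟨⟨C2, ?_, ?_⟩, hc0⟩
  · intro j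
    rw [ShP_coeff]
    refine Sh_ge fun μ hμ => ?_
    have h1 := S.ge0 j μ hμ
    rw [wX_apply] at h1
    rw [wW_apply]
    have h2 : (0 : ℝ) ≤ μ.2 * ω β := mul_nonneg (Nat.cast_nonneg _) hβ.le
    linarith
  · refine ngo h2 h3 hk C1 C2 ?_ m2 ?_ z_mem 1 ?_ S.ng
    · have h4 := mul_mem m1 (m0 β hβ.le)
      rwa [mul_assoc, XX, mul_one] at h4
    · exact mul_mem y_mem (X_mem _)
    · rw [hEV, map_one, Units.val_one, one_mul]

theorem lin1 (h : S_lin.{u, w}) : S_lin1.{u, w} := by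
  intro k K L _ _ _ _ _ _ v hk ω X y z f S i0 j0 h0 hmin
  refine ⟨_, Lc 1 f, ⟨h hk S 1, ?_, ?_⟩⟩
  · rw [Lc_coeff, Hp_eval_one, Finset.sum_eq_single_of_mem j0 (Finset.mem_range.2 (by omega))]
    · rw [Nat.add_sub_cancel]
      exact h0
    · intro j hj hne
      rw [Finset.mem_range] at hj
      by_contra h1
      rcases hmin _ _ h1 with h2 | h2
      · exact hne h2.2
      · omega
  · intro n hn
    rw [Lc_coeff, Hp_eval_one]
    refine Finset.sum_eq_zero fun j hj => ?_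
    rw [Finset.mem_range] at hj
    by_contra h1
    rcases hmin _ _ h1 with h2 | h2
    · omega
    · omega

end Pel

theorem t_el (h1 : S_mo.{u, w}) (h2 : S_dm.{u, w}) (h3 : S_same.{u, w}) :
    S_lin.{u, w} ∧ S_div.{u, w} ∧ S_shift.{u, w} ∧ S_lin1.{u, w} :=
  ⟨Pel.lin h1 h2 h3, Pel.div h1 h2 h3, Pel.shift h1 h2 h3, Pel.lin1 (Pel.lin h1 h2 h3)⟩

end Pool.Agent.H893.TW
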