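import Pool.Agent.H893.TW.Stm

/-! Finitely many elements (helper441). -/

set_option autoImplicit false
set_option linter.unusedVariables false
set_option linter.unusedSectionVars false

universe u w

namespace Pool.Agent.H893.TW

open Polynomial Pool.Agent.H893 Pool.Agent.W418.LU2
open scoped NNReal

namespace Piter

variable {k K : Type u} {L : Type w} [Field k] [Field K] [Algebra k K] [AddCommGroup L]

lemma X_CO (X : Multiplicative L →* Kˣ) (y z : K) (l : Multiplicative L) :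
    (X l : K) ∈ CO k X y z :=
  Subring.subset_closure (Or.inl (Or.inr ⟨l, rfl⟩))

lemma alg_CO (X : Multiplicative L →* Kˣ) (y z : K) (c : k) : algebraMap k K c ∈ CO k X y z :=
  Subring.subset_closure (Or.inl (Or.inl ⟨c, rfl⟩))

lemma y_CO (X : Multiplicative L →* Kˣ) (y z : K) : y ∈ CO k X y z :=
  Subring.subset_closure (Or.inr (Or.inl rfl))

lemma z_CO (X : Multiplicative L →* Kˣ) (y z : K) : z ∈ CO k X y z :=
  Subring.subset_closure (Or.inr (Or.inr rfl))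

lemma X_CP {ω : L →+ ℝ} (X : Multiplicative L →* Kˣ) (y z : K) {a : L} (ha : 0 ≤ ω a) :
    (X (.ofAdd a) : K) ∈ CP k ω X y z :=
  Subring.subset_closure (Or.inl (Or.inr ⟨a, ha, rfl⟩))

lemma CP_CO {ω : L →+ ℝ} (X : Multiplicative L →* Kˣ) (y z : K) :
    CP k ω X y z ≤ CO k X y z := by
  refine Subring.closure_le.2 ?_
  rintro t ((⟨c, rfl⟩ | ⟨a, -, rfl⟩) | (rfl | rfl))
  · exact alg_CO X y z c
  · exact X_CO X y z _
  · exact y_CO X t z
  · exact z_CO X y t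

/-- every element is a fraction -/
lemma frac {v : Valuation K ℝ≥0} {ω : L →+ ℝ} {X : Multiplicative L →* Kˣ} {y z : K}
    (h : CS k v ω X y z) (t : K) :
    ∃ a ∈ CO k X y z, ∃ b ∈ CO k X y z, b ≠ 0 ∧ t = a * b⁻¹ := by
  have key : ∀ x ∈ lo (⊤ : Subring K) (CO k X y z), x⁻¹ ∈ lo (⊤ : Subring K) (CO k X y z) := by
    rintro x ⟨a, ha, b, hb, hb0, -, rfl⟩
    by_cases ha0 : a = 0
    · rw [ha0, zero_mul, inv_zero]
      exact Subring.zero_mem _
    · exact ⟨b, hb, a, ha, ha0, Subring.mem_top _, by rw [mul_inv, inv_inv, mul_comm]⟩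
  let F : IntermediateField k K :=
    { carrier := (lo (⊤ : Subring K) (CO k X y z) : Set K)
      mul_mem' := fun ha hb => Subring.mul_mem _ ha hb
      one_mem' := Subring.one_mem _
      add_mem' := fun ha hb => Subring.add_mem _ ha hb
      zero_mem' := Subring.zero_mem _
      algebraMap_mem' := fun c => le_lo _ _ (alg_CO X y z c)
      inv_mem' := fun x hx => key x hx }
  have hF : F = ⊤ := h.gen F (fun β => le_lo _ _ (X_CO X y z β)) (le_lo _ _ (y_CO X y z))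
    (le_lo _ _ (z_CO X y z))
  have ht : t ∈ F := by
    rw [hF]
    exact IntermediateField.mem_top
  obtain ⟨a, ha, b, hb, hb0, -, he⟩ : t ∈ lo (⊤ : Subring K) (CO k X y z) := ht
  exact ⟨a, ha, b, hb, hb0, he⟩

/-- multiplication by a monomial of large weight -/
lemma large {ω : L →+ ℝ} (X : Multiplicative L →* Kˣ) (y z : K) {t : K} (ht : t ∈ CO k X y z) :
    ∃ β0 : L, ∀ β : L, ω β0 ≤ ω β → (X (.ofAdd β) : K) * t ∈ CP k ω X y z := by
  refine Subring.closure_induction (p := fun t _ => ∃ β0 : L, ∀ β : L, ω β0 ≤ ω β →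
    (X (.ofAdd β) : K) * t ∈ CP k ω X y z) ?_ ?_ ?_ ?_ ?_ ?_ ht
  · rintro x ((⟨c, rfl⟩ | ⟨l, rfl⟩) | (rfl | rfl))
    · refine ⟨0, fun β hβ => Subring.mul_mem _ (X_CP X y z (by simpa using hβ)) ?_⟩
      exact Subring.subset_closure (Or.inl (Or.inl ⟨c, rfl⟩))
    · refine ⟨-(Multiplicative.toAdd l), fun β hβ => ?_⟩
      have h1 : (X (.ofAdd β) : K) * (X l : K) =
          (X (.ofAdd (β + Multiplicative.toAdd l)) : K) := by
        rw [ofAdd_add, map_mul, Units.val_mul]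
        rfl
      show (X (.ofAdd β) : K) * (X l : K) ∈ _
      rw [h1]
      refine X_CP X y z ?_
      rw [map_add]
      rw [map_neg] at hβ
      linarith
    · refine ⟨0, fun β hβ => Subring.mul_mem _ (X_CP X x z (by simpa using hβ)) ?_⟩
      exact Subring.subset_closure (Or.inr (Or.inl rfl))
    · refine ⟨0, fun β hβ => Subring.mul_mem _ (X_CP X y x (by simpa using hβ)) ?_⟩
      exact Subring.subset_closure (Or.inr (Or.inr rfl))
  · exact ⟨0, fun β _ => by rw [mul_zero]; exact Subring.zero_mem _⟩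
  · refine ⟨0, fun β hβ => ?_⟩
    rw [mul_one]
    exact X_CP X y z (by simpa using hβ)
  · rintro s t - - ⟨β1, h1⟩ ⟨β2, h2⟩
    rcases le_total (ω β1) (ω β2) with h | h
    · exact ⟨β2, fun β hβ => by
        rw [mul_add]
        exact Subring.add_mem _ (h1 β (h.trans hβ)) (h2 β hβ)⟩
    · exact ⟨β1, fun β hβ => by
        rw [mul_add]
        exact Subring.add_mem _ (h1 β hβ) (h2 β (h.trans hβ))⟩
  · rintro s - ⟨β1, h1⟩
    exact ⟨β1, fun β hβ => by
      rw [mul_neg]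
      exact Subring.neg_mem _ (h1 β hβ)⟩
  · rintro s t - - ⟨β1, h1⟩ ⟨β2, h2⟩
    refine ⟨β1 + β2, fun β hβ => ?_⟩
    have h3 : (X (.ofAdd β) : K) * (s * t) =
        ((X (.ofAdd β1) : K) * s) * ((X (.ofAdd (β - β1)) : K) * t) := by
      have h4 : (X (.ofAdd β) : K) = (X (.ofAdd β1) : K) * (X (.ofAdd (β - β1)) : K) := by
        rw [← Units.val_mul, ← map_mul, ← ofAdd_add, add_sub_cancel]
      rw [h4]
      ring
    rw [h3]
    refine Subring.mul_mem _ (h1 β1 le_rfl) (h2 _ ?_)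
    rw [map_sub]
    rw [map_add] at hβ
    linarith

end Piter

open Piter in
theorem t_iter (h1 : S_mo.{u, w}) (h2 : S_dm.{u, w}) : S_iter.{u, w} := by
  intro k K L _ _ _ _ _ _ v hc htd H
  -- one element
  have one : ∀ {ω : L →+ ℝ} {X : Multiplicative L →* Kˣ} {y z : K}, CS k v ω X y z →
      ∀ t : K, t ≠ 0 → ∃ (ω' : L →+ ℝ) (X' : Multiplicative L →* Kˣ) (y' z' : K),
      CS k v ω' X' y' z' ∧ Dm k v ω X y z ω' X' y' z' ∧ Mo k v ω' X' y' z' t := by
    intro ω X y z hS t ht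
    obtain ⟨a, ha, b, hb, hb0, rfl⟩ := frac hS t
    have ha0 : a ≠ 0 := by
      rintro rfl
      exact ht (zero_mul _)
    obtain ⟨ω1, X1, y1, z1, hS1, hD1, hMa⟩ := H hS a ha ha0
    -- the denominator
    obtain ⟨β, hβ⟩ := large (ω := ω) X y z hb
    have hb1 : (X (.ofAdd β) : K) * b ∈ PI k v ω1 X1 y1 z1 :=
      hD1.le (le_lo _ _ (hβ β le_rfl))
    obtain ⟨b2, hb2, s2, hs2, hs20, hs2v, he⟩ := hb1
    obtain ⟨m1, m2, m3, m4, -, -, -, -, -, -, m5⟩ := h1 hc hS1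
    have hs2P : s2 ∈ PI k v ω1 X1 y1 z1 := le_lo _ _ hs2
    have hv : v s2 = 1 := by
      refine le_antisymm (m5 s2 hs2P) ?_
      have h3 : v s2⁻¹ ≤ 1 := hs2v
      rw [map_inv₀] at h3
      have h4 : 0 < v s2 := by
        rw [zero_lt_iff]
        exact (Valuation.ne_zero_iff v).2 hs20
      exact (inv_le_one₀ h4).1 h3
    have hbX : b = ((X (.ofAdd β) : K))⁻¹ * s2⁻¹ * b2 := by
      have hX0 : (X (.ofAdd β) : K) ≠ 0 := Units.ne_zero _
      calc b = ((X (.ofAdd β) : K))⁻¹ * ((X (.ofAdd β) : K) * b) := by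
            rw [← mul_assoc, inv_mul_cancel₀ hX0, one_mul]
        _ = _ := by rw [he]; ring
    have hb20 : b2 ≠ 0 := by
      rintro rfl
      rw [mul_zero] at hbX
      exact hb0 hbX
    obtain ⟨ω2, X2, y2, z2, hS2, hD2, hMb⟩ := H hS1 b2 (CP_CO _ _ _ hb2) hb20
    have hm : Mo k v ω1 X1 y1 z1 (((X (.ofAdd β) : K))⁻¹ * s2⁻¹) :=
      m1 _ _ (m2 _ (hD1.mo _)) (m2 _ (m4 s2 hs2P hv).1)
    obtain ⟨-, h12⟩ := h2 hc hS1
    obtain ⟨t1, -, -⟩ := h12 hS2 hD2
    obtain ⟨n1, n2, -⟩ := h1 hc hS2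
    obtain ⟨-, h01⟩ := h2 hc hS
    obtain ⟨-, -, tr⟩ := h01 hS1 hD1
    refine ⟨ω2, X2, y2, z2, hS2, tr hS2 hD2, n1 _ _ (t1 _ hMa) (n2 _ ?_)⟩
    rw [hbX]
    exact n1 _ _ (t1 _ hm) hMb
  intro ω X y z hS
  refine ⟨frac hS, fun T => ?_⟩
  classical
  induction T using Finset.induction_on with
  | empty =>
    intro _
    exact ⟨ω, X, y, z, hS, (h2 hc hS).1, fun t ht => absurd ht (Finset.notMem_empty t)⟩
  | insert t T _ ih =>
    intro hT
    obtain ⟨ω1, X1, y1, z1, hS1, hD1, hM1⟩ := ih fun s hs => hT s (Finset.mem_insert_of_mem hs)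
    obtain ⟨ω2, X2, y2, z2, hS2, hD2, hM2⟩ := one hS1 t (hT t (Finset.mem_insert_self t T))
    obtain ⟨-, h01⟩ := h2 hc hS
    obtain ⟨-, -, tr⟩ := h01 hS1 hD1
    obtain ⟨-, h12⟩ := h2 hc hS1
    obtain ⟨t1, -, -⟩ := h12 hS2 hD2
    refine ⟨ω2, X2, y2, z2, hS2, tr hS2 hD2, fun s hs => ?_⟩
    rcases Finset.mem_insert.1 hs with rfl | hs
    · exact hM2
    · exact t1 s (hM1 s hs)

end Pool.Agent.H893.TW
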