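import Pool.Agent.H893.TW.Stm

/-!
# The value of the equation is bounded by the level
-/

set_option autoImplicit false
set_option linter.unusedVariables false
set_option linter.unusedSectionVars false

universe u w

namespace Pool.Agent.H893.TW

open Polynomial Pool.Agent.H893
open scoped NNReal

namespace Plb

section base

variable {k K : Type u} {L : Type w} [Field k] [Field K] [Algebra k K] [AddCommGroup L]
  {v : Valuation K ℝ≥0}

lemma v_ev0 (hk : ∀ c : k, c ≠ 0 → v (algebraMap k K c) = 1) {ω : L →+ ℝ}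
    {X : Multiplicative L →* Kˣ} (hX : ∀ β, v (X (.ofAdd β) : K) = ex (ω β)) {y : K}
    (hy : v y ≤ 1) {g : AddMonoidAlgebra k (L × ℕ)} {B : ℝ}
    (hg : g ∈ ge (k := k) (wX ω) B) : v (ev k X y g) ≤ ex B := by
  refine v_ev_le (η := 0) hk hX (by rw [ex_zero]; exact hy) ?_
  rw [wW_zero]
  exact hg

lemma c_CO (X : Multiplicative L →* Kˣ) (y z : K) (c : k) : algebraMap k K c ∈ CO k X y z :=
  Subring.subset_closure (Or.inl (Or.inl ⟨c, rfl⟩))

lemma X_CO (X : Multiplicative L →* Kˣ) (y z : K) (β : Multiplicative L) :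
    (X β : K) ∈ CO k X y z :=
  Subring.subset_closure (Or.inl (Or.inr ⟨β, rfl⟩))

lemma y_CO (X : Multiplicative L →* Kˣ) (y z : K) : y ∈ CO k X y z :=
  Subring.subset_closure (Or.inr (Or.inl rfl))

lemma z_CO (X : Multiplicative L →* Kˣ) (y z : K) : z ∈ CO k X y z :=
  Subring.subset_closure (Or.inr (Or.inr rfl))

/-- Evaluations are in the algebra of the coordinates. -/
lemma ev_mem_CO (X : Multiplicative L →* Kˣ) (y z : K) (g : AddMonoidAlgebra k (L × ℕ)) :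
    ev k X y g ∈ CO k X y z := by
  induction g using AddMonoidAlgebra.induction_linear with
  | zero => rw [map_zero]; exact zero_mem _
  | add f g hf hg => rw [map_add]; exact add_mem hf hg
  | single μ c =>
    rw [ev_single]
    exact mul_mem (c_CO X y z c) (mul_mem (X_CO X y z _) (pow_mem (y_CO X y z) _))

lemma ge_W {ω : L →+ ℝ} {η : ℝ} (hη : 0 < η) {g : AddMonoidAlgebra k (L × ℕ)}
    (h0 : g ∈ ge (k := k) (wX ω) 0) : g ∈ ge (k := k) (wW ω η) 0 := by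
  intro μ hμ
  have h1 := h0 μ hμ
  rw [wX_apply] at h1
  rw [wW_apply]
  positivity

lemma top_gt {ω : L →+ ℝ} (hω : Function.Injective ω) {η : ℝ} (hη : 0 < η)
    {f : (AddMonoidAlgebra k (L × ℕ))[X]} (h0 : ∀ j, f.coeff j ∈ ge (k := k) (wX ω) 0)
    {Φ : AddMonoidAlgebra k (L × ℕ)} (hΦ : Φ ∈ gt (k := k) (wW ω η) 0) (j : ℕ) :
    (taylor Φ f).coeff j - AddMonoidAlgebra.single 0 ((f.coeff j).coeff 0) ∈
      gt (k := k) (wW ω η) 0 := by
  have h1 := coeff_taylor_top le_rfl (fun j => ge_W hη (h0 j)) hΦ j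
  have h2 := sub_single_gt hω hη (h0 j)
  have h3 := Submodule.add_mem _ h1 h2
  rwa [sub_add_sub_cancel] at h3

lemma pos {ω : L →+ ℝ} (hω : Function.Injective ω) {η : ℝ} (hη : 0 < η)
    {f : (AddMonoidAlgebra k (L × ℕ))[X]} (h0 : ∀ j, f.coeff j ∈ ge (k := k) (wX ω) 0)
    {Φ : AddMonoidAlgebra k (L × ℕ)} (hΦ : Φ ∈ gt (k := k) (wW ω η) 0) (j : ℕ) (μ : L × ℕ)
    (hμ : ((taylor Φ f).coeff j).coeff μ ≠ 0) : μ = 0 ∨ 0 < wW ω η μ := by
  classical
  by_cases h : μ = 0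
  · exact Or.inl h
  · right
    refine top_gt hω hη h0 hΦ j μ ?_
    rw [AddMonoidAlgebra.coeff_sub, Finsupp.sub_apply, AddMonoidAlgebra.coeff_single,
      Finsupp.single_apply, if_neg (Ne.symm h), sub_zero]
    exact hμ

lemma d_pos (h1 : S_mo.{u, w}) (h2 : S_dm.{u, w})
    (hk : ∀ c : k, c ≠ 0 → v (algebraMap k K c) = 1)
    {d : ℕ} {ω : L →+ ℝ} {X : Multiplicative L →* Kˣ} {y z : K}
    {f : (AddMonoidAlgebra k (L × ℕ))[X]} (S : SysE k v d ω X y z f) : 0 < d := by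
  by_contra hcon
  have hd : d = 0 := by omega
  subst hd
  obtain ⟨η, hη, hyη⟩ := exists_pos_ex S.hy
  have hvd : v (ev k X y (f.coeff 0)) = 1 :=
    v_ev_unit hk S.hX hyη S.top (sub_single_gt S.inj hη (S.ge0 0))
  have h5 : v (∑ j ∈ Finset.range f.natDegree, ev k X y (f.coeff (j + 1)) * z ^ (j + 1)) < 1 := by
    refine v.map_sum_lt one_ne_zero fun j _ => ?_
    rw [map_mul, map_pow]
    have h3 : v (ev k X y (f.coeff (j + 1))) ≤ 1 := by
      rw [← ex_zero]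
      exact v_ev0 hk S.hX S.hy.le (S.ge0 (j + 1))
    calc v (ev k X y (f.coeff (j + 1))) * v z ^ (j + 1)
        ≤ 1 * v z ^ (j + 1) := mul_le_mul_of_nonneg_right h3 zero_le
      _ = v z ^ (j + 1) := one_mul _
      _ < 1 := pow_lt_one₀ zero_le S.hz (Nat.succ_ne_zero j)
  have h3 : v (EV k X y z f) = 1 := by
    rw [EV_eq_sum _ _ _ _ (Nat.lt_succ_self f.natDegree), Finset.sum_range_succ', pow_zero,
      mul_one, v.map_add_eq_of_lt_right (by rw [hvd]; exact h5), hvd]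
  obtain ⟨-, -, -, hu, -, -, -, -, -, hEV, -⟩ := h1 hk S.toCS
  exact S.ng ⟨ω, X, y, z, S.toCS, (h2 hk S.toCS).1, (hu _ (hEV f S.ge0) h3).1⟩

variable [Module.Free ℤ L] [Module.Finite ℤ L]

lemma val_le (h6 : S_root.{u, w}) (hk : ∀ c : k, c ≠ 0 → v (algebraMap k K c) = 1)
    (hres : ∀ x : K, v x ≤ 1 → ∃ c : k, v (x - algebraMap k K c) < 1)
    (htr : Algebra.trdeg k K = ((Module.finrank ℤ L + 2 : ℕ) : Cardinal))
    {d : ℕ} {ω : L →+ ℝ} {X : Multiplicative L →* Kˣ} {y z : K}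
    {f : (AddMonoidAlgebra k (L × ℕ))[X]} (S : SysE k v d ω X y z f) {A : ℝ} (hA : 0 ≤ A)
    (hlv : Lv (wX ω) A d f) : v (EV k X y z f) ≤ ex (d * A) := by
  have hz := h6 hk hres htr S hA hlv
  rw [EV_eq_sum _ _ _ _ (Nat.lt_succ_self f.natDegree)]
  refine v.map_sum_le fun j _ => ?_
  rw [map_mul, map_pow]
  calc v (ev k X y (f.coeff j)) * v z ^ j ≤ ex (((d : ℝ) - j) * A) * ex A ^ j :=
        mul_le_mul' (v_ev0 hk S.hX S.hy.le (hlv j)) (pow_le_pow_left' hz j)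
    _ = ex (d * A) := by
        rw [← ex_nmul, ← ex_add]
        congr 1
        ring

/-- The last change of coordinates. -/
lemma fin (h1 : S_mo.{u, w}) (h2 : S_dm.{u, w}) (h3 : S_same.{u, w}) (h6 : S_root.{u, w})
    (hk : ∀ c : k, c ≠ 0 → v (algebraMap k K c) = 1)
    (hres : ∀ x : K, v x ≤ 1 → ∃ c : k, v (x - algebraMap k K c) < 1)
    (htr : Algebra.trdeg k K = ((Module.finrank ℤ L + 2 : ℕ) : Cardinal))
    {d : ℕ} {ω : L →+ ℝ} {X : Multiplicative L →* Kˣ} {y z : K}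
    {f : (AddMonoidAlgebra k (L × ℕ))[X]} (S : SysE k v d ω X y z f) {A' : ℝ} (hA' : 0 < A')
    {ω' : L →+ ℝ} {X' : Multiplicative L →* Kˣ} {u : K} {c : k}
    (C' : CS k v ω' X' (u - algebraMap k K c) z)
    (D' : Dm k v ω X y z ω' X' (u - algebraMap k K c) z)
    {g : (AddMonoidAlgebra k (L × ℕ))[X]} (hg0 : ∀ j, g.coeff j ∈ ge (k := k) (wX ω') 0)
    (hglv : Lv (wX ω') A' d g) {c0 : k} (hc0 : c0 ≠ 0)
    (hgd : g.coeff d - AddMonoidAlgebra.single 0 c0 ∈ gt (k := k) (wX ω') 0)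
    {Ψ : AddMonoidAlgebra k (L × ℕ)} (hΨ : Ψ ∈ ge (k := k) (wX ω') 0)
    (hΨv : v (ev k X' u Ψ) < 1)
    (hEV : EV k X' u (z - ev k X' u Ψ) g = EV k X y z f) :
    v (EV k X y z f) ≤ ex (d * A') := by
  classical
  have hψ0 : (AddMonoidAlgebra.single 0 c : AddMonoidAlgebra k (L × ℕ)) ∈
      ge (k := k) (wX ω') 0 := single_mem_ge fun _ => by rw [map_zero]
  have hevc : ∀ t : K, ev k X' t (AddMonoidAlgebra.single 0 c) = algebraMap k K c := by
    intro t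
    rw [ev_single]
    simp
  have htau : ∀ h : AddMonoidAlgebra k (L × ℕ), ev k X' (u - algebraMap k K c)
      (tau (AddMonoidAlgebra.single 0 c) h) = ev k X' u h := by
    intro h
    rw [ev_tau, hevc, sub_add_cancel]
  set y' := u - algebraMap k K c with hy'
  set z1 := z - ev k X' u Ψ with hz1
  set f' := mapTau (AddMonoidAlgebra.single 0 c) g with hf'
  have hEV' : EV k X' y' z1 f' = EV k X y z f := by
    rw [← hEV, hf', mapTau, EV, eval₂_map, EV]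
    congr 1
    apply RingHom.ext
    intro t
    exact htau t
  have hz' : z = z1 + ev k X' y' (tau (AddMonoidAlgebra.single 0 c) Ψ) := by
    rw [htau, hz1, sub_add_cancel]
  have C1 : CS k v ω' X' y' z1 := by
    refine ⟨C'.inj, C'.hX, C'.hy, ?_, ?_, C'.rr⟩
    · exact lt_of_le_of_lt (v.map_sub _ _) (max_lt C'.hz hΨv)
    · intro F hF1 hF2 hF3
      refine C'.gen F hF1 hF2 ?_
      have h5 := add_mem hF3 (ev_mem hF1 hF2 (tau (AddMonoidAlgebra.single 0 c) Ψ))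
      rwa [← hz'] at h5
  obtain ⟨-, -, -, -, -, hyP, hzP, -, hevP, -, -⟩ := h1 hk C1
  have hzz : z ∈ PI k v ω' X' y' z1 := by
    have h5 := add_mem hzP (hevP _ (tau_ge hψ0 hΨ))
    rwa [← hz'] at h5
  have hzC : z1 ∈ CO k X' y' z := by
    have h5 := sub_mem (z_CO (k := k) X' y' z)
      (ev_mem_CO (k := k) X' y' z (tau (AddMonoidAlgebra.single 0 c) Ψ))
    rwa [htau] at h5
  have D1 : Dm k v ω' X' y' z ω' X' y' z1 :=
    h3 hk C' C1 hyP hzz (y_CO X' y' z) hzC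
  have D2 : Dm k v ω X y z ω' X' y' z1 := ((h2 hk S.toCS).2 C' D').2.2 C1 D1
  have hng : ¬ Goal k v ω' X' y' z1 (EV k X' y' z1 f') := by
    refine ((h2 hk S.toCS).2 C1 D2).2.1 (EV k X y z f) _ ⟨1, ?_⟩ S.ng
    rw [hEV', map_one, Units.val_one, one_mul]
  have hlv' : Lv (wX ω') A' d f' := by
    intro j
    rw [hf', mapTau_coeff]
    exact tau_ge hψ0 (hglv j)
  have S' : SysE k v d ω' X' y' z1 f' :=
    { toCS := C1
      ge0 := by
        intro j
        rw [hf', mapTau_coeff]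
        exact tau_ge hψ0 (hg0 j)
      ng := hng
      top := by
        intro h5
        have h7 := tau_gt hψ0 hgd
        have h6 : tau (AddMonoidAlgebra.single 0 c) (AddMonoidAlgebra.single (0 : L × ℕ) c0) =
            AddMonoidAlgebra.single 0 c0 := by
          rw [tau_single]
          change AddMonoidAlgebra.single ((0 : L), 0) c0 * (Yv k L +
            AddMonoidAlgebra.single 0 c) ^ 0 = _
          rw [pow_zero, mul_one]
          rfl
        rw [map_sub, ← mapTau_coeff, ← hf', h6] at h7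
        have h8 := h7 0 (by
          rw [AddMonoidAlgebra.coeff_sub, Finsupp.sub_apply, h5, zero_sub, neg_ne_zero,
            AddMonoidAlgebra.coeff_single, Finsupp.single_eq_same]
          exact hc0)
        rw [map_zero] at h8
        exact lt_irrefl _ h8
      low := by
        intro j hj
        by_contra h5
        have h7 := hlv' j 0 h5
        rw [map_zero] at h7
        have h8 : (0 : ℝ) < (d : ℝ) - j := by
          have : (j : ℝ) < d := by exact_mod_cast hj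
          linarith
        have h9 : 0 < ((d : ℝ) - j) * A' := mul_pos h8 hA'
        linarith }
  have h10 := val_le h6 hk hres htr S' hA'.le hlv'
  rwa [hEV'] at h10

lemma case1 (h1 : S_mo.{u, w}) (h2 : S_dm.{u, w}) (h3 : S_same.{u, w}) (h6 : S_root.{u, w})
    (hk : ∀ c : k, c ≠ 0 → v (algebraMap k K c) = 1)
    (hres : ∀ x : K, v x ≤ 1 → ∃ c : k, v (x - algebraMap k K c) < 1)
    (htr : Algebra.trdeg k K = ((Module.finrank ℤ L + 2 : ℕ) : Cardinal))
    {d : ℕ} {ω : L →+ ℝ} {X : Multiplicative L →* Kˣ} {y z : K}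
    {f : (AddMonoidAlgebra k (L × ℕ))[X]} (S : SysE k v d ω X y z f) {A' : ℝ} (hA' : 0 < A')
    {γ : L} (hη : 0 < ω γ) (hyη : v y = ex (ω γ)) {Φ : AddMonoidAlgebra k (L × ℕ)}
    (hΦ : Φ ∈ gt (k := k) (wW ω (ω γ)) 0) (hLw : Lw (wW ω (ω γ)) A' d (taylor Φ f)) :
    v (EV k X y z f) ≤ ex (d * A') := by
  classical
  have hf1ge : ∀ j, (taylor Φ f).coeff j ∈ ge (k := k) (wW ω (ω γ)) 0 := fun j =>
    ge_zero_taylor (fun j => ge_W hη (S.ge0 j)) (gt_ge hΦ) j
  obtain ⟨u, hu⟩ : ∃ u : K, u = (X (.ofAdd (-γ)) : K) * y := ⟨_, rfl⟩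
  have hXX : (X (.ofAdd γ) : K) * (X (.ofAdd (-γ)) : K) = 1 := by
    rw [← Units.val_mul, ← map_mul, ← ofAdd_add, add_neg_cancel, ofAdd_zero, map_one,
      Units.val_one]
  have hyu : y = (X (.ofAdd γ) : K) * u := by
    rw [hu, ← mul_assoc, hXX, one_mul]
  have huv : v u = 1 := by
    rw [hu, map_mul, S.hX, hyη, ← ex_add, map_neg, neg_add_cancel, ex_zero]
  obtain ⟨c, hc1⟩ := hres u huv.le
  have hyc : y = (X (.ofAdd γ) : K) * ((u - algebraMap k K c) + algebraMap k K c) := by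
    rw [sub_add_cancel]
    exact hyu
  have C' : CS k v ω X (u - algebraMap k K c) z := by
    refine ⟨S.inj, S.hX, hc1, S.hz, ?_, S.rr⟩
    intro F hF1 hF2 hF3
    refine S.gen F hF1 ?_ hF3
    have h5 := mul_mem (hF1 (.ofAdd γ)) (add_mem hF2 (F.algebraMap_mem c))
    rwa [← hyc] at h5
  obtain ⟨-, -, -, -, hXP, hyP, hzP, hcP, -, -, -⟩ := h1 hk C'
  have hyy : y ∈ PI k v ω X (u - algebraMap k K c) z := by
    have h5 := mul_mem (hXP γ hη.le) (add_mem hyP (hcP c))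
    rwa [← hyc] at h5
  have hyC : u - algebraMap k K c ∈ CO k X y z := by
    rw [hu]
    exact sub_mem (mul_mem (X_CO X y z _) (y_CO X y z)) (c_CO X y z c)
  have D' : Dm k v ω X y z ω X (u - algebraMap k K c) z :=
    h3 hk S.toCS C' hyy hzP hyC (z_CO X y z)
  have hevS : ev k X u (Sh γ Φ) = ev k X y Φ := by
    rw [ev_Sh, ← hyu]
  refine fin h1 h2 h3 h6 hk hres htr S hA' C' D' (g := ShP γ (taylor Φ f)) ?_ ?_ S.top ?_
    (Ψ := Sh γ Φ) (Sh_ge (gt_ge hΦ)) ?_ ?_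
  · intro j
    rw [ShP_coeff]
    exact Sh_ge (hf1ge j)
  · intro j
    rw [ShP_coeff]
    exact Sh_ge (hLw.lv hA'.le hf1ge j)
  · have h5 := Sh_gt (top_gt S.inj hη S.ge0 hΦ d)
    rw [map_sub, Sh_single, ← ShP_coeff] at h5
    have h7 : shM γ (0 : L × ℕ) = 0 := by
      unfold shM
      simp
    rwa [h7] at h5
  · rw [hevS, ← ex_zero]
    exact v_ev_lt hk S.hX hyη.le hΦ
  · rw [hevS, EV_ShP, ← hyu, EV_taylor]

lemma case2 (h1 : S_mo.{u, w}) (h2 : S_dm.{u, w}) (h3 : S_same.{u, w}) (h4 : S_ram.{u, w})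
    (h6 : S_root.{u, w}) (hk : ∀ c : k, c ≠ 0 → v (algebraMap k K c) = 1)
    (hres : ∀ x : K, v x ≤ 1 → ∃ c : k, v (x - algebraMap k K c) < 1)
    (htr : Algebra.trdeg k K = ((Module.finrank ℤ L + 2 : ℕ) : Cardinal))
    {d : ℕ} {ω : L →+ ℝ} {X : Multiplicative L →* Kˣ} {y z : K}
    {f : (AddMonoidAlgebra k (L × ℕ))[X]} (S : SysE k v d ω X y z f) {A' : ℝ} (hA' : 0 < A')
    {η : ℝ} (hη : 0 < η) (hyη : v y = ex η) (hηω : ∀ a, ω a ≠ η)
    {Φ : AddMonoidAlgebra k (L × ℕ)}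
    (hΦ : Φ ∈ gt (k := k) (wW ω η) 0) (hLw : Lw (wW ω η) A' d (taylor Φ f)) :
    v (EV k X y z f) ≤ ex (d * A') := by
  classical
  have hf1ge : ∀ j, (taylor Φ f).coeff j ∈ ge (k := k) (wW ω η) 0 := fun j =>
    ge_zero_taylor (fun j => ge_W hη (S.ge0 j)) (gt_ge hΦ) j
  let F1 : Finset (L × ℕ) := (Finset.range ((taylor Φ f).natDegree + 1)).biUnion
    fun j => ((taylor Φ f).coeff j).coeff.support
  have hF1 : ∀ j μ, ((taylor Φ f).coeff j).coeff μ ≠ 0 → μ ∈ F1 := by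
    intro j μ hμ
    refine Finset.mem_biUnion.2 ⟨j, ?_, Finsupp.mem_support_iff.2 hμ⟩
    rw [Finset.mem_range]
    by_contra h
    apply hμ
    rw [coeff_eq_zero_of_natDegree_lt (by omega)]
    rfl
  have hy0 : y ≠ 0 := by
    intro h
    rw [h, map_zero] at hyη
    exact ex_ne _ hyη.symm
  obtain ⟨m0, hm0, a0, ha0⟩ := S.rr y hy0
  obtain ⟨ω', e, m, ys, hFe⟩ := exists_YS S.inj hηω ⟨m0, hm0, a0, by
    rw [hyη, ← ex_nmul, ex_inj] at ha0
    exact ha0.symm⟩ (F1 ∪ Φ.coeff.support) (by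
      intro μ hμ
      rcases Finset.mem_union.1 hμ with h | h
      · obtain ⟨j, -, hj⟩ := Finset.mem_biUnion.1 h
        exact pos S.inj hη S.ge0 hΦ j μ (Finsupp.mem_support_iff.1 hj)
      · exact Or.inr (hΦ μ (Finsupp.mem_support_iff.1 h)))
  have hne : ∀ j, (taylor Φ f).coeff j ∈ inP k (Ne' e) := fun j μ hμ =>
    hFe μ (Finset.mem_union_left _ (hF1 j μ hμ))
  have hneΦ : Φ ∈ inP k (Ne' e) := fun μ hμ =>
    hFe μ (Finset.mem_union_right _ (Finsupp.mem_support_iff.2 hμ))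
  obtain ⟨yU, hyU⟩ : ∃ yU : Kˣ, (yU : K) = y := ⟨Units.mk0 y hy0, rfl⟩
  have huv : v (nu e X yU : K) = 1 := by
    have h5 := ys.v_Mon (X := X) (y := yU) S.hX (by rw [hyU, hyη]) (e.symm (0, 1))
    rw [AddEquiv.apply_symm_apply, map_zero, ex_zero] at h5
    exact h5
  obtain ⟨c, hc1⟩ := hres _ huv.le
  obtain ⟨-, -, C', D', -, -⟩ := h4 hk S.toCS hη hyη ys yU hyU c hc1
  have hevT : ev k (nX e X yU) (nu e X yU : K) (Tm e Φ) = ev k X y Φ := by
    rw [ev_Tm e X yU hneΦ, hyU]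
  refine fin h1 h2 h3 h6 hk hres htr S hA' C' D' (g := TmP e (taylor Φ f)) ?_ ?_ S.top ?_
    (Ψ := Tm e Φ) (ys.Tm_ge (gt_ge hΦ)) ?_ ?_
  · intro j
    rw [TmP_coeff]
    exact ys.Tm_ge (hf1ge j)
  · intro j
    rw [TmP_coeff]
    exact ys.Tm_ge (hLw.lv hA'.le hf1ge j)
  · have h5 := ys.Tm_gt (top_gt S.inj hη S.ge0 hΦ d)
    rwa [map_sub, Tm_single, tm_zero, ← TmP_coeff] at h5
  · rw [hevT, ← ex_zero]
    exact v_ev_lt hk S.hX hyη.le hΦ
  · rw [hevT, EV_TmP X yU _ hne, hyU, EV_taylor]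

end base

end Plb

theorem t_lb (h1 : S_mo.{u, w}) (h2 : S_dm.{u, w}) (h3 : S_same.{u, w}) (h4 : S_ram.{u, w})
    (h5 : S_al.{u, w}) (h6 : S_root.{u, w}) : S_lb.{u, w} := by
  intro k K L _ _ _ _ _ _ v hk hres htr d ω X y z f S
  have hd := Plb.d_pos h1 h2 hk S
  refine ⟨hd, fun A hA hlv => Plb.val_le h6 hk hres htr S hA hlv, ?_⟩
  intro η hη hyη
  have hf0 : f ≠ 0 := by
    intro h
    apply S.top
    rw [h]
    rfl
  have hEV0 : EV k X y z f ≠ 0 := by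
    intro h
    apply hf0
    apply (h5 htr S.toCS).1
    rw [h, EV, eval₂_zero]
  obtain ⟨B0, hB0⟩ := exists_ex ((v.ne_zero_iff).2 hEV0)
  refine ⟨max 0 B0, fun Φ hΦ A' hLw => ?_⟩
  by_cases hA' : A' ≤ 0
  · exact hA'.trans (le_max_left _ _)
  push Not at hA'
  have h7 : v (EV k X y z f) ≤ ex (d * A') := by
    by_cases hγ : ∃ γ, ω γ = η
    · obtain ⟨γ, rfl⟩ := hγ
      exact Plb.case1 h1 h2 h3 h6 hk hres htr S hA' hη hyη hΦ hLw
    · push Not at hγ
      exact Plb.case2 h1 h2 h3 h4 h6 hk hres htr S hA' hη hyη hγ hΦ hLw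
  rw [hB0, ex_le] at h7
  have hd1 : (1 : ℝ) ≤ d := by exact_mod_cast hd
  refine le_trans ?_ (le_max_right _ _)
  nlinarith

end Pool.Agent.H893.TW
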