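import Pool.Agent.H893.TW.Stm

/-!
# Monomials times units (helper337)
-/

set_option autoImplicit false

universe u w

namespace Pool.Agent.H893.TW

open Polynomial Pool.Agent.H893 Pool.Agent.W418.LU2
open scoped NNReal

namespace Pmo

variable {k K : Type u} {L : Type w} [Field k] [Field K] [Algebra k K] [AddCommGroup L]
  {v : Valuation K ℝ≥0} {ω : L →+ ℝ} {X : Multiplicative L →* Kˣ} {y z : K}

lemma const_mem (c : k) : algebraMap k K c ∈ CP k ω X y z :=
  Subring.subset_closure (Or.inl (Or.inl ⟨c, rfl⟩))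

lemma X_mem {a : L} (ha : 0 ≤ ω a) : (X (.ofAdd a) : K) ∈ CP k ω X y z :=
  Subring.subset_closure (Or.inl (Or.inr ⟨a, ha, rfl⟩))

lemma y_mem : y ∈ CP k ω X y z := Subring.subset_closure (Or.inr (by simp))

lemma z_mem : z ∈ CP k ω X y z := Subring.subset_closure (Or.inr (by simp))

lemma CP_le (hk : ∀ c : k, c ≠ 0 → v (algebraMap k K c) = 1) (h : CS k v ω X y z) :
    CP k ω X y z ≤ v.valuationSubring.toSubring := by
  unfold CP
  rw [Subring.closure_le]
  rintro t ((⟨c, rfl⟩ | ⟨a, ha, rfl⟩) | ht)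
  · change v (algebraMap k K c) ≤ 1
    by_cases hc : c = 0
    · rw [hc, map_zero, map_zero]
      exact zero_le_one
    · exact (hk c hc).le
  · change v (X (.ofAdd a) : K) ≤ 1
    rw [h.hX]
    exact ex_le_one.2 ha
  · change v t ≤ 1
    rcases ht with rfl | ht
    · exact h.hy.le
    · rw [Set.mem_singleton_iff] at ht
      rw [ht]
      exact h.hz.le

lemma ev_mem_CP {g : AddMonoidAlgebra k (L × ℕ)} (hg : g ∈ ge (k := k) (wX ω) 0) :
    ev k X y g ∈ CP k ω X y z := by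
  rw [sum_single g, map_sum]
  refine Subring.sum_mem _ fun μ hμ => ?_
  rw [ev_single]
  have h1 : 0 ≤ ω μ.1 := by
    have h2 := hg μ (Finsupp.mem_support_iff.1 hμ)
    rwa [wX_apply] at h2
  exact Subring.mul_mem _ (const_mem _) (Subring.mul_mem _ (X_mem h1)
    (Subring.pow_mem _ y_mem _))

lemma EV_mem_CP {f : (AddMonoidAlgebra k (L × ℕ))[X]}
    (hf : ∀ j, f.coeff j ∈ ge (k := k) (wX ω) 0) : EV k X y z f ∈ CP k ω X y z := by
  rw [EV_eq_sum _ _ _ _ (Nat.lt_succ_self f.natDegree)]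
  exact Subring.sum_mem _ fun j _ => Subring.mul_mem _ (ev_mem_CP (hf j))
    (Subring.pow_mem _ z_mem _)

lemma X_add (a b : L) : (X (.ofAdd (a + b)) : K) = (X (.ofAdd a) : K) * (X (.ofAdd b) : K) := by
  rw [ofAdd_add, map_mul, Units.val_mul]

lemma X_neg (a : L) : (X (.ofAdd (-a)) : K) = ((X (.ofAdd a) : K))⁻¹ := by
  rw [ofAdd_neg, map_inv, Units.val_inv_eq_inv_val]

end Pmo

open Pmo in
theorem t_mo : S_mo.{u, w} := by
  intro k K L _ _ _ _ v ω X y z hk h
  have hCV := CP_le hk h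
  have hle : CP k ω X y z ≤ PI k v ω X y z := le_lo _ _
  have hinv : ∀ u, u ∈ PI k v ω X y z → v u = 1 → u⁻¹ ∈ PI k v ω X y z := by
    intro u hu hu1
    have h0 : u ≠ 0 := by
      rintro rfl
      rw [map_zero] at hu1
      exact zero_ne_one hu1
    refine inv_mem_lo hCV hu h0 ?_
    change v u⁻¹ ≤ 1
    rw [map_inv₀, hu1, inv_one]
  have hmul : ∀ u u', u ∈ PI k v ω X y z → u' ∈ PI k v ω X y z → u * u' ∈ PI k v ω X y z :=
    fun u u' hu hu' => Subring.mul_mem _ hu hu'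
  have hone : (1 : K) ∈ PI k v ω X y z := Subring.one_mem _
  refine ⟨?_, ?_, ?_, ?_, fun a ha => hle (X_mem ha), hle y_mem, hle z_mem,
    fun c => hle (const_mem c), fun g hg => hle (ev_mem_CP hg), fun f hf => hle (EV_mem_CP hf),
    fun t ht => lo_le hCV ht⟩
  · rintro t s ⟨β, u, hu, hu1, rfl⟩ ⟨β', u', hu', hu1', rfl⟩
    refine ⟨β + β', u * u', hmul u u' hu hu', by rw [map_mul, hu1, hu1', one_mul], ?_⟩
    rw [X_add]
    ring
  · rintro t ⟨β, u, hu, hu1, rfl⟩
    refine ⟨-β, u⁻¹, hinv u hu hu1, by rw [map_inv₀, hu1, inv_one], ?_⟩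
    rw [X_neg, mul_inv]
  · intro β
    exact ⟨β.toAdd, 1, hone, map_one v, by rw [mul_one, ofAdd_toAdd]⟩
  · intro u hu hu1
    refine ⟨⟨0, u, hu, hu1, ?_⟩, hinv u hu hu1⟩
    rw [ofAdd_zero, map_one, Units.val_one, one_mul]

end Pool.Agent.H893.TW
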