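import Pool.Agent.H893.TW.Stm

/-!
# The first equation (task prep of the project TW), by helper168
-/

set_option autoImplicit false
set_option linter.unusedVariables false
set_option linter.unusedSectionVars false

universe u w

namespace Pool.Agent.H893.TW

open Polynomial Pool.Agent.H893 Pool.Agent.W418.LU2
open scoped NNReal

namespace Pprep

section co

variable {k L : Type*} [Field k] [AddCommGroup L]

lemma single_mul_co (β : L) (g : AddMonoidAlgebra k (L × ℕ)) (γ : L) (i : ℕ) :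
    (AddMonoidAlgebra.single (β, 0) 1 * g).coeff (γ, i) = g.coeff (γ - β, i) := by
  have h1 : ((γ, i) : L × ℕ) = (β, 0) + (γ - β, i) := by
    rw [Prod.mk_add_mk, zero_add, add_sub_cancel]
  rw [h1, AddMonoidAlgebra.coeff_single_mul_add, one_mul]

lemma Zd_co (a e0 : L) (f : (AddMonoidAlgebra k (L × ℕ))[X]) (j : ℕ) (γ : L) (i : ℕ) :
    ((Zd a e0 f).coeff j).coeff (γ, i) = (f.coeff j).coeff (γ - (j • a - e0), i) := by
  rw [Zd_coeff, single_mul_co]

lemma ShP_co (β : L) (f : (AddMonoidAlgebra k (L × ℕ))[X]) (j : ℕ) (γ : L) (i : ℕ) :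
    ((ShP β f).coeff j).coeff (γ, i) = (f.coeff j).coeff (γ - i • β, i) := by
  rw [ShP_coeff, Sh_coeff']

/-- The monomial of the least weight. -/
lemma exists_least (ω : L →+ ℝ) {f : (AddMonoidAlgebra k (L × ℕ))[X]} (hf : f ≠ 0) :
    ∃ (j : ℕ) (β : L) (i : ℕ), (f.coeff j).coeff (β, i) ≠ 0 ∧
      ∀ (j' : ℕ) (β' : L) (i' : ℕ), (f.coeff j').coeff (β', i') ≠ 0 → ω β ≤ ω β' := by
  classical
  set T : Finset (L × ℕ) := f.support.biUnion (fun j => (f.coeff j).coeff.support) with hT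
  have hmem : ∀ μ, μ ∈ T ↔ ∃ j, (f.coeff j).coeff μ ≠ 0 := by
    intro μ
    rw [hT, Finset.mem_biUnion]
    constructor
    · rintro ⟨j, _, h⟩
      exact ⟨j, Finsupp.mem_support_iff.1 h⟩
    · rintro ⟨j, h⟩
      refine ⟨j, ?_, Finsupp.mem_support_iff.2 h⟩
      rw [mem_support_iff]
      intro h0
      rw [h0] at h
      exact h rfl
  have hne : T.Nonempty := by
    by_contra h0
    rw [Finset.not_nonempty_iff_eq_empty] at h0
    apply hf
    ext1 j
    rw [coeff_zero]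
    apply AddMonoidAlgebra.ext
    apply Finsupp.ext
    intro μ
    by_contra h1
    have h2 : μ ∈ T := (hmem μ).2 ⟨j, h1⟩
    rw [h0] at h2
    exact Finset.notMem_empty μ h2
  obtain ⟨μ0, hμ0, hmin⟩ := T.exists_min_image (fun μ => ω μ.1) hne
  obtain ⟨j, hj⟩ := (hmem μ0).1 hμ0
  exact ⟨j, μ0.1, μ0.2, hj, fun j' β' i' h => hmin (β', i') ((hmem _).2 ⟨j', h⟩)⟩

/-- A lower bound for the positive weights. -/
lemma exists_gap (ω : L →+ ℝ) (f : (AddMonoidAlgebra k (L × ℕ))[X]) :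
    ∃ ε : ℝ, 0 < ε ∧ ∀ (j : ℕ) (β : L) (i : ℕ), (f.coeff j).coeff (β, i) ≠ 0 → 0 < ω β →
      ε ≤ ω β := by
  classical
  obtain ⟨ε, hε, h1⟩ := exists_eps (f.support.biUnion fun j =>
    (f.coeff j).coeff.support.image fun μ => ω μ.1)
  refine ⟨ε, hε, ?_⟩
  intro j β i h h0
  refine h1 _ (Finset.mem_biUnion.2 ⟨j, ?_, Finset.mem_image.2
    ⟨(β, i), Finsupp.mem_support_iff.2 h, rfl⟩⟩) h0
  rw [mem_support_iff]
  intro h2
  rw [h2] at h
  exact h rfl

end co

end Pprep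

open Pprep

/-- **Task prep.** -/
theorem t_prep (h1 : S_mo.{u, w}) (h2 : S_dm.{u, w}) (h3 : S_same.{u, w}) (h4 : S_lin.{u, w})
    (h5 : S_div.{u, w}) (h6 : S_shift.{u, w}) (h7 : S_lin1.{u, w}) : S_prep.{u, w} := by
  classical
  intro k K L _ _ _ _ _ _ v hk ω X y z hden hC f hf hng
  obtain ⟨jf, β0, i1, hne, hmin⟩ := exists_least ω hf
  set f0 := Zd 0 β0 f with hf0
  have hf0c : ∀ (j : ℕ) (γ : L) (i : ℕ),
      (f0.coeff j).coeff (γ, i) = (f.coeff j).coeff (γ + β0, i) := by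
    intro j γ i
    rw [hf0, Zd_co]
    congr 2
    rw [smul_zero]
    abel
  have hge0 : ∀ j, f0.coeff j ∈ ge (k := k) (wX ω) 0 := by
    rintro j ⟨γ, i⟩ hμ
    rw [hf0c] at hμ
    have h := hmin _ _ _ hμ
    rw [map_add] at h
    rw [wX_apply]
    change 0 ≤ ω γ
    linarith
  have hng0 : ¬ Goal k v ω X y z (EV k X y z f0) := by
    have hd := h2 hk hC
    refine (hd.2 hC hd.1).2.1 (EV k X y z f) (EV k X y z f0) ⟨.ofAdd (-β0), ?_⟩ hng
    have h := EV_Zd X y z f 0 β0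
    rw [neg_zero, ofAdd_zero, map_one, Units.val_one, mul_one] at h
    exact h
  have P0 : PSE k v ω X y z f0 := { toCS := hC, ge0 := hge0, ng := hng0 }
  -- the vertex
  have hex : ∃ j, ∃ i, (f0.coeff j).coeff (0, i) ≠ 0 := by
    refine ⟨jf, i1, ?_⟩
    rw [hf0c, zero_add]
    exact hne
  obtain ⟨j0, hj0, hj0min⟩ : ∃ j0, (∃ i, (f0.coeff j0).coeff (0, i) ≠ 0) ∧
      ∀ j, (∃ i, (f0.coeff j).coeff (0, i) ≠ 0) → j0 ≤ j :=
    ⟨Nat.find hex, Nat.find_spec hex, fun j hj => Nat.find_min' hex hj⟩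
  obtain ⟨i0, hi0, hi0min⟩ : ∃ i0, (f0.coeff j0).coeff (0, i0) ≠ 0 ∧
      ∀ i, (f0.coeff j0).coeff (0, i) ≠ 0 → i0 ≤ i :=
    ⟨Nat.find hj0, Nat.find_spec hj0, fun i hi => Nat.find_min' hj0 hi⟩
  obtain ⟨ε, hε, hgap⟩ := exists_gap ω f0
  set N : ℕ := i0 + 1 with hN
  set M : ℕ := i0 + N * j0 with hM
  have hvert : ∀ i j : ℕ, (f0.coeff j).coeff (0, i) ≠ 0 → (i = i0 ∧ j = j0) ∨ M < i + N * j := by
    intro i j hij
    have hj := hj0min j ⟨i, hij⟩
    rcases hj.eq_or_lt with rfl | hj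
    · have hi := hi0min i hij
      rcases hi.eq_or_lt with rfl | hi
      · exact Or.inl ⟨rfl, rfl⟩
      · right
        omega
    · right
      have : N * (j0 + 1) ≤ N * j := Nat.mul_le_mul_left N hj
      rw [mul_add, mul_one] at this
      omega
  -- the small element
  obtain ⟨ηy, hηy, hvy⟩ := exists_pos_ex hC.hy
  obtain ⟨ηz, hηz, hvz⟩ := exists_pos_ex hC.hz
  have hN0 : (0 : ℝ) < N := by
    rw [hN]
    positivity
  have hM0 : (0 : ℝ) < (M : ℝ) + 1 := by positivity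
  obtain ⟨β1, hβ1, hβ1lt⟩ := hden 0 (min ηy (min (ηz / N) (ε / ((M : ℝ) + 1))))
    (lt_min hηy (lt_min (div_pos hηz hN0) (div_pos hε hM0)))
  have hb1 : ω β1 < ηy := lt_of_lt_of_le hβ1lt (min_le_left _ _)
  have hb2 : N * ω β1 < ηz := by
    have h := lt_of_lt_of_le hβ1lt ((min_le_right _ _).trans (min_le_left _ _))
    rw [lt_div_iff₀ hN0] at h
    linarith
  have hb3 : M * ω β1 < ε := by
    have h := lt_of_lt_of_le hβ1lt ((min_le_right _ _).trans (min_le_right _ _))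
    rw [lt_div_iff₀ hM0] at h
    linarith
  obtain ⟨P1, -⟩ := h6 hk P0 β1 hβ1 (lt_of_le_of_lt hvy (ex_lt.2 hb1))
  set f1 := ShP β1 f0 with hf1
  set f2 := Zd (N • β1) (M • β1) f1 with hf2
  have hf2c : ∀ (j : ℕ) (γ : L) (i : ℕ), (f2.coeff j).coeff (γ, i) =
      (f0.coeff j).coeff (γ - (j • (N • β1) - M • β1) - i • β1, i) := by
    intro j γ i
    rw [hf2, Zd_co, hf1, ShP_co]
  have hkey : ∀ (j : ℕ) (γ : L) (i : ℕ), (f2.coeff j).coeff (γ, i) ≠ 0 →
      0 < ω γ ∨ (γ = 0 ∧ i = i0 ∧ j = j0) := by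
    intro j γ i hγ
    rw [hf2c] at hγ
    set β := γ - (j • (N • β1) - M • β1) - i • β1 with hβ
    have hw : ω γ = ω β + (((i + N * j : ℕ) : ℝ) - M) * ω β1 := by
      rw [hβ]
      simp only [map_sub, map_nsmul, nsmul_eq_mul]
      push_cast
      ring
    have hβ0 : 0 ≤ ω β := by
      have h := hge0 j (β, i) hγ
      rw [wX_apply] at h
      exact h
    rcases hβ0.eq_or_lt with h0 | h0
    · have hβz : β = 0 := hC.inj (by rw [← h0, map_zero])
      rw [hβz] at hγ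
      rcases hvert i j hγ with ⟨hi, hj⟩ | hlt
      · right
        refine ⟨?_, hi, hj⟩
        apply hC.inj
        rw [hw, ← h0, map_zero, hi, hj, ← hM]
        ring
      · left
        have h8 : (M : ℝ) < ((i + N * j : ℕ) : ℝ) := by exact_mod_cast hlt
        rw [hw, ← h0, zero_add]
        exact mul_pos (by linarith) hβ1
    · left
      have h8 := hgap j β i hγ h0
      have h9 : (0 : ℝ) ≤ ((i + N * j : ℕ) : ℝ) * ω β1 := by positivity
      rw [hw, sub_mul]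
      linarith
  have hge2 : ∀ j, f2.coeff j ∈ ge (k := k) (wX ω) 0 := by
    rintro j ⟨γ, i⟩ hμ
    rw [wX_apply]
    change 0 ≤ ω γ
    rcases hkey j γ i hμ with h | ⟨h, -, -⟩
    · exact h.le
    · rw [h, map_zero]
  have ha : ω (N • β1) = N * ω β1 := by rw [map_nsmul, nsmul_eq_mul]
  have hP2 := h5 hk P1 (N • β1) (M • β1) (by
    rw [ha]
    positivity) hge2 0 (by
    rw [map_zero, sub_zero, map_mul, hC.hX, map_neg, ha]
    calc v z * ex (-(N * ω β1)) ≤ ex ηz * ex (-(N * ω β1)) :=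
          mul_le_mul_of_nonneg_right hvz zero_le
      _ < 1 := by
          rw [← ex_add, ex_lt_one]
          linarith)
  rw [AddMonoidAlgebra.single_zero, taylor_zero] at hP2
  have hne2 : (f2.coeff j0).coeff (0, i0) ≠ 0 := by
    rw [hf2c]
    have h : (0 : L) - (j0 • (N • β1) - M • β1) - i0 • β1 = 0 := by
      have hM' : M • β1 = i0 • β1 + j0 • (N • β1) := by
        rw [← mul_smul, ← add_smul, hM, mul_comm j0 N]
      rw [hM']
      abel
    rw [h]
    exact hi0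
  obtain ⟨y', f', h⟩ := h7 hk hP2 (i0 := i0) (j0 := j0) hne2 (by
    intro i j hij
    left
    rcases hkey j 0 i hij with h | ⟨-, h, h'⟩
    · rw [map_zero] at h
      exact absurd h (lt_irrefl _)
    · exact ⟨h, h'⟩)
  exact ⟨y', _, f', i0 + j0, h⟩

end Pool.Agent.H893.TW
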