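import Pool.Agent.H893.TW.Stm

/-!
# The ramified change of coordinates
-/

set_option autoImplicit false
set_option linter.unusedVariables false
set_option linter.unusedSectionVars false

universe u w

namespace Pool.Agent.H893.TW

open Polynomial Pool.Agent.H893 Pool.Agent.W418.LU2
open scoped NNReal

namespace Pram

variable {k : Type u} {K : Type u} {L : Type w} [Field k] [Field K] [Algebra k K] [AddCommGroup L]

lemma mem_CO_alg (X : Multiplicative L →* Kˣ) (y z : K) (c : k) :
    algebraMap k K c ∈ CO k X y z :=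
  Subring.subset_closure (Or.inl (Or.inl ⟨c, rfl⟩))

lemma mem_CO_X (X : Multiplicative L →* Kˣ) (y z : K) (l : Multiplicative L) :
    (X l : K) ∈ CO k X y z :=
  Subring.subset_closure (Or.inl (Or.inr ⟨l, rfl⟩))

lemma mem_CO_y (X : Multiplicative L →* Kˣ) (y z : K) : y ∈ CO k X y z :=
  Subring.subset_closure (Or.inr (Or.inl rfl))

lemma mem_CO_z (X : Multiplicative L →* Kˣ) (y z : K) : z ∈ CO k X y z :=
  Subring.subset_closure (Or.inr (Or.inr rfl))

/-- The monomials in `X` and `y` have denominators which are powers of `y`. -/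
lemma mon_den (X : Multiplicative L →* Kˣ) (y z : K) (hy : y ≠ 0) (a : L) (n : ℤ) :
    (X (.ofAdd a) : K) * y ^ n ∈ denR (CO k X y z) y (mem_CO_y X y z) := by
  rw [mem_denR]
  refine ⟨n.natAbs, ?_⟩
  have h1 : 0 ≤ (n.natAbs : ℤ) + n := by omega
  obtain ⟨q, hq⟩ := Int.eq_ofNat_of_zero_le h1
  have h2 : y ^ n.natAbs * ((X (.ofAdd a) : K) * y ^ n) = (X (.ofAdd a) : K) * y ^ q := by
    rw [← zpow_natCast y q, ← hq, zpow_add₀ hy, zpow_natCast]
    ring
  rw [h2]
  exact mul_mem (mem_CO_X X y z _) (pow_mem (mem_CO_y X y z) _)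

lemma le_denR {A : Subring K} {β : K} {hβ : β ∈ A} {t : K} (ht : t ∈ A) : t ∈ denR A β hβ := by
  rw [mem_denR]
  exact ⟨0, by rw [pow_zero, one_mul]; exact ht⟩

/-- Inclusions of the local rings. -/
lemma lo_le_lo {V S S' : Subring K} (h : S ≤ lo V S') (hS : S' ≤ V) : lo V S ≤ lo V S' := by
  rintro x ⟨a, ha, b, hb, hb0, hbV, rfl⟩
  exact (lo V S').mul_mem (h ha) (inv_mem_lo hS (h hb) hb0 hbV)

end Pram

open Pram in
theorem t_ram (h1 : S_mo.{u, w}) (h2 : S_dm.{u, w}) : S_ram.{u, w} := by
  intro k K L _ _ _ _ _ _ v hk ω ω' η e m X y z S hη hyη ys yU hyU c hc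
  have hyK : v (yU : K) = ex η := by rw [hyU, hyη]
  have hy0 : y ≠ 0 := by
    rw [← hyU]
    exact yU.ne_zero
  have hX'v : ∀ β, v (nX e X yU (.ofAdd β) : K) = ex (ω' β) := by
    intro β
    have h3 := ys.v_Mon (X := X) (y := yU) S.hX hyK (e.symm (β, 0))
    rw [AddEquiv.apply_symm_apply] at h3
    exact h3
  have huv : v (nu e X yU : K) = 1 := by
    have h3 := ys.v_Mon (X := X) (y := yU) S.hX hyK (e.symm (0, 1))
    rw [AddEquiv.apply_symm_apply, map_zero, ex_zero] at h3
    exact h3
  have hc0 : c ≠ 0 := by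
    rintro rfl
    rw [map_zero, sub_zero, huv] at hc
    exact lt_irrefl _ hc
  have hCS : CS k v ω' (nX e X yU) ((nu e X yU : K) - algebraMap k K c) z := by
    refine ⟨ys.inj, hX'v, hc, S.hz, ?_, ?_⟩
    · intro F hF1 hF2 hF3
      have h3 : (nu e X yU : K) ∈ F := by
        have h4 := add_mem hF2 (F.algebraMap_mem c)
        rwa [sub_add_cancel] at h4
      have h5 := nX_mem.2 ⟨hF1, h3⟩
      refine S.gen F h5.1 ?_ hF3
      rw [← hyU]
      exact h5.2
    · intro x hx
      obtain ⟨m1, hm1, a1, ha1⟩ := S.rr x hx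
      refine ⟨m1, hm1, (e (a1, 0)).1, ?_⟩
      rw [ha1, ys.wt]
      simp
  obtain ⟨moM, moI, moX, moU, moP, moy, moz, mok, -, -, mole⟩ := h1 hk hCS
  have huP : (nu e X yU : K) ∈ PI k v ω' (nX e X yU) ((nu e X yU : K) - algebraMap k K c) z := by
    have h3 := add_mem moy (mok c)
    rwa [sub_add_cancel] at h3
  have huI : (nu e X yU : K)⁻¹ ∈
      PI k v ω' (nX e X yU) ((nu e X yU : K) - algebraMap k K c) z := (moU _ huP huv).2
  have hun : ∀ n : ℤ, (nu e X yU : K) ^ n ∈
      PI k v ω' (nX e X yU) ((nu e X yU : K) - algebraMap k K c) z := by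
    intro n
    obtain ⟨q, rfl | rfl⟩ := n.eq_nat_or_neg
    · rw [zpow_natCast]
      exact pow_mem huP q
    · rw [zpow_neg, zpow_natCast, ← inv_pow]
      exact pow_mem huI q
  have hmon : ∀ (a : L) (n : ℤ), (X (.ofAdd a) : K) * y ^ n =
      (nX e X yU (.ofAdd (e (a, n)).1) : K) * (nu e X yU : K) ^ (e (a, n)).2 := by
    intro a n
    have h3 := congrArg Units.val (Mon_eq e X yU (a, n))
    rw [Mon_apply, Units.val_mul, Units.val_mul, Units.val_zpow_eq_zpow_val,
      Units.val_zpow_eq_zpow_val, hyU] at h3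
    exact h3
  have hlast : ∀ (a : L) (n : ℤ), 0 ≤ ω a + n * η → (X (.ofAdd a) : K) * y ^ n ∈
      PI k v ω' (nX e X yU) ((nu e X yU : K) - algebraMap k K c) z := by
    intro a n han
    rw [hmon]
    refine mul_mem (moP _ ?_) (hun _)
    rw [ys.wt]
    exact han
  have hMo : ∀ (a : L) (n : ℤ), Mo k v ω' (nX e X yU) ((nu e X yU : K) - algebraMap k K c) z
      ((X (.ofAdd a) : K) * y ^ n) := by
    intro a n
    refine ⟨(e (a, n)).1, (nu e X yU : K) ^ (e (a, n)).2, hun _, ?_, hmon a n⟩
    rw [map_zpow₀, huv, one_zpow]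
  refine ⟨hc0, huv, hCS, ⟨?_, ?_, ?_⟩, ?_, hlast⟩
  · refine Pram.lo_le_lo ?_ ?_
    · unfold CP
      rw [Subring.closure_le]
      rintro t ((⟨a, rfl⟩ | ⟨a, ha, rfl⟩) | ht | ht)
      · exact mok a
      · have h3 := hlast a 0 (by simpa using ha)
        rw [zpow_zero, mul_one] at h3
        exact h3
      · have h3 := hlast 0 1 (by simpa using hη.le)
        rw [ofAdd_zero, map_one, Units.val_one, one_mul, zpow_one] at h3
        have h6 : t = y := ht
        rw [h6]
        exact h3
      · have h6 : t = z := ht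
        rw [h6]
        exact moz
    · intro t ht
      exact mole t (le_lo _ _ ht)
  · intro β
    have h3 := hMo β.toAdd 0
    rw [zpow_zero, mul_one] at h3
    exact h3
  · refine ⟨y, mem_CO_y X y z, ?_, ?_⟩
    · have h3 := hMo 0 1
      rw [ofAdd_zero, map_one, Units.val_one, one_mul, zpow_one] at h3
      exact h3
    · have hMon : ∀ l : L × ℤ, (Mon X yU (.ofAdd l) : K) ∈
          denR (CO k X y z) y (mem_CO_y X y z) := by
        intro l
        rw [Mon_apply, Units.val_mul, Units.val_zpow_eq_zpow_val, hyU]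
        exact mon_den X y z hy0 _ _
      have h3 : CO k (nX e X yU) ((nu e X yU : K) - algebraMap k K c) z ≤
          denR (CO k X y z) y (mem_CO_y X y z) := by
        unfold CO
        rw [Subring.closure_le]
        rintro t ((⟨a, rfl⟩ | ⟨a, rfl⟩) | ht | ht)
        · exact le_denR (mem_CO_alg X y z a)
        · exact hMon (e.symm (a.toAdd, 0))
        · have h4 : (nu e X yU : K) ∈ denR (CO k X y z) y (mem_CO_y X y z) :=
            hMon (e.symm (0, 1))
          have h5 : algebraMap k K c ∈ denR (CO k X y z) y (mem_CO_y X y z) :=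
            le_denR (mem_CO_alg X y z c)
          have h6 : t = (nu e X yU : K) - algebraMap k K c := ht
          rw [h6]
          exact sub_mem h4 h5
        · have h6 : t = z := ht
          rw [h6]
          exact le_denR (mem_CO_z X y z)
      intro t ht
      exact h3 ht
  · have h3 := hMo 0 1
    rw [ofAdd_zero, map_one, Units.val_one, one_mul, zpow_one] at h3
    exact h3

end Pool.Agent.H893.TW
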