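import Pool.Agent.H893.TW.Stm

/-!
# The value of the last coordinate
-/

set_option autoImplicit false
set_option linter.unusedVariables false
set_option linter.unusedSectionVars false

universe u w

namespace Pool.Agent.H893.TW

open Polynomial Pool.Agent.H893 Pool.Agent.W418.LU2
open scoped NNReal

namespace Proot

variable {k K : Type u} {L : Type w} [Field k] [Field K] [Algebra k K] [AddCommGroup L]
  {v : Valuation K ℝ≥0}

/-- Evaluations of elements of large weight, divided by a power, are in the local ring. -/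
lemma mem_of_ge {ω : L →+ ℝ} {X : Multiplicative L →* Kˣ} {y z : K} {R : Subring K} {η : ℝ}
    (hc : ∀ c : k, algebraMap k K c ∈ R) (hy : y ∈ R)
    (hX : ∀ (a : L) (n : ℤ), 0 ≤ ω a + n * η → (X (.ofAdd a) : K) * z ^ n ∈ R)
    {g : AddMonoidAlgebra k (L × ℕ)} {B : ℝ} (hg : g ∈ ge (k := k) (wX ω) B) {n : ℤ}
    (hB : 0 ≤ B + n * η) : ev k X y g * z ^ n ∈ R := by
  refine ge_induction (p := fun g => ev k X y g * z ^ n ∈ R) hg ?_ ?_ ?_
  · rw [map_zero, zero_mul]
    exact R.zero_mem
  · intro μ c hμ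
    rw [wX_apply] at hμ
    have h1 : ev k X y (AddMonoidAlgebra.single μ c) * z ^ n =
        algebraMap k K c * y ^ μ.2 * ((X (.ofAdd μ.1) : K) * z ^ n) := by
      rw [ev_single]
      ring
    rw [h1]
    exact R.mul_mem (R.mul_mem (hc c) (R.pow_mem hy _)) (hX _ _ (by linarith))
  · intro a b ha hb
    rw [map_add, add_mul]
    exact R.add_mem ha hb

/-- The value of the evaluations. -/
lemma v_le_of_ge (hk : ∀ c : k, c ≠ 0 → v (algebraMap k K c) = 1) {ω : L →+ ℝ}
    {X : Multiplicative L →* Kˣ} (hX : ∀ β, v (X (.ofAdd β) : K) = ex (ω β)) {y : K}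
    (hy : v y < 1) {g : AddMonoidAlgebra k (L × ℕ)} {B : ℝ}
    (hg : g ∈ ge (k := k) (wX ω) B) : v (ev k X y g) ≤ ex B := by
  have h0 : v y ≤ ex 0 := by
    rw [ex_zero]
    exact hy.le
  refine v_ev_le hk hX h0 ?_
  rw [wW_zero]
  exact hg

/-- Coefficients of elements of positive weight. -/
lemma coeff_zero_of_ge {ω : L →+ ℝ} {g : AddMonoidAlgebra k (L × ℕ)} {B : ℝ}
    (hg : g ∈ ge (k := k) (wX ω) B) (hB : 0 < B) : g.coeff 0 = 0 := by
  by_contra h
  have h1 := hg 0 h
  rw [map_zero] at h1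
  exact absurd h1 (not_le.2 hB)

end Proot

open Proot

theorem t_root (h1 : S_mo.{u, w}) (h2 : S_dm.{u, w}) (h3 : S_same.{u, w}) (h4 : S_ram.{u, w})
    (h5 : S_unit.{u, w}) (h6 : S_al.{u, w}) : S_root.{u, w} := by
  intro k K L _ _ _ _ _ _ v hk hres htr d ω X y z f S A hA hLv
  have hCS : CS k v ω X y z := S.toPSE.toCS
  obtain ⟨-, -, -, hz0⟩ := h6 htr hCS
  by_contra hcon
  push Not at hcon
  obtain ⟨η, hzη⟩ := exists_ex (x := v z) ((Valuation.ne_zero_iff _).2 hz0)
  have hηA : η < A := by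
    rw [hzη] at hcon
    exact ex_lt.1 hcon
  have hη : 0 < η := by
    have h := S.hz
    rw [hzη] at h
    exact ex_lt_one.1 h
  apply S.ng
  by_cases hω : ∃ a, ω a = η
  · obtain ⟨a, ha⟩ := hω
    have key : ∀ j, j ≠ d → ∃ B : ℝ, 0 < B ∧ (Zd a (d • a) f).coeff j ∈ ge (k := k) (wX ω) B := by
      intro j hj
      rcases lt_or_gt_of_ne hj with hlt | hgt
      · refine ⟨_, ?_, Zd_ge (hLv j)⟩
        rw [map_nsmul, nsmul_eq_mul, ha]
        have h7 : (j : ℝ) < d := by exact_mod_cast hlt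
        have h8 : (j : ℝ) * η - d * η + ((d : ℝ) - j) * A = ((d : ℝ) - j) * (A - η) := by ring
        rw [h8]
        exact mul_pos (by linarith) (by linarith)
      · refine ⟨_, ?_, Zd_ge (S.ge0 j)⟩
        rw [map_nsmul, nsmul_eq_mul, ha]
        have h7 : (d : ℝ) < j := by exact_mod_cast hgt
        have h8 : (j : ℝ) * η - d * η + 0 = ((j : ℝ) - d) * η := by ring
        rw [h8]
        exact mul_pos (by linarith) hη
    have hd : (Zd a (d • a) f).coeff d = f.coeff d := by
      rw [Zd_coeff, sub_self]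
      exact one_mul _
    refine h5 (d := d) hk hres hCS a (d • a) (by rw [ha]; exact hη.le) (by rw [ha]; exact hzη)
      ?_ ?_ ?_
    · intro j
      by_cases hj : j = d
      · rw [hj, hd]
        exact S.ge0 d
      · obtain ⟨B, hB, hB'⟩ := key j hj
        exact ge_mono hB.le hB'
    · rw [hd]
      exact S.top
    · intro j hj
      obtain ⟨B, hB, hB'⟩ := key j hj
      exact coeff_zero_of_ge hB' hB
  · push Not at hω
    -- the two last coordinates are exchanged
    have hCS1 : CS k v ω X z y :=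
      { inj := hCS.inj
        hX := hCS.hX
        hy := hCS.hz
        hz := hCS.hy
        gen := fun F hF hz hy => hCS.gen F hF hy hz
        rr := hCS.rr }
    obtain ⟨-, -, -, -, -, m6, m7, -, -, -, -⟩ := h1 hk hCS1
    have hD1 : Dm k v ω X y z ω X z y :=
      h3 hk hCS hCS1 m7 m6
        (Subring.subset_closure (Or.inr (Or.inr rfl)))
        (Subring.subset_closure (Or.inr (Or.inl rfl)))
    obtain ⟨m0, hm0, a0, ha0⟩ := S.rr z hz0
    obtain ⟨ω', e, m, ys, -⟩ := exists_YS hCS.inj hω ⟨m0, hm0, a0, by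
      rw [hzη, ← ex_nmul, ex_inj] at ha0
      exact ha0.symm⟩ ∅ (by
        intro μ hμ
        exact absurd hμ (Finset.notMem_empty μ))
    obtain ⟨zU, hzU⟩ : ∃ zU : Kˣ, (zU : K) = z := ⟨Units.mk0 z hz0, rfl⟩
    have hnu : v (nu e X zU : K) = 1 := by
      have h7 := ys.v_Mon hCS.hX (y := zU) (by rw [hzU]; exact hzη) (e.symm (0, 1))
      rw [AddEquiv.apply_symm_apply, map_zero, ex_zero] at h7
      exact h7
    obtain ⟨c, hc⟩ := hres (nu e X zU : K) hnu.le
    obtain ⟨-, -, hCS2, hD2, hMz, hmem⟩ := h4 hk hCS1 hη hzη ys zU hzU c hc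
    obtain ⟨n1, n2, n3, n4, n5, n6, n7, n8, n9, n10, n11⟩ := h1 hk hCS2
    have hD : Dm k v ω X y z ω' (nX e X zU) ((nu e X zU : K) - algebraMap k K c) y :=
      ((h2 hk hCS).2 hCS1 hD1).2.2 hCS2 hD2
    refine ⟨ω', nX e X zU, (nu e X zU : K) - algebraMap k K c, y, hCS2, hD, ?_⟩
    -- the power of `z`
    have hMzd : ∀ n : ℕ, Mo k v ω' (nX e X zU) ((nu e X zU : K) - algebraMap k K c) y (z ^ n) := by
      intro n
      induction n with
      | zero =>
        rw [pow_zero]
        exact (n4 1 (Subring.one_mem _) (map_one v)).1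
      | succ n ih =>
        rw [pow_succ]
        exact n1 _ _ ih hMz
    -- the unit
    obtain ⟨N, hN1, hN2⟩ : ∃ N : ℕ, f.natDegree < N ∧ d < N :=
      ⟨max f.natDegree d + 1, by omega, by omega⟩
    have ht : ∀ j : ℕ, j ≠ d → v (ev k X y (f.coeff j) * z ^ ((j : ℤ) - d)) < 1 ∧
        ev k X y (f.coeff j) * z ^ ((j : ℤ) - d) ∈
          PI k v ω' (nX e X zU) ((nu e X zU : K) - algebraMap k K c) y := by
      intro j hj
      obtain ⟨B, hB1, hB2⟩ : ∃ B : ℝ, f.coeff j ∈ ge (k := k) (wX ω) B ∧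
          0 < B + (((j : ℤ) - d : ℤ) : ℝ) * η := by
        rcases lt_or_gt_of_ne hj with hlt | hgt
        · refine ⟨_, hLv j, ?_⟩
          have h7 : (j : ℝ) < d := by exact_mod_cast hlt
          have h8 : ((d : ℝ) - j) * A + (((j : ℤ) - d : ℤ) : ℝ) * η =
              ((d : ℝ) - j) * (A - η) := by
            push_cast
            ring
          rw [h8]
          exact mul_pos (by linarith) (by linarith)
        · refine ⟨_, S.ge0 j, ?_⟩
          have h7 : (d : ℝ) < j := by exact_mod_cast hgt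
          have h8 : 0 + (((j : ℤ) - d : ℤ) : ℝ) * η = ((j : ℝ) - d) * η := by
            push_cast
            ring
          rw [h8]
          exact mul_pos (by linarith) hη
      refine ⟨?_, mem_of_ge n8 n7 hmem hB1 hB2.le⟩
      rw [map_mul, map_zpow₀, hzη, ← ex_zmul]
      refine lt_of_le_of_lt (mul_le_mul_of_nonneg_right (v_le_of_ge hk hCS.hX hCS.hy hB1)
        zero_le) ?_
      rw [← ex_add]
      exact ex_lt_one.2 hB2
    have hvd : v (ev k X y (f.coeff d)) = 1 := by
      obtain ⟨η', hη', hyη'⟩ := exists_pos_ex hCS.hy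
      exact v_ev_unit hk hCS.hX hyη' S.top (sub_single_gt hCS.inj hη' (S.ge0 d))
    have hfdm : ev k X y (f.coeff d) ∈
        PI k v ω' (nX e X zU) ((nu e X zU : K) - algebraMap k K c) y := by
      have h7 := mem_of_ge (z := z) (n := 0) n8 n7 hmem (S.ge0 d) (by simp)
      rw [zpow_zero, mul_one] at h7
      exact h7
    have hdec : EV k X y z f = z ^ d * (ev k X y (f.coeff d) +
        ∑ j ∈ (Finset.range N).erase d, ev k X y (f.coeff j) * z ^ ((j : ℤ) - d)) := by
      rw [EV_eq_sum _ _ _ _ hN1, ← Finset.add_sum_erase _ _ (Finset.mem_range.2 hN2), mul_add,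
        Finset.mul_sum]
      refine congrArg₂ _ (mul_comm _ _) (Finset.sum_congr rfl fun j _ => ?_)
      have h7 : z ^ j = z ^ d * z ^ ((j : ℤ) - d) := by
        rw [← zpow_natCast z d, ← zpow_add₀ hz0, ← zpow_natCast z j]
        exact congrArg _ (by ring)
      rw [h7]
      ring
    have hvs : v (∑ j ∈ (Finset.range N).erase d,
        ev k X y (f.coeff j) * z ^ ((j : ℤ) - d)) < 1 :=
      v.map_sum_lt one_ne_zero fun j hj => (ht j (Finset.ne_of_mem_erase hj)).1
    rw [hdec]
    refine n1 _ _ (hMzd d) (n4 _ ?_ ?_).1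
    · exact Subring.add_mem _ hfdm
        (Subring.sum_mem _ fun j hj => (ht j (Finset.ne_of_mem_erase hj)).2)
    · rw [v.map_add_eq_of_lt_left (by rw [hvd]; exact hvs)]
      exact hvd

end Pool.Agent.H893.TW
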