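import Pool.Agent.H893.TW.Stm

/-!
# TW stepV: unramified steps from a vertex
-/

set_option autoImplicit false
set_option linter.unusedVariables false
set_option linter.unusedSectionVars false

universe u w

namespace Pool.Agent.H893.TW

open Polynomial Pool.Agent.H893 Pool.Agent.W418.LU2
open scoped NNReal

namespace PstepV

variable {k K : Type u} {L : Type w} [Field k] [Field K] [Algebra k K] [AddCommGroup L]
  [Module.Free ℤ L] [Module.Finite ℤ L] {v : Valuation K ℝ≥0}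
  {d : ℕ} {ω : L →+ ℝ} {X : Multiplicative L →* Kˣ}
    {y z : K} {f : (AddMonoidAlgebra k (L × ℕ))[X]}

lemma evEq {γ : L} {A A' b' w : ℝ} {y' z' : K}
    {f' : (AddMonoidAlgebra k (L × ℕ))[X]} {u : K}
    {Φ R : AddMonoidAlgebra k (L × ℕ)} {c : k}
    (h : StpE k v d ω X γ A A' b' w y z f y' z' f' u Φ R c) :
    EV k X y' z' f' = EV k X y z f := by
  have hevc : ∀ t : K, ev k X t (AddMonoidAlgebra.single 0 c) = algebraMap k K c := by
    intro t
    rw [ev_single]
    simp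
  have h1 : EV k X y' z' f' = EV k X u z' (taylor R (ShP γ (taylor Φ f))) := by
    rw [h.hf', mapTau, EV, eval₂_map, EV]
    congr 1
    apply RingHom.ext
    intro t
    change ev k X y' (tau (AddMonoidAlgebra.single 0 c) t) = ev k X u t
    rw [ev_tau, hevc, h.hy', sub_add_cancel]
  rw [h1, h.hz', EV_taylor, EV_ShP, ← h.hu, EV_taylor]

/-- The leading form is a sum of monomials if the slope does not drop. -/
lemma pure {γ : L} {A A' b : ℝ} {y' z' : K}
    {f' : (AddMonoidAlgebra k (L × ℕ))[X]} {u : K}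
    {Φ R : AddMonoidAlgebra k (L × ℕ)} {c : k}
    (h : StpE k v d ω X γ A A' b b y z f y' z' f' u Φ R c) (j : ℕ) (hj : j < d) (i : ℕ)
    (hi : ((LF ω A' d f').coeff j).coeff i ≠ 0) : (i : ℝ) = ((d : ℝ) - j) * b := by
  have hRge : R ∈ ge (k := k) (wX ω) A' := fun μ hμ => (h.R0 μ hμ).1.ge
  have hρ : ∀ i, (slice ω A' R).coeff i ≠ 0 → (i : ℝ) ≤ b := by
    intro i hi
    obtain ⟨β, hβ, h1⟩ := slice_ne ω h.sys.inj hi
    exact (h.R0 _ h1).2
  have hdeg := deg_taylor h.gd h.ggt h.gdeg hρ j hj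
  rw [h.hf', LF_step h.glv hRge, coeff_map] at hi
  set g := (taylor (slice ω A' R) (LF ω A' d (ShP γ (taylor Φ f)))).coeff j with hg
  change (taylor c g).coeff i ≠ 0 at hi
  apply le_antisymm
  · have hg0 : g ≠ 0 := by
      intro h0
      rw [h0, map_zero, coeff_zero] at hi
      exact hi rfl
    have h1 := le_natDegree_of_ne_zero hi
    rw [natDegree_taylor] at h1
    have h2 := hdeg g.natDegree (by rw [coeff_natDegree]; exact leadingCoeff_ne_zero.2 hg0)
    exact (by exact_mod_cast h1 : (i : ℝ) ≤ g.natDegree).trans h2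
  · by_contra hcon
    push Not at hcon
    exact hi (h.gsl j hj i hcon)

/-- A monomial of small degree. -/
lemma low (p : ℕ) [Fact p.Prime] [CharP k p] (hd : 0 < d)
    (htop : (f.coeff d).coeff 0 ≠ 0) {γ : L} {A A' b : ℝ} {y' z' : K}
    {f' : (AddMonoidAlgebra k (L × ℕ))[X]} {u : K}
    {Φ R : AddMonoidAlgebra k (L × ℕ)} {c : k}
    (h : StpE k v d ω X γ A A' b b y z f y' z' f' u Φ R c) (hb : 1 ≤ b) :
    ∃ j < d, ∃ (i : ℕ) (β : L), (i : ℝ) < ((d : ℝ) - j) * b ∧ ω β = ((d : ℝ) - j) * A' ∧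
      ((ShP γ (taylor Φ f)).coeff j).coeff (β, i) ≠ 0 := by
  set G := LF ω A' d (ShP γ (taylor Φ f)) with hG
  suffices hs : ∃ j < d, ∃ i : ℕ, (i : ℝ) < ((d : ℝ) - j) * b ∧ (G.coeff j).coeff i ≠ 0 by
    obtain ⟨j, hj, i, hi, h1⟩ := hs
    rw [hG, LF_coeff] at h1
    obtain ⟨β, hβ, h2⟩ := slice_ne ω h.sys.inj h1
    exact ⟨j, hj, i, β, hi, hβ, h2⟩
  by_contra hcon
  push Not at hcon
  have hiv : ∀ j : ℕ, j < d → iv (((d : ℝ) - j) * b) (((d : ℝ) - j) * (b + 0)) (G.coeff j) := by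
    intro j hj i hi
    rw [add_zero]
    refine ⟨?_, h.gdeg j hj i hi⟩
    by_contra h1
    push Not at h1
    exact hi (hcon j hj i h1)
  by_cases hA : ∃ a, ω a = A'
  · obtain ⟨a, ha⟩ := hA
    have hnp : ∀ ρ, G ≠ C (C ((f.coeff d).coeff 0)) * (Polynomial.X - C ρ) ^ d := by
      intro ρ hρ
      obtain ⟨j, hj, h1⟩ := h.gnp ρ fun h2 => absurd ha (h2 a)
      apply h1
      rw [← hG, hρ, taylor_mul, taylor_C, taylor_pow, map_sub, taylor_X, taylor_C,
        add_sub_cancel_right, coeff_C_mul, coeff_X_pow, if_neg hj.ne, mul_zero]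
    have h2 := lemB p hd htop h.gd h.ggt le_rfl hiv h.hc hnp _ _ h.gsl
    have h3 := h2.2 (by norm_num)
    linarith
  · push Not at hA
    have hR0 : R = 0 := by
      ext μ
      by_contra h1
      exact hA _ (h.R0 μ h1).1
    have h1 := h.gsl
    rw [hR0, map_zero, taylor_zero] at h1
    obtain ⟨j, hj, h2⟩ := h.gnp 0 fun _ => rfl
    rw [taylor_zero] at h2
    have h3 : (0 : ℝ) < (d : ℝ) - j := by
      have : (j : ℝ) < d := by exact_mod_cast hj
      linarith
    have h4 := og_le_width h2 h.hc le_rfl (α := ((d : ℝ) - j) * b) (by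
      have h5 := hiv j hj
      rw [add_zero] at h5
      rw [add_zero]
      exact h5) (h1 j hj)
    nlinarith

/-- The unramified step for a vertex. -/
lemma step (h1 : S_core1.{u, w}) (p : ℕ) [Fact p.Prime] [CharP k p]
    (hk : ∀ c : k, c ≠ 0 → v (algebraMap k K c) = 1)
    (hres : ∀ x : K, v x ≤ 1 → ∃ c : k, v (x - algebraMap k K c) < 1)
    (htr : Algebra.trdeg k K = ((Module.finrank ℤ L + 2 : ℕ) : Cardinal))
    (S : SysE k v d ω X y z f) {γ : L} (hη : 0 < ω γ) (hyη : v y = ex (ω γ))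
    {A b : ℝ} (hV : Vtx ω A b d f) :
    ∃ (y' z' : K) (f' : (AddMonoidAlgebra k (L × ℕ))[X]) (u : K)
      (Φ R : AddMonoidAlgebra k (L × ℕ)) (c : k) (A' w : ℝ) (n : ℕ),
      A' = A + w * ω γ ∧ w ≤ b ∧ 0 ≤ w ∧
      StpE k v d ω X γ A A' (n / d.factorial) w y z f y' z' f' u Φ R c := by
  obtain ⟨y', z', f', u, Φ, R, c, A', w, n, ⟨h1, h2⟩, h3, h4⟩ := h1 p hk hres htr S hη hyη
    hV.A0.le hV.b0 hV.lv hV.sl (A + b * ω γ)
    (fun Φ _ hΦ _ A' h => vtx_bound S.inj hη hV hΦ h)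
    (fun A' w => A' = A + w * ω γ ∧ w ≤ b) (by
      intro Φ hΦ hs A' hA' hLw hatt
      have hup := vtx_bound S.inj hη hV hΦ hLw
      have hlv1 : Lv (wX ω) A d (taylor Φ f) := hV.lv.taylor hΦ
      have hAA' : A ≤ A' := by
        obtain ⟨j, hj, μ, hμ, h1⟩ := hatt
        have h2 := hlv1 j μ hμ
        rw [wX_apply] at h2
        rw [wW_apply] at h1
        have h4 : (0 : ℝ) < (d : ℝ) - j := by
          have : (j : ℝ) < d := by exact_mod_cast hj
          linarith
        have h5 : (0 : ℝ) ≤ μ.2 * ω γ := by positivity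
        exact le_of_mul_le_mul_left (by linarith) h4
      refine ⟨(A' - A) / ω γ, div_nonneg (by linarith) hη.le, ⟨?_, ?_⟩, ?_⟩
      · rw [div_mul_cancel₀ _ hη.ne']
        ring
      · rw [div_le_iff₀ hη]
        linarith
      · intro j μ hj hμ h1
        have h2 := hlv1 j μ hμ
        rw [wX_apply] at h2
        rw [wW_apply] at h1
        rw [← mul_div_assoc, le_div_iff₀ hη]
        linarith)
  exact ⟨y', z', f', u, Φ, R, c, A', w, n, h1, h2, h3, h4⟩

/-- The first vertex. -/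
lemma first (h1 : S_core1.{u, w}) (h2 : S_lb.{u, w}) (p : ℕ) [Fact p.Prime] [CharP k p]
    (hk : ∀ c : k, c ≠ 0 → v (algebraMap k K c) = 1)
    (hres : ∀ x : K, v x ≤ 1 → ∃ c : k, v (x - algebraMap k K c) < 1)
    (htr : Algebra.trdeg k K = ((Module.finrank ℤ L + 2 : ℕ) : Cardinal))
    (S : SysE k v d ω X y z f) {γ : L} (hη : 0 < ω γ) (hyη : v y = ex (ω γ)) :
    ∃ (y' z' : K) (f' : (AddMonoidAlgebra k (L × ℕ))[X]) (A' : ℝ) (n : ℕ),
      SysE k v d ω X y' z' f' ∧ Vtx ω A' (n / d.factorial) d f' := by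
  classical
  obtain ⟨Bd, hBd⟩ := (h2 hk hres htr S).2.2 hη hyη
  obtain ⟨y', z', f', u, Φ, R, c, A', w, n, -, -, h1⟩ :=
    h1 p hk hres htr S hη hyη le_rfl le_rfl (A := 0) (b := 0) (by
      intro j
      rw [mul_zero]
      exact S.ge0 j) (by
      intro j _
      rw [mul_zero]
      exact og_nonpos le_rfl _) Bd (fun Φ hΦ _ _ A' h => hBd Φ hΦ A' h)
      (fun _ _ => True) (by
      intro Φ hΦ hs A' hA' hLw hatt
      set f1 := taylor Φ f with hf1
      let F : Finset (L × ℕ) := (Finset.range (f1.natDegree + 1)).biUnion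
        fun j => (f1.coeff j).coeff.support
      have hF : ∀ j μ, (f1.coeff j).coeff μ ≠ 0 → μ ∈ F := by
        intro j μ hμ
        refine Finset.mem_biUnion.2 ⟨j, ?_, Finsupp.mem_support_iff.2 hμ⟩
        rw [Finset.mem_range]
        by_contra h
        apply hμ
        rw [coeff_eq_zero_of_natDegree_lt (by omega)]
        rfl
      refine ⟨(F.sup Prod.snd : ℕ), Nat.cast_nonneg _, trivial, ?_⟩
      intro j μ hj hμ _
      have h1 : μ.2 ≤ F.sup Prod.snd := Finset.le_sup (f := Prod.snd) (hF j μ hμ)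
      have h2 : (1 : ℝ) ≤ (d : ℝ) - j := by
        have h3 : j + 1 ≤ d := hj
        have h4 : ((j : ℝ) + 1) ≤ d := by exact_mod_cast h3
        linarith
      calc (μ.2 : ℝ) ≤ (F.sup Prod.snd : ℕ) := by exact_mod_cast h1
        _ = 1 * (F.sup Prod.snd : ℕ) := (one_mul _).symm
        _ ≤ ((d : ℝ) - j) * (F.sup Prod.snd : ℕ) :=
          mul_le_mul_of_nonneg_right h2 (Nat.cast_nonneg _))
  exact ⟨y', z', f', A', n, h1.sys, h1.vtx⟩

end PstepV

theorem t_stepV (h1 : S_core1.{u, w}) (h2 : S_lb.{u, w}) : S_stepV.{u, w} ∧ S_stp.{u, w} := by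
  refine ⟨?_, ?_⟩
  · intro k K L _ _ _ _ _ _ v p _ _ hk hres htr d ω X y z f S γ hη hyη
    exact ⟨fun hV => PstepV.step h1 p hk hres htr S hη hyη hV,
      PstepV.first h1 h2 p hk hres htr S hη hyη⟩
  · intro k K L _ _ _ _ _ _ v p _ _ d ω X y z f γ A A' b b' y' z' f' u Φ R c
    exact ⟨fun h => PstepV.evEq h, fun h j hj i hi => PstepV.pure h j hj i hi,
      fun h hd htop hb => PstepV.low p hd htop h hb⟩

end Pool.Agent.H893.TW
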