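import Pool.Agent.H893.TW.Stm

/-!
# Strong uniformization from monomialization
-/

set_option autoImplicit false
set_option linter.unusedVariables false
set_option linter.unusedSectionVars false

universe u w

namespace Pool.Agent.H893.TW

open Polynomial Pool.Agent.H893 Pool.Agent.W418.LU2
open scoped NNReal

namespace Psu2

section aux

variable {k K : Type u} {L : Type w} [Field k] [Field K] [Algebra k K] [AddCommGroup L]

lemma fam2_mem {s : ℕ} (b : Module.Basis (Fin s) ℤ L) (X : Multiplicative L →* Kˣ) (y z : K)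
    (o : Option (Option (Fin s))) : fam2 b X y z o ∈ AC2 k b X y z :=
  Subring.subset_closure (Or.inr ⟨o, rfl⟩)

lemma alg_mem {s : ℕ} (b : Module.Basis (Fin s) ℤ L) (X : Multiplicative L →* Kˣ) (y z : K)
    (c : k) : algebraMap k K c ∈ AC2 k b X y z :=
  Subring.subset_closure (Or.inl ⟨c, rfl⟩)

lemma fam2_CO {s : ℕ} (b : Module.Basis (Fin s) ℤ L) (X : Multiplicative L →* Kˣ) (y z : K)
    (o : Option (Option (Fin s))) : fam2 b X y z o ∈ CO k X y z := by
  rcases o with _ | _ | j
  · exact Subring.subset_closure (Or.inr (Or.inr rfl))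
  · exact Subring.subset_closure (Or.inr (Or.inl rfl))
  · exact Subring.subset_closure (Or.inl (Or.inr ⟨.ofAdd (b j), rfl⟩))

end aux

end Psu2

open Psu2

theorem t_su2 (h1 : S_mo.{u, w}) (h2 : S_dm.{u, w}) (h3 : S_al.{u, w}) (h4 : S_chart2.{u, w})
    (h5 : S_iter.{u, w}) : S_su2.{u, w} := by
  classical
  intro k K L _ _ _ _ _ _ v hk htr ω X y z hCS hmono
  obtain ⟨s0, b0, hb0, -⟩ := exists_chart ω hCS.inj ∅ (by simp)
  obtain ⟨hc0, -⟩ := h4 hk htr hCS
  obtain ⟨hai0, hle0, hX0, hCO0⟩ := hc0 b0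
  have hA0 := hle0 hb0
  obtain ⟨hfrac, hfin⟩ := h5 hk htr (fun h => hmono h) hCS
  refine ⟨Set.range (fam2 b0 X y z), Set.finite_range _, ⟨hA0, ?_⟩, ?_⟩
  · intro t
    obtain ⟨a, ha, b, hb, hb00, rfl⟩ := hfrac t
    obtain ⟨ν1, hν1, g1⟩ := hCO0 a ha
    obtain ⟨ν2, hν2, g2⟩ := hCO0 b hb
    have e1 : (X (.ofAdd ν1) : K) ≠ 0 := Units.ne_zero _
    have e2 : (X (.ofAdd ν2) : K) ≠ 0 := Units.ne_zero _
    refine ⟨(X (.ofAdd ν2) : K) * ((X (.ofAdd ν1) : K) * a), mul_mem (hX0 _ hν2) g1,
      (X (.ofAdd ν1) : K) * ((X (.ofAdd ν2) : K) * b), mul_mem (hX0 _ hν1) g2, ?_, ?_⟩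
    · exact mul_ne_zero e1 (mul_ne_zero e2 hb00)
    · field_simp
  · intro G hG hG0
    set A := AC2 k b0 X y z with hA
    change ∃ (T : Set K) (n : ℕ) (x : Fin n → K), Pool.Agent.H176.DT.St v.valuationSubring A T x ∧
      ∀ g ∈ G, PMon (Pool.Agent.H176.DT.PP v.valuationSubring A T) x g ∧
        (g ∈ v.valuationSubring → g ∈ Pool.Agent.H176.DT.PP v.valuationSubring A T)
    let G1 : Finset K := hG.toFinset ∪ Finset.univ.image (fam2 b0 X y z)
    have hG1 : ∀ t ∈ G1, t ≠ 0 := by
      intro t ht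
      rcases Finset.mem_union.1 ht with h | h
      · exact hG0 t (hG.mem_toFinset.1 h)
      · obtain ⟨o, -, rfl⟩ := Finset.mem_image.1 h
        exact hai0.ne_zero o
    obtain ⟨ω', X', y', z', hCS', hDm, hT⟩ := hfin G1 hG1
    obtain ⟨m1, -⟩ := h1 hk hCS'
    obtain ⟨s, hs, hsM, hsden⟩ := hDm.den
    set σ : L := ∑ j, b0 j with hσ
    have hreprσ : ∀ j, b0.repr σ j = 1 := by
      intro j
      rw [hσ, map_sum, Finsupp.finsetSum_apply, Finset.sum_eq_single j]
      · rw [Module.Basis.repr_self, Finsupp.single_eq_same]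
      · intro i _ hi
        rw [Module.Basis.repr_self, Finsupp.single_eq_of_ne]
        exact fun h => hi h.symm
      · simp
    obtain ⟨ν, hν, hνs⟩ := hCO0 s hs
    have hXσ : (X (.ofAdd σ) : K) ∈ A := hX0 σ (by
      rw [mem_chartP]
      intro j
      rw [hreprσ]
      exact zero_le_one)
    have hσden : ∀ l : L, ∃ N : ℕ, (X (.ofAdd σ) : K) ^ N * (X (.ofAdd l) : K) ∈ A := by
      intro l
      refine ⟨∑ j, (b0.repr l j).natAbs, ?_⟩
      have g1 : (X (.ofAdd σ) : K) ^ (∑ j, (b0.repr l j).natAbs) * (X (.ofAdd l) : K) =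
          (X (.ofAdd ((∑ j, (b0.repr l j).natAbs) • σ + l)) : K) := by
        rw [ofAdd_add, map_mul, Units.val_mul, ofAdd_nsmul, map_pow, Units.val_pow_eq_pow_val]
      rw [g1]
      refine hX0 _ ?_
      rw [mem_chartP]
      intro j
      rw [map_add, map_nsmul, Finsupp.add_apply, Finsupp.smul_apply, hreprσ, nsmul_eq_mul,
        mul_one]
      have g2 := neg_abs_le (b0.repr l j)
      rw [Int.abs_eq_natAbs] at g2
      have g3 : (b0.repr l j).natAbs ≤ ∑ j, (b0.repr l j).natAbs :=
        Finset.single_le_sum (f := fun j => (b0.repr l j).natAbs)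
          (fun _ _ => Nat.zero_le _) (Finset.mem_univ j)
      have g4 : (((b0.repr l j).natAbs : ℕ) : ℤ) ≤
          ((∑ j, (b0.repr l j).natAbs : ℕ) : ℤ) := by exact_mod_cast g3
      linarith
    have hCOden : ∀ t ∈ CO k X y z, ∃ N : ℕ, (X (.ofAdd σ) : K) ^ N * t ∈ A := by
      intro t ht
      obtain ⟨ν', hν', g⟩ := hCO0 t ht
      obtain ⟨N, hN⟩ := hσden (-ν')
      refine ⟨N, ?_⟩
      have e0 : (X (.ofAdd (-ν')) : K) * (X (.ofAdd ν') : K) = 1 := by
        rw [← Units.val_mul, ← map_mul, ← ofAdd_add, neg_add_cancel, ofAdd_zero, map_one,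
          Units.val_one]
      have e : (X (.ofAdd σ) : K) ^ N * t =
          ((X (.ofAdd σ) : K) ^ N * (X (.ofAdd (-ν')) : K)) * ((X (.ofAdd ν') : K) * t) := by
        calc (X (.ofAdd σ) : K) ^ N * t
            = (X (.ofAdd σ) : K) ^ N * ((X (.ofAdd (-ν')) : K) * (X (.ofAdd ν') : K)) * t := by
              rw [e0, mul_one]
          _ = _ := by ring
      rw [e]
      exact mul_mem hN g
    obtain ⟨β, hβdef⟩ : ∃ β : K, β = (X (.ofAdd σ) : K) * ((X (.ofAdd ν) : K) * s) := ⟨_, rfl⟩
    have hβA : β ∈ A := by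
      rw [hβdef]
      exact mul_mem hXσ hνs
    have hβM : Mo k v ω' X' y' z' β := by
      rw [hβdef]
      exact m1 _ _ (hDm.mo _) (m1 _ _ (hDm.mo _) hsM)
    have hden : ∀ t ∈ CO k X' y' z', ∃ M : ℕ, β ^ M * t ∈ A := by
      intro t ht
      obtain ⟨N, hN⟩ := hsden t ht
      obtain ⟨N', hN'⟩ := hCOden _ hN
      refine ⟨N + N', ?_⟩
      have e : β ^ (N + N') * t = (((X (.ofAdd ν) : K) * s) ^ N' * (X (.ofAdd σ) : K) ^ N *
          (X (.ofAdd ν) : K) ^ N) * ((X (.ofAdd σ) : K) ^ N' * (s ^ N * t)) := by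
        rw [hβdef]
        ring
      rw [e]
      exact mul_mem (mul_mem (mul_mem (pow_mem hνs _) (pow_mem hXσ _))
        (pow_mem (hX0 _ hν) _)) hN'
    obtain ⟨hc', hch'⟩ := h4 hk htr hCS'
    obtain ⟨s', b', hb', hch⟩ := hch' (insert β G1) (by
      intro t ht
      rcases Finset.mem_insert.1 ht with h | h
      · rw [h]
        exact hβM
      · exact hT t h)
    obtain ⟨hai', hle', -, -⟩ := hc' b'
    have hS' := hle' hb'
    have hPP : Pool.Agent.H176.DT.PP v.valuationSubring A (Set.range (fam2 b' X' y' z')) =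
        PC2 k v b' X' y' z' := by
      refine lo_eq hS' ?_ ?_
      · unfold AC2
        rw [Subring.closure_le]
        rintro t (⟨c, rfl⟩ | ht)
        · exact Subring.subset_closure (Or.inl (alg_mem b0 X y z c))
        · exact Subring.subset_closure (Or.inr ht)
      · rw [Subring.closure_le]
        rintro t (ht | ht)
        · have g1 : A ≤ PC2 k v b' X' y' z' := by
            rw [hA, AC2, Subring.closure_le]
            rintro t (⟨c, rfl⟩ | ⟨o, rfl⟩)
            · exact le_lo _ _ (alg_mem b' X' y' z' c)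
            · refine (hch _ (Finset.mem_insert_of_mem (Finset.mem_union_right _
                (Finset.mem_image.2 ⟨o, Finset.mem_univ _, rfl⟩)))).2 ?_
              exact hA0 (fam2_mem b0 X y z o)
          exact g1 ht
        · exact le_lo _ _ (Subring.subset_closure (Or.inr ht))
    let e : Fin (s' + 2) ≃ Option (Option (Fin s')) :=
      (finSuccEquiv (s' + 1)).trans (Equiv.optionCongr (finSuccEquiv s'))
    have hrange : Set.range (fun i => fam2 b' X' y' z' (e i)) =
        Set.range (fam2 b' X' y' z') := by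
      ext t
      constructor
      · rintro ⟨i, rfl⟩
        exact ⟨_, rfl⟩
      · rintro ⟨o, rfl⟩
        exact ⟨e.symm o, by
          change fam2 b' X' y' z' (e (e.symm o)) = _
          rw [Equiv.apply_symm_apply]⟩
    have hPM : ∀ t, PMon (PC2 k v b' X' y' z') (fam2 b' X' y' z') t →
        PMon (PC2 k v b' X' y' z') (fun i => fam2 b' X' y' z' (e i)) t := by
      rintro t ⟨u, u0, u1, u2, δ, ht⟩
      refine ⟨u, u0, u1, u2, fun i => δ (e i), ?_⟩
      rw [ht]
      congr 1
      unfold mo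
      exact (Equiv.prod_comp e fun o => fam2 b' X' y' z' o ^ δ o).symm
    refine ⟨Set.range (fam2 b' X' y' z'), s' + 2, fun i => fam2 b' X' y' z' (e i),
      ⟨?_, ?_, ?_⟩, ?_⟩
    · exact Set.finite_range _
    · rw [hPP]
      have g1 : AlgebraicIndependent k (fun i => fam2 b' X' y' z' (e i)) :=
        hai'.comp e e.injective
      have g2 := regP_alg v.valuationSubring (k := k) (fun c => vk_le hk c) (s' + 2)
        (fun i => fam2 b' X' y' z' (e i)) (fun i => hS' (fam2_mem b' X' y' z' _)) g1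
      rw [hrange] at g2
      exact g2
    · -- the denominator
      have g1 : ∀ o, ∃ N : ℕ, β ^ N * fam2 b' X' y' z' o ∈ A := fun o =>
        hden _ (fam2_CO b' X' y' z' o)
      choose M hM using g1
      have g2 : ∀ o, β ^ (∑ o, M o) * fam2 b' X' y' z' o ∈ A := by
        intro o
        have g3 : M o ≤ ∑ o, M o :=
          Finset.single_le_sum (f := M) (fun _ _ => Nat.zero_le _) (Finset.mem_univ o)
        obtain ⟨q, hq⟩ := Nat.exists_eq_add_of_le g3
        rw [hq, pow_add, mul_comm (β ^ M o), mul_assoc]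
        exact mul_mem (pow_mem hβA _) (hM o)
      refine ⟨β ^ (∑ o, M o), pow_mem hβA _, ?_, ?_, fun i => g2 _⟩
      · rw [hPP]
        apply hPM
        have g3 := (hch β (Finset.mem_insert_self _ _)).1
        have g4 : ∀ o, fam2 b' X' y' z' o ≠ 0 := hai'.ne_zero
        generalize (∑ o, M o) = n
        induction n with
        | zero => rw [pow_zero]; exact PMon.one
        | succ n ihn => rw [pow_succ]; exact ihn.mul g4 g3
      · rintro _ ⟨o, rfl⟩
        exact g2 o
    · intro g hg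
      rw [hPP]
      have g1 := hch g (Finset.mem_insert_of_mem (Finset.mem_union_left _
        (hG.mem_toFinset.2 hg)))
      exact ⟨hPM _ g1.1, g1.2⟩

end Pool.Agent.H893.TW
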