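import Pool.Agent.H893.TW.Stm

/-!
# Project TW, task `unit`: the last coordinate is a monomial
-/

set_option autoImplicit false
set_option linter.unusedVariables false
set_option linter.unusedSectionVars false

universe u w

namespace Pool.Agent.H893.TW

open Polynomial Pool.Agent.H893 Pool.Agent.W418.LU2
open scoped NNReal

theorem t_unit (h1 : S_mo.{u, w}) (h2 : S_dm.{u, w}) (h3 : S_same.{u, w}) : S_unit.{u, w} := by
  intro k K L _ _ _ _ _ _ v hk hres d ω X y z f hS a e0 ha hz hge htop hlow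
  -- the new last coordinate
  have hvX : ∀ β : L, v (X (.ofAdd β) : K) = ex (ω β) := hS.hX
  set zz : K := z * (X (.ofAdd (-a)) : K) with hzz
  have hvzz : v zz = 1 := by
    rw [hzz, map_mul, hz, hvX, ← ex_add, map_neg, add_neg_cancel, ex_zero]
  obtain ⟨c1, hc1⟩ := hres zz hvzz.le
  set z1 : K := zz - algebraMap k K c1 with hz1
  have hzz1 : zz = z1 + algebraMap k K c1 := by rw [hz1, sub_add_cancel]
  have hXa : (X (.ofAdd (-a)) : K) * (X (.ofAdd a) : K) = 1 := by
    rw [← Units.val_mul, ← map_mul, ← ofAdd_add, neg_add_cancel, ofAdd_zero, map_one,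
      Units.val_one]
  have hzeq : z = zz * (X (.ofAdd a) : K) := by
    rw [hzz, mul_assoc, hXa, mul_one]
  have hCS : CS k v ω X y z1 := by
    refine ⟨hS.inj, hS.hX, hS.hy, hc1, ?_, hS.rr⟩
    intro F hF1 hF2 hF3
    refine hS.gen F hF1 hF2 ?_
    rw [hzeq]
    refine mul_mem ?_ (hF1 _)
    rw [hzz1]
    exact add_mem hF3 (F.algebraMap_mem c1)
  obtain ⟨-, -, -, -, hXP, hyP, hzP, hcP, hevP, -, -⟩ := h1 hk hCS
  have hzzP : zz ∈ PI k v ω X y z1 := by
    rw [hzz1]
    exact add_mem hzP (hcP c1)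
  have hDm : Dm k v ω X y z ω X y z1 := by
    refine h3 hk hS hCS hyP ?_ ?_ ?_
    · rw [hzeq]
      exact mul_mem hzzP (hXP a ha)
    · exact Subring.subset_closure (Or.inr (Or.inl rfl))
    · rw [hz1, hzz]
      refine sub_mem (mul_mem ?_ ?_) ?_
      · exact Subring.subset_closure (Or.inr (Or.inr rfl))
      · exact Subring.subset_closure (Or.inl (Or.inr ⟨_, rfl⟩))
      · exact Subring.subset_closure (Or.inl (Or.inl ⟨_, rfl⟩))
  refine ⟨ω, X, y, z1, hCS, hDm, e0, EV k X y zz (Zd a e0 f), ?_, ?_, ?_⟩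
  · rw [EV_eq_sum _ _ _ _ (Nat.lt_succ_self (Zd a e0 f).natDegree)]
    refine Subring.sum_mem _ fun j _ => mul_mem (hevP _ (hge j)) (pow_mem hzzP j)
  · obtain ⟨η, hη, hyη⟩ := exists_pos_ex hS.hy
    have hN : (Zd a e0 f).natDegree < max (Zd a e0 f).natDegree d + 1 := by omega
    have hdN : d ∈ Finset.range (max (Zd a e0 f).natDegree d + 1) := by
      rw [Finset.mem_range]
      omega
    rw [EV_eq_sum _ _ _ _ hN, ← Finset.add_sum_erase _ _ hdN]
    have hd1 : v (ev k X y ((Zd a e0 f).coeff d) * zz ^ d) = 1 := by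
      rw [map_mul, map_pow, hvzz, one_pow, mul_one]
      exact v_ev_unit hk hvX hyη htop (sub_single_gt hS.inj hη (hge d))
    rw [v.map_add_eq_of_lt_left]
    · exact hd1
    · rw [hd1]
      refine v.map_sum_lt one_ne_zero fun j hj => ?_
      rw [map_mul, map_pow, hvzz, one_pow, mul_one]
      have h4 := v_ev_lt hk hvX hyη (gt_of_coeff_zero hS.inj hη (hge j)
        (hlow j (Finset.mem_erase.1 hj).1))
      rwa [ex_zero] at h4
  · rw [hzz, EV_Zd, ← mul_assoc, ← Units.val_mul, ← map_mul, ← ofAdd_add, add_neg_cancel,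
      ofAdd_zero, map_one, Units.val_one, one_mul]

end Pool.Agent.H893.TW

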