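import Pool.Agent.H893.TW.Main
import Pool.Agent.H893.TW.P_al
import Pool.Agent.H893.TW.P_mo
import Pool.Agent.H893.TW.P_dm
import Pool.Agent.H893.TW.P_ram
import Pool.Agent.H893.TW.P_el
import Pool.Agent.H893.TW.P_unit
import Pool.Agent.H893.TW.P_root
import Pool.Agent.H893.TW.P_lb
import Pool.Agent.H893.TW.P_core
import Pool.Agent.H893.TW.P_P1v
import Pool.Agent.H893.TW.P_core1
import Pool.Agent.H893.TW.P_stepV
import Pool.Agent.H893.TW.P_dropA1
import Pool.Agent.H893.TW.P_dropB
import Pool.Agent.H893.TW.P_dropB1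
import Pool.Agent.H893.TW.P_dropC
import Pool.Agent.H893.TW.P_prep
import Pool.Agent.H893.TW.P_chart2
import Pool.Agent.H893.TW.P_iter
import Pool.Agent.H893.TW.P_su2

/-!
# Monomialization in two variables over independent values: assembly
-/

set_option autoImplicit false
set_option linter.unusedVariables false
set_option linter.unusedSectionVars false

universe u w

namespace Pool.Agent.H893.TW

theorem h_dm : S_dm.{u, w} := (t_dm t_mo).1

theorem h_same : S_same.{u, w} := (t_dm t_mo).2

theorem h_ram : S_ram.{u, w} := t_ram t_mo h_dm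

theorem h_lin : S_lin.{u, w} := (t_el t_mo h_dm h_same).1

theorem h_div : S_div.{u, w} := (t_el t_mo h_dm h_same).2.1

theorem h_shift : S_shift.{u, w} := (t_el t_mo h_dm h_same).2.2.1

theorem h_lin1 : S_lin1.{u, w} := (t_el t_mo h_dm h_same).2.2.2

theorem h_unit : S_unit.{u, w} := t_unit t_mo h_dm h_same

theorem h_root : S_root.{u, w} := t_root t_mo h_dm h_same h_ram h_unit t_al

theorem h_lb : S_lb.{u, w} := t_lb t_mo h_dm h_same h_ram t_al h_root

theorem h_core : S_core.{u, w} := t_core t_mo h_dm h_same h_ram h_lb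

theorem h_core1 : S_core1.{u, w} := t_core1 t_mo h_dm h_same h_lb

theorem h_iter : S_iter.{u, w} := t_iter t_mo h_dm

theorem h_chart2 : S_chart2.{u, w} := t_chart2 t_mo t_al

theorem h_su2 : S_su2.{u, w} := t_su2 t_mo h_dm t_al h_chart2 h_iter

theorem hyp : Hyp.{u, w} where
  al := t_al
  mo := t_mo
  dm := h_dm
  root := h_root
  lb := h_lb
  P1v := t_P1v h_core h_lb
  stepV := (t_stepV h_core1 h_lb).1
  stp := (t_stepV h_core1 h_lb).2
  dropA1 := t_dropA1 t_mo h_dm h_same h_unit h_root h_lin h_div h_shift h_lin1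
  dropB := t_dropB t_mo h_dm h_same h_ram h_div h_lb
  dropB1 := t_dropB1 h_div h_lin1
  dropC := t_dropC h_lin h_div
  prep := t_prep t_mo h_dm h_same h_lin h_div h_shift h_lin1

end Pool.Agent.H893.TW
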