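import Pool.Agent.H893.TW.Gen

/-!
# Composita
-/

set_option autoImplicit false
set_option linter.unusedVariables false
set_option linter.unusedSectionVars false

universe u

namespace Pool.Agent.H893.TW

open Pool.Agent.W418.LU2 IsLocalRing Polynomial Pool.Agent.H893 Pool.Agent.H893.DD
open Pool.Agent.H176.DT (Mod SU PP St)
open scoped NNReal

lemma comp_field {k K L : Type u} [Field k] [Field K] [Algebra k K] [Field L] [Algebra K L]
    [Algebra k L] [IsScalarTower k K L] (E : IntermediateField k K) (hE : Algebra.EssFiniteType k E)
    (ζ : L) (hζ : IsAlgebraic k ζ) (k' : IntermediateField k L)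
    (hk' : k' = IntermediateField.adjoin k {ζ}) :
    ∃ E' : IntermediateField k' L, (∀ e ∈ E, algebraMap K L e ∈ E') ∧
      Algebra.EssFiniteType k' E' ∧ Algebra.trdeg k' E' = Algebra.trdeg k E ∧
      ∀ F : IntermediateField k' L, (∀ e ∈ E, algebraMap K L e ∈ F) → E' ≤ F := by
  classical
  have hk'a : Algebra.IsAlgebraic k k' := by
    subst hk'
    exact IntermediateField.isAlgebraic_adjoin_simple hζ.isIntegral
  set E' : IntermediateField k' L := IntermediateField.adjoin k' (algebraMap K L '' (E : Set K))
    with hE'
  have h1 : ∀ e ∈ E, algebraMap K L e ∈ E' := fun e he =>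
    IntermediateField.subset_adjoin _ _ ⟨e, he, rfl⟩
  have h2 : ∀ F : IntermediateField k' L, (∀ e ∈ E, algebraMap K L e ∈ F) → E' ≤ F := by
    intro F hF
    rw [hE', IntermediateField.adjoin_le_iff]
    rintro _ ⟨e, he, rfl⟩
    exact hF e he
  refine ⟨E', h1, ?_, ?_, h2⟩
  · rw [IntermediateField.essFiniteType_iff] at hE ⊢
    obtain ⟨S, hS⟩ := hE
    refine ⟨S.image (algebraMap K L), le_antisymm ?_ (h2 _ ?_)⟩
    · rw [IntermediateField.adjoin_le_iff]
      intro z hz
      rw [Finset.coe_image] at hz
      obtain ⟨e, he, rfl⟩ := hz
      refine h1 e ?_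
      rw [← hS]
      exact IntermediateField.subset_adjoin _ _ he
    · intro e he
      have h3 : E ≤ ((IntermediateField.adjoin k' ((S.image (algebraMap K L) : Finset L) :
          Set L)).restrictScalars k).comap (IsScalarTower.toAlgHom k K L) := by
        rw [← hS, IntermediateField.adjoin_le_iff]
        intro e he
        change algebraMap K L e ∈ IntermediateField.adjoin k' _
        refine IntermediateField.subset_adjoin _ _ ?_
        rw [Finset.coe_image]
        exact ⟨e, he, rfl⟩
      exact h3 he
  · -- the algebra structure
    let φ : E →ₐ[k] E' :=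
      { toFun := fun e => ⟨algebraMap K L (e : K), h1 _ e.2⟩
        map_one' := Subtype.ext (by simp)
        map_mul' := fun a b => Subtype.ext (by simp)
        map_zero' := Subtype.ext (by simp)
        map_add' := fun a b => Subtype.ext (by simp)
        commutes' := fun c => Subtype.ext (by
          change algebraMap K L (algebraMap k K c) = _
          rw [← IsScalarTower.algebraMap_apply]
          rfl) }
    letI : Algebra E E' := φ.toRingHom.toAlgebra
    haveI : IsScalarTower k E L := IsScalarTower.of_algebraMap_eq (R := k) (S := E) (A := L)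
      fun c => IsScalarTower.algebraMap_apply k K L c
    haveI : IsScalarTower E E' L := IsScalarTower.of_algebraMap_eq (R := E) (S := E') (A := L)
      fun c => rfl
    have h4 : ∀ w ∈ E', IsAlgebraic E w := by
      let F : IntermediateField k' L :=
        (algebraicClosure E L).toSubfield.toIntermediateField (fun c => by
          have h5 : IsAlgebraic k (algebraMap k' L c) := (hk'a.isAlgebraic c).algebraMap
          exact mem_algebraicClosure_iff.2 (h5.tower_top E))
      have hF : ∀ w, w ∈ F ↔ IsAlgebraic E w := fun w => mem_algebraicClosure_iff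
      intro w hw
      rw [← hF]
      refine h2 F (fun e he => ?_) hw
      rw [hF]
      exact isAlgebraic_algebraMap (⟨e, he⟩ : E)
    have h5 : Algebra.IsAlgebraic E E' := by
      refine ⟨fun w => ?_⟩
      have h6 := h4 w w.2
      exact (isAlgebraic_algebraMap_iff (algebraMap E' L).injective).1 h6
    have h6 := _root_.trdeg_add_eq k E (A := E')
    rw [trdeg_eq_zero (R := E), add_zero] at h6
    have h7 := _root_.trdeg_add_eq k k' (A := E')
    rw [trdeg_eq_zero (R := k), zero_add] at h7
    rw [h7, h6]

end Pool.Agent.H893.TW
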