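import Pool.Agent.H893.TW.All
import Pool.Agent.H893.TW.Asm
import Pool.Agent.H893.AB.Cls2

/-!
# Ruled function fields of deficiency two: the class, base rings, simultaneous uniformization
-/

set_option autoImplicit false
set_option linter.unusedVariables false
set_option linter.unusedSectionVars false

universe u

namespace Pool.Agent.H893.TW

open IsLocalRing Pool.Agent.W418.LU2 Pool.Agent.TH188.QS
open Pool.Agent.H176.DT (Mod SU PP St p_noe)
open Pool.Agent.R187.CT (Good rg fr_mono fr_closure noe_rg gp_move gp_of_su)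
open Pool.Agent.H893.DD Pool.Agent.H893.AB
open scoped NNReal

/-- The valuation `v` of `K` has deficiency two, `K = E(t)`, the rational rank `r` is at least two
and is reached by elements of `E`, the residue field is finitely generated, and `E` contains lifts
of a separating transcendence basis of the residue field. -/
def Rul {k K : Type u} [Field k] [Field K] [Algebra k K] (v : Valuation K ℝ≥0)
    (hk : ∀ c : k, c ≠ 0 → v (algebraMap k K c) = 1) : Prop :=
  ∃ (E : IntermediateField k K) (t : K) (r : ℕ) (x : Fin r → E), Algebra.EssFiniteType k E ∧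
    E ⊔ IntermediateField.adjoin k {t} = ⊤ ∧ 2 ≤ r ∧ (∀ i, x i ≠ 0) ∧
    (∀ m : Fin r → ℤ, ∏ i, v (x i : K) ^ m i = 1 → m = 0) ∧
    (∀ z : K, z ≠ 0 → ∃ n : ℕ, n ≠ 0 ∧ ∃ m : Fin r → ℤ, v z ^ n = ∏ i, v (x i : K) ^ m i) ∧
    (letI := rAlg v hk
     Algebra.EssFiniteType k (Rf v) ∧
      (∃ s : Finset (Rf v), IsTranscendenceBasis k ((↑) : s → Rf v) ∧
        Algebra.IsSeparable (IntermediateField.adjoin k (s : Set (Rf v))) (Rf v) ∧
        ∀ i ∈ s, ∃ y : v.valuationSubring, (y : K) ∈ E ∧
          IsLocalRing.residue v.valuationSubring y = i) ∧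
      Algebra.trdeg k E = Algebra.trdeg k (Rf v) + ((r + 1 : ℕ) : Cardinal) ∧
      Algebra.trdeg k K = Algebra.trdeg k (Rf v) + ((r + 2 : ℕ) : Cardinal))

lemma Rul.su {k K : Type u} [Field k] [Field K] [Algebra k K] (p : ℕ)
    [Fact p.Prime] [CharP k p] [Algebra.EssFiniteType k K] {v : Valuation K ℝ≥0}
    {hk : ∀ c : k, c ≠ 0 → v (algebraMap k K c) = 1} (h : Rul v hk) :
    ∃ U : Set K, U.Finite ∧
      Mod v.valuationSubring (Subring.closure (Set.range (algebraMap k K) ∪ U)) ∧
      SU v.valuationSubring (Subring.closure (Set.range (algebraMap k K) ∪ U)) := by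
  obtain ⟨E, t, r, x, hE, hEt, hr, hx0, hind, hrr, hess, hsg, htrE, htr⟩ := h
  refine su_rul_all hyp h_su2 p v hk E hE t (fun F hF htF => ?_) hess hsg r hr htrE htr x hx0 hind
    hrr
  rw [eq_top_iff, ← hEt, sup_le_iff, IntermediateField.adjoin_le_iff, Set.singleton_subset_iff]
  exact ⟨hF, htF⟩

lemma Rul.nt {k K : Type u} [Field k] [Field K] [Algebra k K] {v : Valuation K ℝ≥0}
    {hk : ∀ c : k, c ≠ 0 → v (algebraMap k K c) = 1} (h : Rul v hk) : ∃ z, z ≠ 0 ∧ v z ≠ 1 := by
  obtain ⟨E, t, r, x, -, -, hr, hx0, hind, -⟩ := h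
  have hr0 : 0 < r := by omega
  refine ⟨x ⟨0, hr0⟩, fun h => hx0 _ (Subtype.ext h), fun h => ?_⟩
  have h2 := hind (Pi.single ⟨0, hr0⟩ 1) (by
    rw [Finset.prod_eq_single ⟨0, hr0⟩]
    · rw [Pi.single_eq_same, zpow_one, h]
    · intro j _ hj
      rw [Pi.single_eq_of_ne hj, zpow_zero]
    · intro h; exact absurd (Finset.mem_univ _) h)
  have h3 := congrFun h2 ⟨0, hr0⟩
  rw [Pi.single_eq_same] at h3
  exact one_ne_zero h3

/-- Ruled valuations of deficiency two are good. -/
theorem good_rul {k K : Type u} [Field k] (p : ℕ) [Fact p.Prime] [CharP k p] [Field K]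
    [Algebra k K] [Algebra.EssFiniteType k K] (v : Valuation K ℝ≥0)
    (hk : ∀ c : k, c ≠ 0 → v (algebraMap k K c) = 1) (h : Rul v hk) :
    Good (algebraMap k K) v.valuationSubring := by
  refine Pool.Agent.R187.CT.good_given (Pool.Agent.H893.EC.hjF k) _ _ ?_ ?_
  · obtain ⟨S, hS, hSV, hSM⟩ := Pool.Agent.H893.DD.exists_mod (k := k) v hk
    refine ⟨S, hS, fun z => ?_⟩
    exact (hSM (rg (algebraMap k K) S) (fun c => Subring.subset_closure
      (Or.inl ⟨c, rfl⟩)) (fun s hs => Subring.subset_closure (Or.inr hs)) (by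
        rw [Subring.closure_le]
        rintro z (⟨c, rfl⟩ | hz)
        · exact Pool.Agent.H893.DD.kV_mem v hk c
        · exact hSV z hz)).2 z
  · intro T hT hTV hTK
    obtain ⟨U, hU, hM, hSU⟩ := h.su p
    have hR : ((algebraMap k K).range : Set K) = Set.range (algebraMap k K) := rfl
    rw [← hR] at hM hSU
    exact fin_of_su v.valuationSubring (algebraMap k K).range U hU hM hSU
      (rg (algebraMap k K) T) T hT ((Pool.Agent.H893.EC.range_union _ T).trans (by rw [hR]))
      ⟨hTV, hTK⟩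

/-- Ruled valuations of deficiency two are good over every ring `R` whose fractions generate the
ground field. -/
theorem good_rul_ring {R k K : Type u} [CommRing R] [Field k] (p : ℕ) [Fact p.Prime] [CharP k p]
    (σ : R →+* k) (hσ : ∀ c : k, ∃ a b : R, σ b ≠ 0 ∧ c = σ a / σ b) [Field K]
    [Algebra k K] [Algebra.EssFiniteType k K] (v : Valuation K ℝ≥0)
    (hk : ∀ c : k, c ≠ 0 → v (algebraMap k K c) = 1) (h : Rul v hk) :
    Good ((algebraMap k K).comp σ) v.valuationSubring := by
  obtain ⟨U, hU, hM, hSU⟩ := h.su p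
  have hR : ((algebraMap k K).range : Set K) = Set.range (algebraMap k K) := rfl
  rw [← hR] at hM hSU
  have hNk : IsNoetherianRing (algebraMap k K).range :=
    isNoetherianRing_of_surjective k _ (algebraMap k K).rangeRestrict
      (algebraMap k K).rangeRestrict_surjective
  set ρ := (algebraMap k K).comp σ with hρ
  set V := v.valuationSubring with hV
  -- the ground field consists of fractions
  have hkA : ∀ (T : Set K) (c : k), algebraMap k K c ∈ lo V.toSubring (rg ρ T) := by
    intro T c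
    obtain ⟨a, b, hb, rfl⟩ := hσ c
    have hb' : ρ b ≠ 0 := (map_ne_zero (algebraMap k K)).2 hb
    refine ⟨ρ a, Subring.subset_closure (Or.inl ⟨a, rfl⟩), ρ b,
      Subring.subset_closure (Or.inl ⟨b, rfl⟩), hb', ?_, ?_⟩
    · change v (ρ b)⁻¹ ≤ 1
      rw [map_inv₀, hρ, RingHom.comp_apply, hk _ hb, inv_one]
    · rw [map_div₀, div_eq_mul_inv]
      rfl
  -- finite generation
  refine ⟨U, hU, fun T hT hTV hTU => ?_⟩
  set A := rg ρ T with hA
  set A' := Subring.closure (((algebraMap k K).range : Set K) ∪ T) with hA'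
  have hle : A ≤ A' := by
    rw [hA, Subring.closure_le]
    rintro z (⟨a, rfl⟩ | hz)
    · exact Subring.subset_closure (Or.inl ⟨σ a, rfl⟩)
    · exact Subring.subset_closure (Or.inr hz)
  have hle' : A' ≤ lo V.toSubring A := by
    rw [hA', Subring.closure_le]
    rintro z (⟨c, rfl⟩ | hz)
    · exact hkA T c
    · exact le_lo _ _ (Subring.subset_closure (Or.inr hz))
  have hloV : lo V.toSubring A ≤ V.toSubring := lo_le hTV
  have hfr : ∀ z, Fr A' z := by
    intro z
    refine fr_closure (algebraMap k K) (A := A') (S := U)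
      (fun a ha => Subring.subset_closure (Or.inl ha)) (fun u hu => fr_mono hle (hTU u hu)) ?_
    exact hM.2 z
  have hM' : Mod V A' := ⟨hle'.trans hloV, hfr⟩
  have hSU' : SU V A' := (su_model V (algebraMap k K).range U hU hM hSU A' T hT rfl hM').1
  exact gp_of_su (Pdown.SU_of hle hle' hSU')

/-- Simultaneous log uniformization over perfect fields: the valuations have deficiency at most
one, or they are ruled of deficiency two. -/
theorem sim_perf3 {k K : Type u} [Field k] (p : ℕ) [Fact p.Prime] [CharP k p] [PerfectField k]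
    [Field K] [Algebra k K] [Algebra.EssFiniteType k K] {m : ℕ} (v : Fin m → Valuation K ℝ≥0)
    (hne : ∀ i j, i ≠ j → (v i).valuationSubring ≠ (v j).valuationSubring)
    (hk : ∀ i, ∀ c : k, c ≠ 0 → v i (algebraMap k K c) = 1)
    (h : ∀ i, (∃ (r : ℕ) (x : Fin r → K), 0 < r ∧ Def1 (v i) (hk i) r ∧ (∀ j, x j ≠ 0) ∧
      (∀ n : Fin r → ℤ, ∏ j, v i (x j) ^ n j = 1 → n = 0) ∧
      ∀ z : K, z ≠ 0 → ∃ n : ℕ, n ≠ 0 ∧ ∃ m : Fin r → ℤ, v i z ^ n = ∏ j, v i (x j) ^ m j) ∨
      Rul (v i) (hk i))
    (G : Set K) (hG : G.Finite) (A : Subring K)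
    (hA : A = Subring.closure (Set.range (algebraMap k K) ∪ G))
    (hAM : ∀ i, Mod (v i).valuationSubring A) (D I₀ : Ideal A) (hD : D ≠ ⊥) (hI₀ : I₀ ≠ ⊥) :
    ∃ I₁ : Ideal A, I₁ ≠ ⊥ ∧ (∀ i, LogDesing (v i).valuationSubring A D (I₀ * I₁)) ∧
      ∀ q : Ideal A, q.IsPrime → I₁ ≤ q → ∃ i, ∀ a : A, v i (a : K) < 1 → a ∈ q := by
  have hR : ((algebraMap k K).range : Set K) = Set.range (algebraMap k K) := rfl
  have hNk : IsNoetherianRing (algebraMap k K).range :=
    isNoetherianRing_of_surjective k _ (algebraMap k K).rangeRestrict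
      (algebraMap k K).rangeRestrict_surjective
  have hN : IsNoetherianRing A := by
    rw [hA, ← hR]
    exact p_noe (algebraMap k K).range G hG
  have hSU : ∀ i, SU (v i).valuationSubring A := by
    intro i
    obtain ⟨U, hU, hM, h1⟩ : ∃ U : Set K, U.Finite ∧
        Mod (v i).valuationSubring (Subring.closure (Set.range (algebraMap k K) ∪ U)) ∧
        SU (v i).valuationSubring (Subring.closure (Set.range (algebraMap k K) ∪ U)) := by
      rcases h i with ⟨r, x, hr, hd, hx0, hind, hrr⟩ | hi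
      · have hess := hd.ess x hx0 hind
        refine su_all_def p (v i) (hk i) hess ?_ r hr hd.tr x hx0 hind hrr
        let _ := rAlg (v i) (hk i)
        have : Algebra.EssFiniteType k (Rf (v i)) := hess
        exact sepGen k _
      · exact hi.su p
    rw [← hR] at hM h1
    exact (su_model (v i).valuationSubring (algebraMap k K).range U hU hM h1 A G hG
      (by rw [hA, ← hR]) (hAM i)).1
  have hnt : ∀ i, ∃ z, z ≠ 0 ∧ v i z ≠ 1 := by
    intro i
    rcases h i with ⟨r, x, hr, hd, hx0, hind, hrr⟩ | hi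
    · refine ⟨x ⟨0, hr⟩, hx0 _, fun h => ?_⟩
      have h2 := hind (Pi.single ⟨0, hr⟩ 1) (by
        rw [Finset.prod_eq_single ⟨0, hr⟩]
        · rw [Pi.single_eq_same, zpow_one, h]
        · intro j _ hj
          rw [Pi.single_eq_of_ne hj, zpow_zero]
        · intro h; exact absurd (Finset.mem_univ _) h)
      have h3 := congrFun h2 ⟨0, hr⟩
      rw [Pi.single_eq_same] at h3
      exact one_ne_zero h3
    · exact hi.nt
  obtain ⟨I₁, h1, h2, h3⟩ := t_sim2 t_stage t_sep A (fun i => (v i).valuationSubring) hAM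
    (fun i a b hb ha hai => arch a b hb ha hai) hSU
    (fun i j hij => by
      obtain ⟨z, hz1, hz2⟩ := exists_sep (v i) (v j) (hnt i) (hnt j) (hne i j hij)
      refine ⟨z, val_lt_one_iff.2 hz1, ?_⟩
      by_contra h
      rw [not_lt] at h
      have h5 := ((v j).valuationSubring.valuation_le_one_iff z).1 h
      rw [mem_vs] at h5
      exact absurd hz2 (not_lt.2 h5)) D I₀ hD hI₀
  refine ⟨I₁, h1, h2, fun q hq hIq => ?_⟩
  obtain ⟨i, hi⟩ := h3 q hq hIq
  exact ⟨i, fun a ha => hi a (val_lt_one_iff.2 ha)⟩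

end Pool.Agent.H893.TW
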