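import Pool.Agent.H893.TW.Rul
import Pool.Agent.H893.AB.Gen

/-!
# Ruled function fields of deficiency two
-/

set_option autoImplicit false
set_option linter.unusedVariables false
set_option linter.unusedSectionVars false

universe u

namespace Pool.Agent.H893.TW

open Pool.Agent.W418.LU2 IsLocalRing Polynomial Pool.Agent.H893 Pool.Agent.H893.DD
open Pool.Agent.H176.DT (Mod SU PP St)
open scoped NNReal

/-- Descent of strong uniformization from an extension by an element of the residue field. -/
theorem desc_ext {k K L : Type u} [Field k] (p : ℕ) [Fact p.Prime] [CharP k p]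
    [Field K] [Algebra k K] [Algebra.EssFiniteType k K] [Field L] [Algebra K L] [Algebra k L]
    [IsScalarTower k K L] (v : Valuation K ℝ≥0)
    (hk : ∀ c : k, c ≠ 0 → v (algebraMap k K c) = 1) (a : K) (m : k[X]) (hm : m.Monic)
    (hirr : Irreducible m) (hsep : m.Separable) (ha : v a ≤ 1) (hma : v (aeval a m) < 1)
    (w : Valuation L ℝ≥0) (ζ : L) (hζm : aeval ζ m = 0) (hζa : w (ζ - algebraMap K L a) < 1)
    (hwv : ∀ z : K, w (algebraMap K L z) = v z) (hgen : ∀ z : L, ∃ f : K[X], aeval ζ f = z)
    (k' : IntermediateField k L) (hk' : k' = IntermediateField.adjoin k {ζ})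
    (e4 : ∀ z : L, z ≠ 0 → ∃ b : K, b ≠ 0 ∧ w z = v b)
    (e6 : (k' : Set L) = (Algebra.adjoin k {ζ} : Set L))
    (r : ℕ) (hr : 0 < r) (x : Fin r → K) (hx0 : ∀ i, x i ≠ 0)
    (hind : ∀ m : Fin r → ℤ, ∏ i, v (x i) ^ m i = 1 → m = 0)
    (hrr : ∀ z : K, z ≠ 0 → ∃ n : ℕ, n ≠ 0 ∧ ∃ m : Fin r → ℤ, v z ^ n = ∏ i, v (x i) ^ m i)
    (hU : ∃ U1 : Set L, U1.Finite ∧
      Mod w.valuationSubring (Subring.closure (Set.range (algebraMap k' L) ∪ U1)) ∧
      SU w.valuationSubring (Subring.closure (Set.range (algebraMap k' L) ∪ U1))) :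
    ∃ U : Set K, U.Finite ∧
      Mod v.valuationSubring (Subring.closure (Set.range (algebraMap k K) ∪ U)) ∧
      SU v.valuationSubring (Subring.closure (Set.range (algebraMap k K) ∪ U)) := by
  classical
  obtain ⟨U1, hU1, hM1, hSU1⟩ := hU
  have hvk : ∀ c : k, v (algebraMap k K c) ≤ 1 := by
    intro c
    by_cases h : c = 0
    · rw [h, map_zero, map_zero]
      exact zero_le_one
    · exact (hk c h).le
  set V := w.valuationSubring with hV
  have hcomap : V.comap (algebraMap K L) = v.valuationSubring := by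
    ext z
    rw [ValuationSubring.mem_comap, hV, mem_vs, mem_vs, hwv]
  have hwk : ∀ c : k, w (algebraMap k L c) ≤ 1 := by
    intro c
    rw [IsScalarTower.algebraMap_apply k K L, hwv]
    exact hvk c
  have hwζ : w ζ ≤ 1 := by
    have h1 : ζ = (ζ - algebraMap K L a) + algebraMap K L a := by ring
    rw [h1]
    refine (w.map_add _ _).trans (max_le hζa.le ?_)
    rw [hwv]
    exact ha
  have hev : ∀ q : k[X], w (aeval ζ q) ≤ 1 := by
    intro q
    rw [aeval_eq_sum_range]
    refine w.map_sum_le fun i _ => ?_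
    rw [Algebra.smul_def, map_mul, map_pow]
    exact mul_le_one₀ (hwk _) zero_le (pow_le_one₀ zero_le hwζ)
  -- the minimal polynomial
  obtain ⟨h, h1, h2, h3, h4, h5⟩ := Pool.Agent.H176.DT.exists_min V ζ (m.map (algebraMap k K))
    (hm.map _) (fun i => by
      rw [coeff_map, hV, mem_vs, hwv]
      exact hvk _) (by rw [aeval_map_algebraMap, hζm]) (by
      rw [derivative_map, aeval_map_algebraMap, hV, val_eq_one_iff]
      obtain ⟨s, t, hst⟩ := hsep
      have h6 : aeval ζ t * aeval ζ (derivative m) = 1 := by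
        have h7 := congrArg (aeval ζ) hst
        rw [map_add, map_mul, map_mul, hζm, mul_zero, zero_add, map_one] at h7
        exact h7
      have h8 := congrArg w h6
      rw [map_mul, map_one] at h8
      refine le_antisymm (hev _) ?_
      rw [← h8]
      exact mul_le_of_le_one_left zero_le (hev _))
  obtain ⟨S0, hS0, hS0V, hS0M⟩ := Pool.Agent.H893.DD.exists_mod v hk
  set S : Set K := S0 ∪ {a} ∪ Set.range (fun i : Fin (h.natDegree + 1) => h.coeff i) with hS
  have hSfin : S.Finite := (hS0.union (Set.finite_singleton a)).union (Set.finite_range _)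
  have hSV : ∀ s ∈ S, v s ≤ 1 := by
    rintro s ((hs | hs) | ⟨i, rfl⟩)
    · exact hS0V s hs
    · rw [Set.mem_singleton_iff.1 hs]
      exact ha
    · have := h2 i
      rw [hV, mem_vs, hwv] at this
      exact this
  set A := Subring.closure (Set.range (algebraMap k K) ∪ S) with hA
  have hAV : A ≤ v.valuationSubring.toSubring := by
    rw [hA, Subring.closure_le]
    rintro z (⟨c, rfl⟩ | hz)
    · exact hvk c
    · exact hSV z hz
  have hkA : ∀ c : k, algebraMap k K c ∈ A := fun c => Subring.subset_closure (Or.inl ⟨c, rfl⟩)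
  have hSA : ∀ s ∈ S, s ∈ A := fun s hs => Subring.subset_closure (Or.inr hs)
  have hAM : Mod v.valuationSubring A :=
    hS0M A hkA (fun s hs => hSA s (Or.inl (Or.inl hs))) hAV
  have hnoe : IsNoetherianRing A := by
    have hR : ((algebraMap k K).range : Set K) = Set.range (algebraMap k K) := rfl
    rw [hA, ← hR]
    exact Pool.Agent.H176.DT.p_noe _ S hSfin
  have hEt : Et V ζ h A :=
    { BV := by rw [hcomap]; exact hAV
      monic := h1
      coeff := by
        intro i
        by_cases hi : i < h.natDegree + 1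
        · exact hSA _ (Or.inr ⟨⟨i, hi⟩, rfl⟩)
        · rw [coeff_eq_zero_of_natDegree_lt (by omega)]
          exact zero_mem _
      root := h3
      der := h4
      min := h5
      gen := hgen
      frac := hAM.2
      noe := hnoe }
  -- the model of the extension
  set Z := Az ζ A with hZ
  have hAZ : ∀ z ∈ A, algebraMap K L z ∈ Z := fun z hz =>
    Subring.subset_closure (Or.inl ⟨z, hz, rfl⟩)
  have hζZ : ζ ∈ Z := Subring.subset_closure (Or.inr rfl)
  have hk'Z : ∀ c : k', (c : L) ∈ Z := by
    intro c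
    have h6 : (c : L) ∈ (Algebra.adjoin k {ζ} : Set L) := by
      rw [← e6]
      exact c.2
    rw [SetLike.mem_coe, Algebra.adjoin_singleton_eq_range_aeval] at h6
    obtain ⟨q, hq⟩ := h6
    rw [← hq]
    change aeval ζ q ∈ Z
    rw [aeval_eq_sum_range]
    refine sum_mem fun i _ => ?_
    rw [Algebra.smul_def]
    refine mul_mem ?_ (pow_mem hζZ _)
    rw [IsScalarTower.algebraMap_apply k K L]
    exact hAZ _ (hkA _)
  have hζk' : ζ ∈ k' := by
    rw [hk']
    exact IntermediateField.mem_adjoin_simple_self k ζ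
  have hZV : Z ≤ V.toSubring := by
    rw [hZ, Subring.closure_le]
    rintro z (⟨z, hz, rfl⟩ | hz)
    · change w (algebraMap K L z) ≤ 1
      rw [hwv]
      exact hAV hz
    · rw [Set.mem_singleton_iff.1 hz]
      exact hwζ
  have hZM : Mod V Z := by
    refine mod_of_clos hZV fun z => ?_
    obtain ⟨f, rfl⟩ := hgen z
    rw [aeval_eq_sum_range]
    refine sum_mem fun i _ => ?_
    rw [Algebra.smul_def]
    refine mul_mem ?_ (pow_mem (Subfield.subset_closure hζZ) _)
    obtain ⟨b, hb, c, hc, -, h6⟩ := hAM.2 (f.coeff i)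
    rw [h6, map_mul, map_inv₀]
    exact mul_mem (Subfield.subset_closure (hAZ b hb)) (inv_mem (Subfield.subset_closure
      (hAZ c hc)))
  set B1 := Subring.closure (Set.range (algebraMap k' L) ∪ U1) with hB1
  have hU1V : ∀ u ∈ U1, u ∈ V := fun u hu => hM1.1 (Subring.subset_closure (Or.inr hu))
  set S' : Set L := algebraMap K L '' S with hS'
  have hS'V : ∀ s ∈ S', s ∈ V := by
    rintro _ ⟨s, hs, rfl⟩
    rw [hV, mem_vs, hwv]
    exact hSV s hs
  have h6 := (Pool.Agent.H176.DT.p_move V B1 hM1 S' (hSfin.image _) hS'V).1 hSU1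
  have h7 : Subring.closure ((B1 : Set L) ∪ S') = Subring.closure ((Z : Set L) ∪ U1) := by
    apply le_antisymm
    · rw [Subring.closure_le]
      rintro z (hz | ⟨s, hs, rfl⟩)
      · refine (?_ : B1 ≤ _) hz
        rw [hB1, Subring.closure_le]
        rintro z (⟨c, rfl⟩ | hz)
        · exact Subring.subset_closure (Or.inl (hk'Z c))
        · exact Subring.subset_closure (Or.inr hz)
      · exact Subring.subset_closure (Or.inl (hAZ s (hSA s hs)))
    · rw [Subring.closure_le]
      rintro z (hz | hz)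
      · refine (?_ : Z ≤ _) hz
        rw [hZ, Subring.closure_le]
        rintro z (⟨z, hz, rfl⟩ | hz)
        · have h8 : A ≤ (Subring.closure ((B1 : Set L) ∪ S')).comap (algebraMap K L) := by
            rw [hA, Subring.closure_le]
            rintro z (⟨c, rfl⟩ | hz)
            · rw [SetLike.mem_coe, Subring.mem_comap, ← IsScalarTower.algebraMap_apply k K L]
              refine Subring.subset_closure (Or.inl (Subring.subset_closure (Or.inl ?_)))
              exact ⟨algebraMap k k' c, rfl⟩
            · exact Subring.subset_closure (Or.inr ⟨z, hz, rfl⟩)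
          exact h8 hz
        · rw [Set.mem_singleton_iff.1 hz]
          exact Subring.subset_closure (Or.inl (Subring.subset_closure (Or.inl ⟨⟨ζ, hζk'⟩, rfl⟩)))
      · exact Subring.subset_closure (Or.inl (Subring.subset_closure (Or.inr hz)))
  rw [h7] at h6
  have hSUZ : SU V Z := (Pool.Agent.H176.DT.p_move V Z hZM U1 hU1 hU1V).2 h6
  -- the descent
  have hnt : ∃ a : K, algebraMap K L a ∈ V ∧ algebraMap K L a⁻¹ ∉ V := by
    have hi : 0 < r := hr
    set y := x ⟨0, hi⟩ with hy
    have hy0 : y ≠ 0 := hx0 _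
    have hvy : v y ≠ 1 := by
      intro h8
      have h9 := hind (Pi.single ⟨0, hi⟩ 1) (by
        rw [Finset.prod_eq_single (⟨0, hi⟩ : Fin r)]
        · rw [Pi.single_eq_same, zpow_one]
          exact h8
        · intro j _ hj
          rw [Pi.single_eq_of_ne hj, zpow_zero]
        · intro h9
          exact absurd (Finset.mem_univ _) h9)
      have h10 := congrFun h9 ⟨0, hi⟩
      rw [Pi.single_eq_same] at h10
      exact one_ne_zero h10
    rcases lt_or_gt_of_ne hvy with h8 | h8
    · refine ⟨y, ?_, ?_⟩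
      · rw [hV, mem_vs, hwv]
        exact h8.le
      · rw [hV, mem_vs, hwv, map_inv₀, not_le]
        exact (one_lt_inv₀ (zero_lt_iff.2 ((Valuation.ne_zero_iff _).2 hy0))).2 h8
    · refine ⟨y⁻¹, ?_, ?_⟩
      · rw [hV, mem_vs, hwv, map_inv₀]
        exact inv_le_one_of_one_le₀ h8.le
      · rw [hV, mem_vs, hwv, inv_inv, not_le]
        exact h8
  have hfin := desc_su (V := V) (ζ := ζ) (t_coord t_colon (t_red t_alg1) t_ord) t_pos t_cmp h A
    hEt ⟨a, hSA a (Or.inl (Or.inr rfl)), by rw [hV, val_lt_one_iff]; exact hζa⟩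
    arch hnt x hx0 (by
      intro z hz
      obtain ⟨b, hb, h8⟩ := e4 z hz
      obtain ⟨n, hn, m, h9⟩ := hrr b hb
      refine ⟨n, Nat.pos_of_ne_zero hn, m, ?_⟩
      rw [← map_pow, hV, val_eq_iff, map_pow, h8, h9, mo, hwv, map_prod]
      refine Finset.prod_congr rfl fun i _ => ?_
      rw [map_zpow₀]) hSUZ
  rw [hcomap] at hfin
  exact ⟨S, hSfin, hAM, hfin⟩


end Pool.Agent.H893.TW
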