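import Pool.Agent.H893.TW.Stm

/-!
# No equations: monomialization
-/

set_option autoImplicit false
set_option linter.unusedVariables false
set_option linter.unusedSectionVars false

universe u w

namespace Pool.Agent.H893.TW

open Polynomial Pool.Agent.H893 Pool.Agent.W418.LU2
open scoped NNReal

/-- All the statements used. -/
structure Hyp : Prop where
  al : S_al.{u, w}
  mo : S_mo.{u, w}
  dm : S_dm.{u, w}
  root : S_root.{u, w}
  lb : S_lb.{u, w}
  P1v : S_P1v.{u, w}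
  stepV : S_stepV.{u, w}
  stp : S_stp.{u, w}
  dropA1 : S_dropA1.{u, w}
  dropB : S_dropB.{u, w}
  dropB1 : S_dropB1.{u, w}
  dropC : S_dropC.{u, w}
  prep : S_prep.{u, w}

section main

variable {k K : Type u} {L : Type w} [Field k] [Field K] [Algebra k K] [AddCommGroup L]
    [Module.Free ℤ L] [Module.Finite ℤ L] {v : Valuation K ℝ≥0}

theorem noSys (H : Hyp.{u, w}) (p : ℕ) [Fact p.Prime] [CharP k p]
    (hk : ∀ c : k, c ≠ 0 → v (algebraMap k K c) = 1)
    (hres : ∀ x : K, v x ≤ 1 → ∃ c : k, v (x - algebraMap k K c) < 1)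
    (htr : Algebra.trdeg k K = ((Module.finrank ℤ L + 2 : ℕ) : Cardinal))
    (hden : ∀ ω : L →+ ℝ, Function.Injective ω → ∀ x y : ℝ, x < y → ∃ a, x < ω a ∧ ω a < y)
    {d0 : ℕ} {ω0 : L →+ ℝ} {X0 : Multiplicative L →* Kˣ} {y0 z0 : K}
    {f0 : (AddMonoidAlgebra k (L × ℕ))[X]} (S0 : SysE k v d0 ω0 X0 y0 z0 f0) : False := by
  classical
  -- the minimal order
  have hD : ∃ (d : ℕ) (ω : L →+ ℝ) (X : Multiplicative L →* Kˣ) (y z : K)
      (f : (AddMonoidAlgebra k (L × ℕ))[X]), SysE k v d ω X y z f :=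
    ⟨d0, ω0, X0, y0, z0, f0, S0⟩
  set d := Nat.find hD with hdd
  obtain ⟨ω1, X1, y1, z1, f1, S1⟩ := Nat.find_spec hD
  rw [← hdd] at S1
  have hno : ∀ (d' : ℕ) (ω : L →+ ℝ) (X : Multiplicative L →* Kˣ) (y z : K)
      (f : (AddMonoidAlgebra k (L × ℕ))[X]), d' < d → SysE k v d' ω X y z f → False :=
    fun d' ω X y z f h1 h2 => Nat.find_min hD h1 ⟨ω, X, y, z, f, h2⟩
  have hd : 0 < d := (H.lb hk hres htr S1).1
  have hD0 : (0 : ℝ) < d.factorial := by exact_mod_cast d.factorial_pos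
  have hyv : ∀ {ω : L →+ ℝ} {X : Multiplicative L →* Kˣ} {y z : K}
      {f : (AddMonoidAlgebra k (L × ℕ))[X]}, SysE k v d ω X y z f →
      ∃ η : ℝ, 0 < η ∧ v y = ex η := by
    intro ω X y z f S
    obtain ⟨η, hη⟩ := exists_ex (x := v y) ((Valuation.ne_zero_iff _).2
      (H.al htr S.toCS).2.2.1)
    refine ⟨η, ?_, hη⟩
    have h1 := S.hy
    rw [hη] at h1
    exact ex_lt_one.1 h1
  -- the minimal slope
  have hR : ∃ (n : ℕ) (ω : L →+ ℝ) (X : Multiplicative L →* Kˣ) (y z : K)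
      (f : (AddMonoidAlgebra k (L × ℕ))[X]) (A : ℝ),
      SysE k v d ω X y z f ∧ Vtx ω A (n / d.factorial) d f := by
    obtain ⟨η, hη, hyη⟩ := hyv S1
    by_cases h1 : ∃ γ, ω1 γ = η
    · obtain ⟨γ, rfl⟩ := h1
      obtain ⟨y', z', f', A', n, h1, h2⟩ := (H.stepV p hk hres htr S1 hη hyη).2
      exact ⟨n, ω1, X1, y', z', f', A', h1, h2⟩
    · push Not at h1
      obtain ⟨ω', X', y', z', f', A', n, h1, h2⟩ := (H.P1v p hk hres htr S1 hη hyη h1).2
      exact ⟨n, ω', X', y', z', f', A', h1, h2⟩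
  set n := Nat.find hR with hn
  obtain ⟨ω2, X2, y2, z2, f2, A2, S2, V2⟩ := Nat.find_spec hR
  rw [← hn] at V2
  set b : ℝ := n / d.factorial with hb
  have hb0 : 0 ≤ b := by positivity
  have hmin : ∀ {n' : ℕ} {ω : L →+ ℝ} {X : Multiplicative L →* Kˣ} {y z : K}
      {f : (AddMonoidAlgebra k (L × ℕ))[X]} {A : ℝ},
      SysE k v d ω X y z f → Vtx ω A (n' / d.factorial) d f → b ≤ n' / d.factorial := by
    intro n' ω X y z f A h1 h2
    have h3 : n ≤ n' := Nat.find_min' hR ⟨ω, X, y, z, f, A, h1, h2⟩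
    rw [hb, div_le_div_iff_of_pos_right hD0]
    exact_mod_cast h3
  have hA1 : ∀ {n' : ℕ} {ω : L →+ ℝ} {X : Multiplicative L →* Kˣ} {y z : K}
      {f : (AddMonoidAlgebra k (L × ℕ))[X]} {A : ℝ},
      SysE k v d ω X y z f → Vtx ω A (n' / d.factorial) d f → (n' : ℝ) / d.factorial < 1 →
      (∃ a, ω a = A) → False := by
    intro n' ω X y z f A h1 h2 h3 h4
    obtain ⟨y', z', f', d1, h5, h6⟩ := H.dropA1 hk hres htr (hden ω h1.inj) h1 h2 h3 h4 ⟨n', rfl⟩
    exact hno _ _ _ _ _ _ h5 h6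
  -- the ramified case
  have hram1 : ∀ {ω : L →+ ℝ} {X : Multiplicative L →* Kˣ} {y z : K}
      {f : (AddMonoidAlgebra k (L × ℕ))[X]} {η A : ℝ}, SysE k v d ω X y z f → 0 < η →
      v y = ex η → (∀ a, ω a ≠ η) → Vtx ω A b d f → b = 0 ∧ (∀ (hA : A = η), False) := by
    intro ω X y z f η A S hη hyη hηω V
    obtain ⟨ω', X', y', z', f', A', n', h1, h2, h3, h4, h5, h6, h7⟩ :=
      (H.P1v p hk hres htr S hη hyη hηω).1 V
    have h8 := hmin h1 h5
    by_cases h9 : ∃ a, ω' a = A'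
    · obtain ⟨h10, h11⟩ := h6 h9
      exact absurd (hA1 h1 h5 (h11 (by linarith)) h9) id
    · have h10 : ∀ a, ω' a ≠ A' := by
        push Not at h9
        exact h9
      have h11 := h7 h10
      have h12 : b = 0 := by linarith
      refine ⟨h12, ?_⟩
      intro hA
      apply h9
      rw [h12, zero_mul, add_zero] at h4
      obtain ⟨a, ha⟩ := h2
      exact ⟨a, by rw [ha]; linarith⟩
  have hram : ∀ {ω : L →+ ℝ} {X : Multiplicative L →* Kˣ} {y z : K}
      {f : (AddMonoidAlgebra k (L × ℕ))[X]} {η A : ℝ}, SysE k v d ω X y z f → 0 < η →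
      v y = ex η → (∀ a, ω a ≠ η) → Vtx ω A b d f → False := by
    intro ω X y z f η A S hη hyη hηω V
    have h0 := (hram1 S hη hyη hηω V).1
    have hAω : ∀ a, ω a ≠ A := by
      intro a ha
      exact hA1 S V (by rw [← hb, h0]; exact one_pos) ⟨a, ha⟩
    have hroot := H.root hk hres htr S V.A0.le V.lv
    rcases hroot.lt_or_eq with h1 | h1
    · have V0 := V
      rw [h0] at V0
      obtain ⟨ω', X', y', z', f', d1, h2, h3⟩ := H.dropB hk hres htr hden S hη hyη hηω V0 h1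
      exact hno _ _ _ _ _ _ h2 h3
    · obtain ⟨y', z', f', A', h2, h3, h4, h5, h6⟩ := H.dropC hk hres htr (hden ω S.inj) S hAω V h1
      exact (hram1 h5 h2 h4 h3 h6).2 rfl
  -- the unramified steps
  have hstep : ∀ (ω : L →+ ℝ) (X : Multiplicative L →* Kˣ) (y z : K)
      (f : (AddMonoidAlgebra k (L × ℕ))[X]) (A : ℝ), SysE k v d ω X y z f → Vtx ω A b d f →
      ∃ (y' z' : K) (f' : (AddMonoidAlgebra k (L × ℕ))[X]) (A' : ℝ) (γ : L)
        (u : K) (Φ R : AddMonoidAlgebra k (L × ℕ)) (c : k),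
        0 < ω γ ∧ v y = ex (ω γ) ∧ A' = A + b * ω γ ∧
        StpE k v d ω X γ A A' b b y z f y' z' f' u Φ R c := by
    intro ω X y z f A S V
    obtain ⟨η, hη, hyη⟩ := hyv S
    have h0 : ∃ γ, ω γ = η := by
      by_contra h0
      push Not at h0
      exact hram S hη hyη h0 V
    obtain ⟨γ, rfl⟩ := h0
    obtain ⟨y', z', f', u, Φ, R, c, A', w, n', h1, h2, h3, h4⟩ :=
      (H.stepV p hk hres htr S hη hyη).1 V
    have h6 := hmin h4.sys h4.vtx
    have h7 := h4.bw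
    have h8 : (n' : ℝ) / d.factorial = b := by linarith
    have h9 : w = b := by linarith
    rw [h8, h9] at h4
    rw [h9] at h1
    exact ⟨y', z', f', A', γ, u, Φ, R, c, hη, hyη, h1, h4⟩
  by_cases hb1 : b < 1
  · obtain ⟨y', z', f', A', γ, u, Φ, R, c, h1, h2, h3, h4⟩ := hstep _ _ _ _ _ _ S2 V2
    by_cases hA : ∃ a, ω2 a = A'
    · exact hA1 h4.sys h4.vtx hb1 hA
    · push Not at hA
      have hpure := (H.stp p (b' := b)).2.1 h4
      have hroot := H.root hk hres htr h4.sys h4.vtx.A0.le h4.vtx.lv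
      rcases hroot.lt_or_eq with h5 | h5
      · obtain ⟨y3, z3, f3, d1, h6, h7⟩ := H.dropB1 hk hres htr (hden ω2 S2.inj) h4.sys h4.vtx hb1
          hpure h5
        exact hno _ _ _ _ _ _ h6 h7
      · obtain ⟨y3, z3, f3, A3, h6, h7, h8, h9, h10⟩ := H.dropC hk hres htr (hden ω2 S2.inj)
          h4.sys hA h4.vtx h5
        exact hram h9 h6 h8 h7 h10
  push Not at hb1
  have hbp : 0 < b := by linarith
  -- the sequence
  let T := {s : K × K × (AddMonoidAlgebra k (L × ℕ))[X] × ℝ //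
    SysE k v d ω2 X2 s.1 s.2.1 s.2.2.1 ∧ Vtx ω2 s.2.2.2 b d s.2.2.1}
  have hT : ∀ s : T, ∃ (s' : T) (γ : L) (u : K)
      (Φ R : AddMonoidAlgebra k (L × ℕ)) (c : k), 0 < ω2 γ ∧ v s.1.1 = ex (ω2 γ) ∧
      s'.1.2.2.2 = s.1.2.2.2 + b * ω2 γ ∧
      StpE k v d ω2 X2 γ s.1.2.2.2 s'.1.2.2.2 b b s.1.1 s.1.2.1 s.1.2.2.1 s'.1.1 s'.1.2.1
        s'.1.2.2.1 u Φ R c := by
    rintro ⟨⟨y, z, f, A⟩, hS, hV⟩
    obtain ⟨y', z', f', A', γ, u, Φ, R, c, h1, h2, h3, h4⟩ := hstep _ _ y z f A hS hV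
    exact ⟨⟨(y', z', f', A'), h4.sys, h4.vtx⟩, γ, u, Φ, R, c, h1, h2, h3, h4⟩
  choose nx γ u Φ R c hγ hv hA hSt using hT
  let s : ℕ → T := fun m => nx^[m] ⟨(y2, z2, f2, A2), S2, V2⟩
  have hs : ∀ m, s (m + 1) = nx (s m) := fun m => Function.iterate_succ_apply' nx m _
  let Γ : ℕ → L := fun m => ∑ i ∈ Finset.range m, γ (s i)
  have hΓ : ∀ m, Γ (m + 1) = Γ m + γ (s m) := fun m => Finset.sum_range_succ _ _
  have hSt' : ∀ m, StpE k v d ω2 X2 (γ (s m)) (s m).1.2.2.2 (s (m + 1)).1.2.2.2 b b (s m).1.1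
      (s m).1.2.1 (s m).1.2.2.1 (s (m + 1)).1.1 (s (m + 1)).1.2.1 (s (m + 1)).1.2.2.1
      (u (s m)) (Φ (s m)) (R (s m)) (c (s m)) := by
    intro m
    rw [hs m]
    exact hSt (s m)
  have hA' : ∀ m, (s (m + 1)).1.2.2.2 = (s m).1.2.2.2 + b * ω2 (γ (s m)) := by
    intro m
    rw [hs m]
    exact hA (s m)
  have hP : PSeq d ω2 b (fun m => (s m).1.2.2.1) Γ (fun m => γ (s m)) (fun m => Φ (s m))
      (fun m => R (s m)) (fun m => c (s m)) (fun m => (s m).1.2.2.2) :=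
    { inj := S2.inj
      Γs := hΓ
      δp := fun m => hγ (s m)
      As := hA'
      A0 := fun m => (s m).2.2.A0
      fs := fun m => (hSt' m).hf'
      lv := fun m => (s m).2.2.lv
      ge0 := fun m => (s m).2.1.ge0
      top := fun m => (s m).2.1.top
      Φ0 := fun m => (hSt' m).Φ0
      ΦA := fun m => (hSt' m).ΦA
      lw := fun m => (hSt' m).lw
      R0 := fun m => (hSt' m).R0
      vert := fun m => (s m).2.2.vert S2.inj
      low := fun m => (H.stp p (b' := b)).2.2 (hSt' m) hd (s m).2.1.top hb1 }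
  refine hP.false p d.factorial_pos hb hbp hd ?_
  -- the bound
  set κ := EV k X2 y2 z2 f2 with hκ
  have hf2 : f2 ≠ 0 := by
    rintro rfl
    exact S2.top (by simp)
  have hκ0 : κ ≠ 0 := by
    intro h
    apply hf2
    apply (H.al htr S2.toCS).1
    rw [← hκ, h, EV, eval₂_zero]
  obtain ⟨K0, hK0⟩ := exists_ex (x := v κ) ((Valuation.ne_zero_iff _).2 hκ0)
  have hEV : ∀ m, EV k X2 (s m).1.1 (s m).1.2.1 (s m).1.2.2.1 = κ := by
    intro m
    induction m with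
    | zero => rfl
    | succ m ih => rw [(H.stp p (b := b) (b' := b)).1 (hSt' m), ih]
  have hΓA : ∀ m, ω2 (Γ m) ≤ (s m).1.2.2.2 := by
    intro m
    induction m with
    | zero =>
      have h1 : Γ 0 = 0 := Finset.sum_range_zero _
      rw [h1, map_zero]
      exact (s 0).2.2.A0.le
    | succ m ih =>
      rw [hΓ, map_add, hA' m]
      have h1 := hγ (s m)
      have h2 : ω2 (γ (s m)) ≤ b * ω2 (γ (s m)) := by nlinarith
      linarith
  refine ⟨K0, fun m => ?_⟩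
  have h1 := (H.lb hk hres htr (s m).2.1).2.1 _ (s m).2.2.A0.le (s m).2.2.lv
  rw [hEV m, hK0, ex_le] at h1
  have h2 : (1 : ℝ) ≤ d := by exact_mod_cast hd
  have h3 := (s m).2.2.A0
  have h4 := hΓA m
  nlinarith

/-- The elements of a coordinate algebra. -/
lemma exists_EV {X : Multiplicative L →* Kˣ} {y z t : K} (ht : t ∈ CO k X y z) :
    ∃ f : (AddMonoidAlgebra k (L × ℕ))[X], t = EV k X y z f := by
  let E : (AddMonoidAlgebra k (L × ℕ))[X] →+* K :=
    eval₂RingHom (ev k X y : AddMonoidAlgebra k (L × ℕ) →+* K) z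
  suffices h : CO k X y z ≤ E.range by
    obtain ⟨f, hf⟩ := h ht
    exact ⟨f, hf.symm⟩
  unfold CO
  rw [Subring.closure_le]
  have hC : ∀ g, E (C g) = ev k X y g := by
    intro g
    change eval₂ _ _ _ = _
    rw [eval₂_C]
    rfl
  rintro z' ((⟨c, rfl⟩ | ⟨l, rfl⟩) | hz')
  · refine ⟨C (AddMonoidAlgebra.single 0 c), ?_⟩
    rw [hC, ev_single]
    simp
  · refine ⟨C (AddMonoidAlgebra.single (l.toAdd, 0) 1), ?_⟩
    rw [hC, ev_single]
    simp
  · rcases hz' with rfl | hz'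
    · refine ⟨C (AddMonoidAlgebra.single (0, 1) 1), ?_⟩
      rw [hC, ev_single]
      simp
    · rw [Set.mem_singleton_iff] at hz'
      subst hz'
      refine ⟨Polynomial.X, ?_⟩
      change eval₂ _ _ _ = _
      rw [eval₂_X]

theorem goal_all (H : Hyp.{u, w}) (p : ℕ) [Fact p.Prime] [CharP k p]
    (hk : ∀ c : k, c ≠ 0 → v (algebraMap k K c) = 1)
    (hres : ∀ x : K, v x ≤ 1 → ∃ c : k, v (x - algebraMap k K c) < 1)
    (htr : Algebra.trdeg k K = ((Module.finrank ℤ L + 2 : ℕ) : Cardinal))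
    (hden : ∀ ω : L →+ ℝ, Function.Injective ω → ∀ x y : ℝ, x < y → ∃ a, x < ω a ∧ ω a < y)
    {ω : L →+ ℝ} {X : Multiplicative L →* Kˣ} {y z : K} (S : CS k v ω X y z) (t : K)
    (ht : t ∈ CO k X y z) (h0 : t ≠ 0) : Goal k v ω X y z t := by
  by_contra hcon
  obtain ⟨f, rfl⟩ := exists_EV ht
  have hf : f ≠ 0 := by
    rintro rfl
    apply h0
    rw [EV, eval₂_zero]
  obtain ⟨y', z', f', d, h1⟩ := H.prep hk (hden ω S.inj) S f hf hcon
  exact noSys H p hk hres htr hden h1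

end main

end Pool.Agent.H893.TW
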