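import Pool.Agent.H893.TW.Stm
import Pool.Agent.H893.N5

/-!
# The order drops (pure case)
-/

set_option autoImplicit false
set_option linter.unusedVariables false
set_option linter.unusedSectionVars false

universe u w

namespace Pool.Agent.H893.TW

open Polynomial Pool.Agent.H893
open scoped NNReal

theorem t_dropB1 (hdv : S_div.{u, w}) (hln : S_lin1.{u, w}) : S_dropB1.{u, w} := by
  intro k K L _ _ _ _ _ _ v hk hres htr d ω X y z f hden S A b hV hb hpure hz
  classical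
  -- the smallest index
  obtain ⟨j1, hj1, i1, hi1, h1⟩ := hV.uns 0 fun _ => rfl
  rw [taylor_zero] at h1
  have hex : ∃ j : ℕ, (LF ω A d f).coeff j ≠ 0 := by
    refine ⟨j1, ?_⟩
    intro h
    rw [h, coeff_zero] at h1
    exact h1 rfl
  set j0 := Nat.find hex with hj0
  have hj0s : (LF ω A d f).coeff j0 ≠ 0 := Nat.find_spec hex
  have hlow : ∀ j : ℕ, j < j0 → (LF ω A d f).coeff j = 0 := fun n hn => by
    by_contra h2
    exact Nat.find_min hex hn h2
  have hj0d : j0 < d := by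
    refine lt_of_le_of_lt (Nat.find_min' hex ?_) hj1
    intro h
    rw [h, coeff_zero] at h1
    exact h1 rfl
  obtain ⟨i0, hi0⟩ : ∃ i, ((LF ω A d f).coeff j0).coeff i ≠ 0 := by
    by_contra hcon
    push Not at hcon
    exact hj0s (Polynomial.ext fun i => by rw [hcon i, coeff_zero])
  have hi0b := hpure j0 hj0d i0 hi0
  rw [LF_coeff] at hi0
  obtain ⟨β0, hβ0, hcst⟩ := slice_ne ω S.inj hi0
  obtain ⟨ε, hε, hgε⟩ := exists_ge_of_gt' (k := k) (w := wX ω)
    (B := fun j : ℕ => ((d : ℝ) - j) * A) (g := fun j => f.coeff j) j0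
    (fun j hj => gt_of_slice ω S.inj (hV.lv j) (by rw [← LF_coeff]; exact hlow j hj))
  obtain ⟨ζ, hζA, hzζ⟩ : ∃ ζ : ℝ, A < ζ ∧ v z ≤ ex ζ := by
    by_cases h3 : v z = 0
    · exact ⟨A + 1, by linarith, by rw [h3]; exact zero_le⟩
    · obtain ⟨ζ, hζ⟩ := exists_ex h3
      refine ⟨ζ, ?_, hζ.le⟩
      rw [hζ] at hz
      exact ex_lt.1 hz
  have hd1 : (0 : ℝ) < (d : ℝ) + 1 := by positivity
  obtain ⟨a0, ha1, ha2⟩ := hden A (min ζ (A + ε / (d + 1)))
    (lt_min hζA (by have := div_pos hε hd1; linarith))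
  have ha3 : ω a0 < ζ := lt_of_lt_of_le ha2 (min_le_left _ _)
  have ha4 : ω a0 < A + ε / (d + 1) := lt_of_lt_of_le ha2 (min_le_right _ _)
  set δ := ω a0 - A with hδ
  have hδ0 : 0 < δ := by linarith
  have hδε : ((d : ℝ) + 1) * δ < ε := by
    have h3 : δ < ε / (d + 1) := by linarith
    rw [lt_div_iff₀ hd1] at h3
    linarith
  set e0 : L := β0 + j0 • a0 with he0
  have he0v : ω e0 = ((d : ℝ) - j0) * A + j0 * ω a0 := by
    rw [he0, map_add, hβ0, map_nsmul, nsmul_eq_mul]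
  have hωa : ω a0 = A + δ := by rw [hδ]; ring
  have hj0R : (j0 : ℝ) < d := by exact_mod_cast hj0d
  have hpos : ∀ j : ℕ, j ≠ j0 → (Zd a0 e0 f).coeff j ∈ gt (k := k) (wX ω) 0 := by
    intro j hj
    rcases lt_or_gt_of_ne hj with h3 | h3
    · refine gt_of_ge ?_ (Zd_ge (hgε j h3))
      rw [he0v, hωa]
      have h4 : (j : ℝ) < j0 := by exact_mod_cast h3
      have h5 : (0 : ℝ) ≤ j := Nat.cast_nonneg j
      nlinarith
    · refine gt_of_ge ?_ (Zd_ge (hV.lv j))
      rw [he0v, hωa]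
      have h4 : (j0 : ℝ) < j := by exact_mod_cast h3
      nlinarith
  have hj0ge : (Zd a0 e0 f).coeff j0 ∈ ge (k := k) (wX ω) 0 := by
    refine ge_mono (le_of_eq ?_) (Zd_ge (hV.lv j0))
    rw [he0v]
    ring
  have hge : ∀ j : ℕ, (Zd a0 e0 f).coeff j ∈ ge (k := k) (wX ω) 0 := by
    intro j
    by_cases hj : j = j0
    · rw [hj]; exact hj0ge
    · exact gt_ge (hpos j hj)
  have hdiv := hdv hk S.toPSE a0 e0 (le_trans hV.A0.le ha1.le) hge 0 (by
    rw [map_zero, sub_zero, map_mul, S.hX, map_neg]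
    have h3 : v z < ex (ω a0) := lt_of_le_of_lt hzζ (ex_lt.2 ha3)
    calc v z * ex (-(ω a0)) < ex (ω a0) * ex (-(ω a0)) :=
          mul_lt_mul_of_pos_right h3 (ex_pos _)
      _ = 1 := by rw [← ex_add, add_neg_cancel, ex_zero])
  rw [AddMonoidAlgebra.single_zero, taylor_zero] at hdiv
  have hcf : ((Zd a0 e0 f).coeff j0).coeff (0, i0) ≠ 0 := by
    have h3 := slice_shift (ω := ω) (j0 • a0 - e0) (((d : ℝ) - j0) * A) (f.coeff j0)
    have h4 : ω (j0 • a0 - e0) + ((d : ℝ) - j0) * A = 0 := by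
      rw [map_sub, he0v, map_nsmul, nsmul_eq_mul]
      ring
    rw [h4, ← Zd_coeff] at h3
    have h5 := slice_coeff ω S.inj ((Zd a0 e0 f).coeff j0) 0 i0
    rw [map_zero, h3] at h5
    rw [← h5]
    exact hi0
  have hij : i0 + j0 < d := by
    have h3 : (0 : ℝ) < (d : ℝ) - j0 := by linarith
    have h4 : ((i0 + j0 : ℕ) : ℝ) < d := by
      push_cast
      rw [hi0b]
      nlinarith
    exact_mod_cast h4
  have hmin : ∀ i j : ℕ, ((Zd a0 e0 f).coeff j).coeff (0, i) ≠ 0 →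
      (i = i0 ∧ j = j0) ∨ i0 + j0 < i + j := by
    intro i j hij'
    left
    by_cases hj : j = j0
    · subst hj
      refine ⟨?_, rfl⟩
      have h3 := slice_shift (ω := ω) (j0 • a0 - e0) (((d : ℝ) - j0) * A) (f.coeff j0)
      have h4 : ω (j0 • a0 - e0) + ((d : ℝ) - j0) * A = 0 := by
        rw [map_sub, he0v, map_nsmul, nsmul_eq_mul]
        ring
      rw [h4, ← Zd_coeff] at h3
      have h5 := slice_coeff ω S.inj ((Zd a0 e0 f).coeff j0) 0 i
      rw [map_zero, h3] at h5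
      rw [← h5, ← LF_coeff] at hij'
      have h6 := hpure j0 hj0d i hij'
      rw [← hi0b] at h6
      exact_mod_cast h6
    · exfalso
      have h3 := hpos j hj (0, i) hij'
      rw [wX_apply, map_zero] at h3
      exact lt_irrefl _ h3
  obtain ⟨y', f', h7⟩ := hln hk hdiv hcf hmin
  exact ⟨y', _, f', i0 + j0, hij, h7⟩


end Pool.Agent.H893.TW
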