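import Pool.Agent.H893.TW.Up
import Pool.Agent.H893.TW.Main

/-!
# Ruled function fields of deficiency two, if the residue field is the ground field
-/

set_option autoImplicit false
set_option linter.unusedVariables false
set_option linter.unusedSectionVars false

universe u w

namespace Pool.Agent.H893.TW

open Pool.Agent.W418.LU2 Polynomial Pool.Agent.H893
open Pool.Agent.H176.DT (Mod SU PP St)
open scoped NNReal

section cs

variable {k K : Type u} {L : Type w} [Field k] [Field K] [Algebra k K] [AddCommGroup L]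
    [Module.Free ℤ L] [Module.Finite ℤ L] {v : Valuation K ℝ≥0}

/-- Strong uniformization of the field generated by the coordinates. -/
theorem su_coord (H : Hyp.{u, w}) (hS : S_su2.{u, w}) (p : ℕ) [Fact p.Prime] [CharP k p]
    (hk : ∀ c : k, c ≠ 0 → v (algebraMap k K c) = 1)
    (hres : ∀ x : K, v x ≤ 1 → ∃ c : k, v (x - algebraMap k K c) < 1)
    (hden : ∀ ω : L →+ ℝ, Function.Injective ω → ∀ x y : ℝ, x < y → ∃ a, x < ω a ∧ ω a < y)
    {ω : L →+ ℝ} {X : Multiplicative L →* Kˣ} {y z : K} (inj : Function.Injective ω)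
    (hX : ∀ β, v (X (.ofAdd β) : K) = ex (ω β)) (hy : v y < 1) (hz : v z < 1)
    (rr : ∀ x : K, x ≠ 0 → ∃ m : ℕ, m ≠ 0 ∧ ∃ a, v x ^ m = ex (ω a))
    (E : IntermediateField k K)
    (hE : E = IntermediateField.adjoin k (Set.range (fun β => (X β : K)) ∪ {y, z}))
    (htr : Algebra.trdeg k E = ((Module.finrank ℤ L + 2 : ℕ) : Cardinal)) :
    ∃ U : Set E, U.Finite ∧
      Mod (v.valuationSubring.comap (algebraMap E K))
        (Subring.closure (Set.range (algebraMap k E) ∪ U)) ∧
      SU (v.valuationSubring.comap (algebraMap E K))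
        (Subring.closure (Set.range (algebraMap k E) ∪ U)) := by
  classical
  have hXE : ∀ β, (X β : K) ∈ E := fun β => by
    rw [hE]
    exact IntermediateField.subset_adjoin _ _ (Or.inl ⟨β, rfl⟩)
  have hyE : y ∈ E := by
    rw [hE]
    exact IntermediateField.subset_adjoin _ _ (Or.inr (Or.inl rfl))
  have hzE : z ∈ E := by
    rw [hE]
    exact IntermediateField.subset_adjoin _ _ (Or.inr (Or.inr rfl))
  have hXE' : ∀ β, ((X β)⁻¹ : K) ∈ E := fun β => inv_mem (hXE β)
  let X0 : Multiplicative L →* Eˣ :=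
    { toFun := fun β => ⟨⟨(X β : K), hXE β⟩, ⟨((X β)⁻¹ : K), hXE' β⟩, by
        apply Subtype.ext
        change (X β : K) * ((X β : K))⁻¹ = 1
        exact mul_inv_cancel₀ (Units.ne_zero _), by
        apply Subtype.ext
        change ((X β : K))⁻¹ * (X β : K) = 1
        exact inv_mul_cancel₀ (Units.ne_zero _)⟩
      map_one' := by
        apply Units.ext
        apply Subtype.ext
        change ((X 1 : Kˣ) : K) = 1
        rw [map_one, Units.val_one]
      map_mul' := by
        intro a b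
        apply Units.ext
        apply Subtype.ext
        change ((X (a * b) : Kˣ) : K) = (X a : K) * (X b : K)
        rw [map_mul, Units.val_mul] }
  set v' := v.comap (algebraMap E K) with hv'
  have S : CS k v' ω X0 (⟨y, hyE⟩ : E) ⟨z, hzE⟩ :=
    { inj := inj
      hX := fun β => hX β
      hy := hy
      hz := hz
      gen := by
        intro F hF1 hF2 hF3
        have h3 : E ≤ IntermediateField.lift F := by
          conv_lhs => rw [hE]
          rw [IntermediateField.adjoin_le_iff]
          rintro t (⟨β, rfl⟩ | ht)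
          · exact (IntermediateField.mem_lift (⟨(X β : K), hXE β⟩ : E)).2 (hF1 β)
          · rcases ht with rfl | ht
            · exact (IntermediateField.mem_lift (⟨t, hyE⟩ : E)).2 hF2
            · rw [Set.mem_singleton_iff] at ht
              subst ht
              exact (IntermediateField.mem_lift (⟨t, hzE⟩ : E)).2 hF3
        rw [eq_top_iff]
        intro z _
        exact (IntermediateField.mem_lift z).1 (h3 z.2)
      rr := fun x hx => rr x fun h => hx (Subtype.ext h) }
  obtain ⟨U, hU, h1, h2⟩ := hS (v := v') (fun c hc => hk c hc) htr S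
    (fun {ω} {X} {y} {z} S t ht h0 => goal_all H p (v := v') (fun c hc => hk c hc)
      (fun x hx => hres x hx) htr hden S t ht h0)
  exact ⟨U, hU, h1, h2⟩

end cs

/-- Ruled function fields of deficiency two. -/
theorem su_rul0 {k K : Type u} [Field k] (H : Hyp.{u, 0}) (hS : S_su2.{u, 0}) (p : ℕ)
    [Fact p.Prime] [CharP k p] [Field K] [Algebra k K] (v : Valuation K ℝ≥0)
    (hk : ∀ c : k, c ≠ 0 → v (algebraMap k K c) = 1)
    (hres : ∀ x : K, v x ≤ 1 → ∃ c : k, v (x - algebraMap k K c) < 1)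
    (E : IntermediateField k K) [Algebra.EssFiniteType k E] (t : K)
    (hEt : ∀ F : IntermediateField k K, E ≤ F → t ∈ F → F = ⊤) (r : ℕ) (hr : 2 ≤ r)
    (htrE : Algebra.trdeg k E = ((r + 1 : ℕ) : Cardinal))
    (htr : Algebra.trdeg k K = ((r + 2 : ℕ) : Cardinal))
    (x : Fin r → E) (hx0 : ∀ i, x i ≠ 0)
    (hind : ∀ m : Fin r → ℤ, ∏ i, v (x i : K) ^ m i = 1 → m = 0)
    (hrr : ∀ z : K, z ≠ 0 → ∃ n : ℕ, n ≠ 0 ∧
      ∃ m : Fin r → ℤ, v z ^ n = ∏ i, v (x i : K) ^ m i) :
    ∃ U : Set K, U.Finite ∧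
      Mod v.valuationSubring (Subring.closure (Set.range (algebraMap k K) ∪ U)) ∧
      SU v.valuationSubring (Subring.closure (Set.range (algebraMap k K) ∪ U)) := by
  classical
  -- normalize the last variable
  obtain ⟨t', ht', hEt'⟩ : ∃ t' : K, v t' < 1 ∧
      ∀ F : IntermediateField k K, E ≤ F → t' ∈ F → F = ⊤ := by
    rcases lt_trichotomy (v t) 1 with h1 | h1 | h1
    · exact ⟨t, h1, hEt⟩
    · obtain ⟨c, hc⟩ := hres t h1.le
      refine ⟨_, hc, fun F hF h2 => hEt F hF ?_⟩
      have h3 := add_mem h2 (F.algebraMap_mem c)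
      rwa [sub_add_cancel] at h3
    · refine ⟨t⁻¹, ?_, fun F hF h2 => hEt F hF ?_⟩
      · rw [map_inv₀]
        exact inv_lt_one_of_one_lt₀ h1
      · have h3 := inv_mem h2
        rwa [inv_inv] at h3
  -- the hypersurface of order one
  set v' := v.comap (algebraMap E K) with hv'
  obtain ⟨ω, X, y, z, f, S⟩ := exists_sys1 (K := E) p v' (fun c hc => hk c hc)
    (fun x hx => hres x hx) r hr htrE x hx0 hind
    (fun z hz => hrr z fun h => hz (Subtype.ext h))
  set X1 : Multiplicative (Fin r → ℤ) →* Kˣ :=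
    (Units.map (algebraMap E K : E →* K)).comp (XK k X) with hX1
  have hX1v : ∀ β, (X1 β : K) = ((XK k X β : E) : K) := fun β => rfl
  set y1 : K := ((y.fst : E) : K) with hy1
  set z1 : K := ((z.fst : E) : K) with hz1
  set E0 : IntermediateField k K :=
    IntermediateField.adjoin k (Set.range (fun β => (X1 β : K)) ∪ {y1, t'}) with hE0
  have hXE : ∀ β, (X1 β : K) ∈ E0 := fun β =>
    IntermediateField.subset_adjoin _ _ (Or.inl ⟨β, rfl⟩)
  have hyE : y1 ∈ E0 := IntermediateField.subset_adjoin _ _ (Or.inr (Or.inl rfl))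
  have htE : t' ∈ E0 := IntermediateField.subset_adjoin _ _ (Or.inr (Or.inr rfl))
  -- the equation
  have hev : ∀ g, ev k X1 y1 g = ((ev k (XK k X) y.fst g : E) : K) := by
    intro g
    have h1 := ev_map (IsScalarTower.toAlgHom k E K) (XK k X) y.fst g
    exact h1
  have hevE : ∀ g, ev k X1 y1 g ∈ E0 := fun g => ev_mem hXE hyE g
  let φ : AddMonoidAlgebra k ((Fin r → ℤ) × ℕ) →+* E0 :=
    ((ev k X1 y1 : AddMonoidAlgebra k ((Fin r → ℤ) × ℕ) →+* K)).codRestrict
      E0.toSubring.toSubsemiring fun g => hevE g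
  have hφ : (algebraMap E0 K).comp φ = (ev k X1 y1 : AddMonoidAlgebra k _ →+* K) := by
    ext1 <;> rfl
  have hφ' : ∀ g, algebraMap E0 K (φ g) = ev k X1 y1 g := fun g => rfl
  set F : E0[X] := f.map φ with hF
  have hFc : ∀ j, algebraMap E0 K (F.coeff j) = ev k X1 y1 (f.coeff j) := by
    intro j
    rw [hF, coeff_map]
    exact hφ' _
  have hFr : aeval z1 F = 0 := by
    rw [aeval_def, hF, eval₂_map, hφ]
    have h1 : eval₂ (ev k (XK k X) y.fst : AddMonoidAlgebra k _ →+* E) z.fst f = 0 :=
      (fst_EV X y z f).symm.trans S.fz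
    have h2 := congrArg (algebraMap E K) h1
    rw [hom_eval₂, map_zero] at h2
    rw [← h2]
    congr 1
    apply RingHom.ext
    intro g
    exact hev g
  obtain ⟨η, hη, hyη⟩ := exists_pos_ex S.hy
  have hFV : ∀ j, v (algebraMap E0 K (F.coeff j)) ≤ 1 := by
    intro j
    rw [hFc, hev, ← ex_zero]
    refine v_ev_le (v := v') (fun c hc => hk c hc) S.hX hyη ?_
    intro μ hμ
    have h4 := S.ge0 j μ hμ
    rw [wX_apply] at h4
    rw [wW_apply]
    positivity
  have hd0 : v (algebraMap E0 K ((derivative F).coeff 0)) = 1 := by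
    rw [coeff_derivative, hF, coeff_map, Nat.cast_zero, zero_add, zero_add, mul_one]
    change v (ev k X1 y1 (f.coeff 1)) = 1
    rw [hev]
    exact Sys.v_d (v := v') (fun c hc => hk c hc) S
  have hclos : ∀ F0 : IntermediateField k K, E0 ≤ F0 → z1 ∈ F0 → F0 = ⊤ := by
    intro F0 h1 h2
    refine hEt' F0 ?_ (h1 htE)
    have h3 : F0.comap (IsScalarTower.toAlgHom k E K) = ⊤ :=
      S.gen _ (fun β => h1 (hXE β)) (h1 hyE) h2
    intro w hw
    have h4 : (⟨w, hw⟩ : E) ∈ F0.comap (IsScalarTower.toAlgHom k E K) := by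
      rw [h3]
      trivial
    exact h4
  have hF0 : F ≠ 0 := by
    intro h
    rw [h] at hd0
    simp at hd0
  have halg : Algebra.trdeg E0 K = 0 := by
    have h1 : IsAlgebraic E0 z1 := ⟨F, hF0, hFr⟩
    have h2 : (IntermediateField.adjoin E0 {z1}).restrictScalars k = ⊤ :=
      hclos _ (fun w hw => (IntermediateField.adjoin E0 {z1}).algebraMap_mem ⟨w, hw⟩)
        (IntermediateField.mem_adjoin_simple_self E0 z1)
    have h3 : Algebra.IsAlgebraic E0 (IntermediateField.adjoin E0 {z1}) :=
      IntermediateField.isAlgebraic_adjoin_simple h1.isIntegral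
    have h4 : Algebra.IsAlgebraic E0 K := by
      refine ⟨fun w => ?_⟩
      have h5 : w ∈ IntermediateField.adjoin E0 {z1} := by
        have h6 : w ∈ (IntermediateField.adjoin E0 {z1}).restrictScalars k := by
          rw [h2]
          trivial
        exact h6
      have h7 := h3.isAlgebraic (⟨w, h5⟩ : IntermediateField.adjoin E0 {z1})
      exact (isAlgebraic_algHom_iff (IntermediateField.adjoin E0 {z1}).val
        (RingHom.injective _)).2 h7
    exact trdeg_eq_zero
  have htr0 : Algebra.trdeg k E0 = ((r + 2 : ℕ) : Cardinal) := by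
    have h1 := _root_.trdeg_add_eq k E0 (A := K)
    rw [halg, add_zero, htr] at h1
    exact h1
  refine et_up E0 z1 F hFr hFV S.hz hd0 hclos ?_
  refine su_coord H hS p hk hres (fun ω => dense_of_rank hr ω) S.inj (X := X1) (y := y1) (z := t')
    (fun β => S.hX β) S.hy ht' ?_ E0 rfl ?_
  · intro w hw
    obtain ⟨n, hn, m, hm⟩ := hrr w hw
    -- the values of the `x i`
    have h1 : ∀ i, ∃ q : ℕ, q ≠ 0 ∧ ∃ a, v (x i : K) ^ q = ex (ω a) := fun i => S.rr (x i) (hx0 i)
    choose q hq a ha using h1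
    refine ⟨n * ∏ i, q i, mul_ne_zero hn (Finset.prod_ne_zero_iff.2 fun i _ => hq i),
      ∑ i, (m i * ∏ j ∈ Finset.univ.erase i, (q j : ℤ)) • a i, ?_⟩
    rw [pow_mul, hm, ← Finset.prod_pow]
    rw [map_sum]
    have h2 : ∀ s : Finset (Fin r), ∀ g : Fin r → ℝ, ex (∑ i ∈ s, g i) = ∏ i ∈ s, ex (g i) := by
      intro s g
      induction s using Finset.induction_on with
      | empty => simp [ex_zero]
      | insert b s hb ih => rw [Finset.sum_insert hb, Finset.prod_insert hb, ex_add, ih]
    rw [h2]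
    refine Finset.prod_congr rfl fun i _ => ?_
    rw [map_zsmul, zsmul_eq_mul]
    have h3 : ∏ j, q j = q i * ∏ j ∈ Finset.univ.erase i, q j :=
      (Finset.mul_prod_erase _ _ (Finset.mem_univ i)).symm
    rw [h3]
    have h4 : ex (((m i * ∏ j ∈ Finset.univ.erase i, (q j : ℤ) : ℤ) : ℝ) * ω (a i)) =
        ex (ω (a i)) ^ (m i * ∏ j ∈ Finset.univ.erase i, (q j : ℤ)) := ex_zmul _ _
    rw [h4, ← ha]
    have h5 : ((∏ j ∈ Finset.univ.erase i, (q j : ℤ) : ℤ)) =
        ((∏ j ∈ Finset.univ.erase i, q j : ℕ) : ℤ) := by push_cast; rfl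
    rw [h5, ← zpow_natCast, ← zpow_natCast, ← zpow_mul, ← zpow_mul]
    congr 1
    push_cast
    ring
  · rw [htr0, Module.finrank_fin_fun]

end Pool.Agent.H893.TW
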