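import Pool.Agent.H893.Fin
import Pool.Agent.H893.G3_drop
import Pool.Agent.H893.N9
import Pool.Agent.H893.SU

/-!
# Statements for the project TW: monomialization in two variables over independent values
-/

set_option autoImplicit false
set_option linter.unusedVariables false
set_option linter.unusedSectionVars false

universe u w

namespace Pool.Agent.H893.TW

open Polynomial Pool.Agent.H893 Pool.Agent.W418.LU2
open scoped NNReal

section defs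

variable (k : Type u) {K : Type u} {L : Type w} [Field k] [Field K] [Algebra k K] [AddCommGroup L]

/-- The algebra of the coordinates. -/
def CO (X : Multiplicative L →* Kˣ) (y z : K) : Subring K :=
  Subring.closure (Set.range (algebraMap k K) ∪ Set.range (fun l => (X l : K)) ∪ {y, z})

/-- The algebra of the coordinates of nonnegative weight. -/
def CP (ω : L →+ ℝ) (X : Multiplicative L →* Kˣ) (y z : K) : Subring K :=
  Subring.closure (Set.range (algebraMap k K) ∪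
    {t | ∃ a : L, 0 ≤ ω a ∧ t = (X (.ofAdd a) : K)} ∪ {y, z})

/-- The local ring of a coordinate system. -/
noncomputable def PI (v : Valuation K ℝ≥0) (ω : L →+ ℝ) (X : Multiplicative L →* Kˣ) (y z : K) : Subring K :=
  lo v.valuationSubring.toSubring (CP k ω X y z)

/-- Monomials in `X` times units. -/
def Mo (v : Valuation K ℝ≥0) (ω : L →+ ℝ) (X : Multiplicative L →* Kˣ) (y z t : K) : Prop :=
  ∃ (β : L) (u : K), u ∈ PI k v ω X y z ∧ v u = 1 ∧ t = (X (.ofAdd β) : K) * u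

/-- Coordinate systems. -/
structure CS (v : Valuation K ℝ≥0) (ω : L →+ ℝ) (X : Multiplicative L →* Kˣ) (y z : K) :
    Prop where
  inj : Function.Injective ω
  hX : ∀ β, v (X (.ofAdd β) : K) = ex (ω β)
  hy : v y < 1
  hz : v z < 1
  gen : ∀ F : IntermediateField k K, (∀ β, (X β : K) ∈ F) → y ∈ F → z ∈ F → F = ⊤
  rr : ∀ x : K, x ≠ 0 → ∃ m : ℕ, m ≠ 0 ∧ ∃ a, v x ^ m = ex (ω a)

/-- The second coordinate system dominates the first one. -/
structure Dm (v : Valuation K ℝ≥0) (ω : L →+ ℝ) (X : Multiplicative L →* Kˣ) (y z : K)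
    (ω' : L →+ ℝ) (X' : Multiplicative L →* Kˣ) (y' z' : K) : Prop where
  le : PI k v ω X y z ≤ PI k v ω' X' y' z'
  mo : ∀ β, Mo k v ω' X' y' z' (X β : K)
  den : ∃ s ∈ CO k X y z, Mo k v ω' X' y' z' s ∧
    ∀ t ∈ CO k X' y' z', ∃ N : ℕ, s ^ N * t ∈ CO k X y z

/-- The element `t` is a monomial times a unit in a dominating coordinate system. -/
def Goal (v : Valuation K ℝ≥0) (ω : L →+ ℝ) (X : Multiplicative L →* Kˣ) (y z t : K) : Prop :=
  ∃ (ω' : L →+ ℝ) (X' : Multiplicative L →* Kˣ) (y' z' : K), CS k v ω' X' y' z' ∧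
    Dm k v ω X y z ω' X' y' z' ∧ Mo k v ω' X' y' z' t

/-- An equation which is not a monomial in any dominating coordinate system. -/
structure PSE (v : Valuation K ℝ≥0) (ω : L →+ ℝ) (X : Multiplicative L →* Kˣ) (y z : K)
    (f : (AddMonoidAlgebra k (L × ℕ))[X]) : Prop extends CS k v ω X y z where
  ge0 : ∀ j, f.coeff j ∈ ge (k := k) (wX ω) 0
  ng : ¬ Goal k v ω X y z (EV k X y z f)

/-- The same with an equation of order `d` in `z`. -/
structure SysE (v : Valuation K ℝ≥0) (d : ℕ) (ω : L →+ ℝ) (X : Multiplicative L →* Kˣ) (y z : K)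
    (f : (AddMonoidAlgebra k (L × ℕ))[X]) : Prop extends PSE k v ω X y z f where
  top : (f.coeff d).coeff 0 ≠ 0
  low : ∀ j < d, (f.coeff j).coeff 0 = 0

/-- The data of an unramified step. -/
structure StpE (v : Valuation K ℝ≥0) (d : ℕ) (ω : L →+ ℝ) (X : Multiplicative L →* Kˣ)
    (γ : L) (A A' b' w : ℝ) (y z : K) (f : (AddMonoidAlgebra k (L × ℕ))[X])
    (y' z' : K) (f' : (AddMonoidAlgebra k (L × ℕ))[X]) (u : K)
    (Φ R : AddMonoidAlgebra k (L × ℕ)) (c : k) : Prop where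
  hc : c ≠ 0
  hu : y = (X (.ofAdd γ) : K) * u
  hy' : y' = u - algebraMap k K c
  hz' : z' = z - ev k X y Φ - ev k X u R
  hf' : f' = mapTau (AddMonoidAlgebra.single 0 c) (taylor R (ShP γ (taylor Φ f)))
  hA' : 0 < A'
  Φ0 : ∀ μ, Φ.coeff μ ≠ 0 → 0 < wW ω (ω γ) μ ∧ wW ω (ω γ) μ < A'
  ΦA : ∀ μ, Φ.coeff μ ≠ 0 → A ≤ ω μ.1
  lw : Lw (wW ω (ω γ)) A' d (taylor Φ f)
  att : ∃ j : ℕ, j < d ∧ ∃ μ, ((taylor Φ f).coeff j).coeff μ ≠ 0 ∧
        wW ω (ω γ) μ = ((d : ℝ) - j) * A'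
  R0 : ∀ μ, R.coeff μ ≠ 0 → ω μ.1 = A' ∧ (μ.2 : ℝ) ≤ w
  sys : SysE k v d ω X y' z' f'
  vtx : Vtx ω A' b' d f'
  gdeg : ∀ j : ℕ, j < d → ∀ i, ((LF ω A' d (ShP γ (taylor Φ f))).coeff j).coeff i ≠ 0 →
    (i : ℝ) ≤ ((d : ℝ) - j) * w
  gd : (LF ω A' d (ShP γ (taylor Φ f))).coeff d = C ((f.coeff d).coeff 0)
  ggt : ∀ j, d < j → (LF ω A' d (ShP γ (taylor Φ f))).coeff j = 0
  gnp : ∀ ρ : k[X], ((∀ a, ω a ≠ A') → ρ = 0) →
    ∃ j < d, (taylor ρ (LF ω A' d (ShP γ (taylor Φ f)))).coeff j ≠ 0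
  glv : Lv (wX ω) A' d (ShP γ (taylor Φ f))
  gsl : Slc c d b' (taylor (slice ω A' R) (LF ω A' d (ShP γ (taylor Φ f))))
  bw : b' ≤ w

end defs

/-- Coordinates are algebraically independent. -/
def S_al : Prop :=
  ∀ {k K : Type u} {L : Type w} [Field k] [Field K] [Algebra k K] [AddCommGroup L]
    [Module.Free ℤ L] [Module.Finite ℤ L] {v : Valuation K ℝ≥0} {ω : L →+ ℝ}
    {X : Multiplicative L →* Kˣ} {y z : K},
    Algebra.trdeg k K = ((Module.finrank ℤ L + 2 : ℕ) : Cardinal) → CS k v ω X y z →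
    Function.Injective (EV k X y z) ∧ Function.Injective (ev k X y) ∧ y ≠ 0 ∧ z ≠ 0

/-- Products and inverses of monomials times units. -/
def S_mo : Prop :=
  ∀ {k K : Type u} {L : Type w} [Field k] [Field K] [Algebra k K] [AddCommGroup L]
    {v : Valuation K ℝ≥0} {ω : L →+ ℝ} {X : Multiplicative L →* Kˣ} {y z : K},
    (∀ c : k, c ≠ 0 → v (algebraMap k K c) = 1) → CS k v ω X y z →
    (∀ t s, Mo k v ω X y z t → Mo k v ω X y z s → Mo k v ω X y z (t * s)) ∧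
    (∀ t, Mo k v ω X y z t → Mo k v ω X y z t⁻¹) ∧
    (∀ β, Mo k v ω X y z (X β : K)) ∧
    (∀ u, u ∈ PI k v ω X y z → v u = 1 → Mo k v ω X y z u ∧ u⁻¹ ∈ PI k v ω X y z) ∧
    (∀ a : L, 0 ≤ ω a → (X (.ofAdd a) : K) ∈ PI k v ω X y z) ∧
    y ∈ PI k v ω X y z ∧ z ∈ PI k v ω X y z ∧ (∀ c : k, algebraMap k K c ∈ PI k v ω X y z) ∧
    (∀ g : AddMonoidAlgebra k (L × ℕ), g ∈ ge (k := k) (wX ω) 0 → ev k X y g ∈ PI k v ω X y z) ∧
    (∀ f : (AddMonoidAlgebra k (L × ℕ))[X], (∀ j, f.coeff j ∈ ge (k := k) (wX ω) 0) →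
      EV k X y z f ∈ PI k v ω X y z) ∧
    (∀ t, t ∈ PI k v ω X y z → v t ≤ 1)

/-- Reflexivity and transitivity. -/
def S_dm : Prop :=
  ∀ {k K : Type u} {L : Type w} [Field k] [Field K] [Algebra k K] [AddCommGroup L]
    {v : Valuation K ℝ≥0}, (∀ c : k, c ≠ 0 → v (algebraMap k K c) = 1) →
    ∀ {ω : L →+ ℝ} {X : Multiplicative L →* Kˣ} {y z : K}, CS k v ω X y z →
    Dm k v ω X y z ω X y z ∧
    ∀ {ω' : L →+ ℝ} {X' : Multiplicative L →* Kˣ} {y' z' : K}, CS k v ω' X' y' z' →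
    Dm k v ω X y z ω' X' y' z' →
      ((∀ t, Mo k v ω X y z t → Mo k v ω' X' y' z' t) ∧
      (∀ t t', (∃ β, t' = (X β : K) * t) → ¬ Goal k v ω X y z t → ¬ Goal k v ω' X' y' z' t') ∧
      ∀ {ω'' : L →+ ℝ} {X'' : Multiplicative L →* Kˣ} {y'' z'' : K}, CS k v ω'' X'' y'' z'' →
      Dm k v ω' X' y' z' ω'' X'' y'' z'' → Dm k v ω X y z ω'' X'' y'' z'')

/-- Changes of the last two coordinates. -/
def S_same : Prop :=
  ∀ {k K : Type u} {L : Type w} [Field k] [Field K] [Algebra k K] [AddCommGroup L]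
    {v : Valuation K ℝ≥0}, (∀ c : k, c ≠ 0 → v (algebraMap k K c) = 1) →
    ∀ {ω : L →+ ℝ} {X : Multiplicative L →* Kˣ} {y z y' z' : K}, CS k v ω X y z →
    CS k v ω X y' z' → y ∈ PI k v ω X y' z' → z ∈ PI k v ω X y' z' → y' ∈ CO k X y z →
    z' ∈ CO k X y z → Dm k v ω X y z ω X y' z'

/-- The ramified change of the coordinate `y`. -/
def S_ram : Prop :=
  ∀ {k K : Type u} {L : Type w} [Field k] [Field K] [Algebra k K] [AddCommGroup L]
    [Module.Free ℤ L] [Module.Finite ℤ L]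
    {v : Valuation K ℝ≥0}, (∀ c : k, c ≠ 0 → v (algebraMap k K c) = 1) →
    ∀ {ω ω' : L →+ ℝ} {η : ℝ} {e : (L × ℤ) ≃+ (L × ℤ)} {m : ℕ} {X : Multiplicative L →* Kˣ}
    {y z : K}, CS k v ω X y z → 0 < η → v y = ex η → YS ω η ω' e m → ∀ (yU : Kˣ), (yU : K) = y →
    ∀ c : k, v ((nu e X yU : K) - algebraMap k K c) < 1 →
    c ≠ 0 ∧ v (nu e X yU : K) = 1 ∧
    CS k v ω' (nX e X yU) ((nu e X yU : K) - algebraMap k K c) z ∧
    Dm k v ω X y z ω' (nX e X yU) ((nu e X yU : K) - algebraMap k K c) z ∧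
    Mo k v ω' (nX e X yU) ((nu e X yU : K) - algebraMap k K c) z y ∧
    ∀ (a : L) (n : ℤ), 0 ≤ ω a + n * η → (X (.ofAdd a) : K) * y ^ n ∈
      PI k v ω' (nX e X yU) ((nu e X yU : K) - algebraMap k K c) z

/-- A generic linear change. -/
def S_lin : Prop :=
  ∀ {k K : Type u} {L : Type w} [Field k] [Field K] [Algebra k K] [AddCommGroup L]
    [Module.Free ℤ L] [Module.Finite ℤ L]
    {v : Valuation K ℝ≥0}, (∀ c : k, c ≠ 0 → v (algebraMap k K c) = 1) →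
    ∀ {ω : L →+ ℝ} {X : Multiplicative L →* Kˣ} {y z : K}
    {f : (AddMonoidAlgebra k (L × ℕ))[X]}, PSE k v ω X y z f → ∀ lam : k,
    PSE k v ω X (y - algebraMap k K lam * z) z (Lc lam f)

/-- Division of the last coordinate. -/
def S_div : Prop :=
  ∀ {k K : Type u} {L : Type w} [Field k] [Field K] [Algebra k K] [AddCommGroup L]
    [Module.Free ℤ L] [Module.Finite ℤ L]
    {v : Valuation K ℝ≥0}, (∀ c : k, c ≠ 0 → v (algebraMap k K c) = 1) →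
    ∀ {ω : L →+ ℝ} {X : Multiplicative L →* Kˣ} {y z : K}
    {f : (AddMonoidAlgebra k (L × ℕ))[X]}, PSE k v ω X y z f → ∀ (a e0 : L), 0 ≤ ω a →
    (∀ j, (Zd a e0 f).coeff j ∈ ge (k := k) (wX ω) 0) → ∀ c1 : k,
    v (z * (X (.ofAdd (-a)) : K) - algebraMap k K c1) < 1 →
    PSE k v ω X y (z * (X (.ofAdd (-a)) : K) - algebraMap k K c1)
      (taylor (AddMonoidAlgebra.single 0 c1) (Zd a e0 f))

/-- Division of the coordinate `y`. -/
def S_shift : Prop :=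
  ∀ {k K : Type u} {L : Type w} [Field k] [Field K] [Algebra k K] [AddCommGroup L]
    [Module.Free ℤ L] [Module.Finite ℤ L]
    {v : Valuation K ℝ≥0}, (∀ c : k, c ≠ 0 → v (algebraMap k K c) = 1) →
    ∀ {ω : L →+ ℝ} {X : Multiplicative L →* Kˣ} {y z : K}
    {f : (AddMonoidAlgebra k (L × ℕ))[X]}, PSE k v ω X y z f → ∀ β : L, 0 < ω β →
    v y < ex (ω β) →
    PSE k v ω X (y * (X (.ofAdd (-β)) : K)) z (ShP β f) ∧
      ∀ j, ((ShP β f).coeff j).coeff 0 = (f.coeff j).coeff 0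

/-- The last coordinate is a monomial, and the equation is equivalent to its power. -/
def S_unit : Prop :=
  ∀ {k K : Type u} {L : Type w} [Field k] [Field K] [Algebra k K] [AddCommGroup L]
    [Module.Free ℤ L] [Module.Finite ℤ L]
    {v : Valuation K ℝ≥0}, (∀ c : k, c ≠ 0 → v (algebraMap k K c) = 1) →
    (∀ x : K, v x ≤ 1 → ∃ c : k, v (x - algebraMap k K c) < 1) →
    ∀ {d : ℕ} {ω : L →+ ℝ} {X : Multiplicative L →* Kˣ} {y z : K}
    {f : (AddMonoidAlgebra k (L × ℕ))[X]}, CS k v ω X y z → ∀ (a e0 : L), 0 ≤ ω a →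
    v z = ex (ω a) → (∀ j, (Zd a e0 f).coeff j ∈ ge (k := k) (wX ω) 0) →
    ((Zd a e0 f).coeff d).coeff 0 ≠ 0 → (∀ j, j ≠ d → ((Zd a e0 f).coeff j).coeff 0 = 0) →
    Goal k v ω X y z (EV k X y z f)

/-- The value of the last coordinate. -/
def S_root : Prop :=
  ∀ {k K : Type u} {L : Type w} [Field k] [Field K] [Algebra k K] [AddCommGroup L]
    [Module.Free ℤ L] [Module.Finite ℤ L]
    {v : Valuation K ℝ≥0}, (∀ c : k, c ≠ 0 → v (algebraMap k K c) = 1) →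
    (∀ x : K, v x ≤ 1 → ∃ c : k, v (x - algebraMap k K c) < 1) →
    Algebra.trdeg k K = ((Module.finrank ℤ L + 2 : ℕ) : Cardinal) →
    ∀ {d : ℕ} {ω : L →+ ℝ} {X : Multiplicative L →* Kˣ} {y z : K}
    {f : (AddMonoidAlgebra k (L × ℕ))[X]}, SysE k v d ω X y z f → ∀ {A : ℝ}, 0 ≤ A →
    Lv (wX ω) A d f → v z ≤ ex A

/-- The value of the equation is bounded by the level, also if the weight of `y` is its value; and
the order is positive. -/
def S_lb : Prop :=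
  ∀ {k K : Type u} {L : Type w} [Field k] [Field K] [Algebra k K] [AddCommGroup L]
    [Module.Free ℤ L] [Module.Finite ℤ L]
    {v : Valuation K ℝ≥0}, (∀ c : k, c ≠ 0 → v (algebraMap k K c) = 1) →
    (∀ x : K, v x ≤ 1 → ∃ c : k, v (x - algebraMap k K c) < 1) →
    Algebra.trdeg k K = ((Module.finrank ℤ L + 2 : ℕ) : Cardinal) →
    ∀ {d : ℕ} {ω : L →+ ℝ} {X : Multiplicative L →* Kˣ} {y z : K}
    {f : (AddMonoidAlgebra k (L × ℕ))[X]}, SysE k v d ω X y z f →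
    0 < d ∧
    (∀ A : ℝ, 0 ≤ A → Lv (wX ω) A d f → v (EV k X y z f) ≤ ex (d * A)) ∧
    ∀ {η : ℝ}, 0 < η → v y = ex η → ∃ Bd : ℝ, ∀ Φ : AddMonoidAlgebra k (L × ℕ),
      Φ ∈ gt (k := k) (wW ω η) 0 → ∀ A', Lw (wW ω η) A' d (taylor Φ f) → A' ≤ Bd

/-- The ramified step for systems. -/
def S_core : Prop :=
  ∀ {k K : Type u} {L : Type w} [Field k] [Field K] [Algebra k K] [AddCommGroup L]
    [Module.Free ℤ L] [Module.Finite ℤ L]
    {v : Valuation K ℝ≥0} (p : ℕ) [Fact p.Prime] [CharP k p],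
    (∀ c : k, c ≠ 0 → v (algebraMap k K c) = 1) →
    (∀ x : K, v x ≤ 1 → ∃ c : k, v (x - algebraMap k K c) < 1) →
    Algebra.trdeg k K = ((Module.finrank ℤ L + 2 : ℕ) : Cardinal) →
    ∀ {d : ℕ} {ω : L →+ ℝ} {X : Multiplicative L →* Kˣ} {y z : K}
    {f : (AddMonoidAlgebra k (L × ℕ))[X]}, SysE k v d ω X y z f → ∀ {η : ℝ}, 0 < η →
    v y = ex η → (∀ a, ω a ≠ η) → ∀ {A b : ℝ}, 0 ≤ A → 0 ≤ b → Lv (wX ω) A d f →
    Slc 0 d b (LF ω A d f) → ∀ Bd : ℝ,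
    (∀ Φ : AddMonoidAlgebra k (L × ℕ), Φ ∈ gt (k := k) (wW ω η) 0 →
      Φ ∈ ge (k := k) (wX ω) A → og b (slice ω A Φ) → ∀ A', Lw (wW ω η) A' d (taylor Φ f) →
      A' ≤ Bd) → ∀ Q : ℝ → ℝ → Prop,
    (∀ Φ : AddMonoidAlgebra k (L × ℕ), Φ ∈ ge (k := k) (wX ω) A → og b (slice ω A Φ) →
      ∀ A', 0 < A' → Lw (wW ω η) A' d (taylor Φ f) →
      (∃ j : ℕ, j < d ∧ ∃ μ, ((taylor Φ f).coeff j).coeff μ ≠ 0 ∧
        wW ω η μ = ((d : ℝ) - j) * A') →
      ∃ w : ℝ, 0 ≤ w ∧ Q A' w ∧ ∀ (j : ℕ) (μ : L × ℕ), j < d →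
        ((taylor Φ f).coeff j).coeff μ ≠ 0 → wW ω η μ = ((d : ℝ) - j) * A' →
        (μ.2 : ℝ) ≤ ((d : ℝ) - j) * w) →
    ∃ (ω' : L →+ ℝ) (X' : Multiplicative L →* Kˣ) (y' z' : K)
      (f' : (AddMonoidAlgebra k (L × ℕ))[X]) (A' w : ℝ) (n : ℕ),
      SysE k v d ω' X' y' z' f' ∧
      (∃ a, ω' a = η) ∧ Q A' w ∧ 0 ≤ w ∧ Vtx ω' A' (n / d.factorial) d f' ∧
      ((∃ a, ω' a = A') → (n : ℝ) / d.factorial ≤ w / 2 + 1 / 2 ∧
        (w ≤ 1 → (n : ℝ) / d.factorial < 1)) ∧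
      ((∀ a, ω' a ≠ A') → (n : ℝ) / d.factorial ≤ w / 2)

/-- The ramified step from a vertex, and the first vertex. -/
def S_P1v : Prop :=
  ∀ {k K : Type u} {L : Type w} [Field k] [Field K] [Algebra k K] [AddCommGroup L]
    [Module.Free ℤ L] [Module.Finite ℤ L]
    {v : Valuation K ℝ≥0} (p : ℕ) [Fact p.Prime] [CharP k p],
    (∀ c : k, c ≠ 0 → v (algebraMap k K c) = 1) →
    (∀ x : K, v x ≤ 1 → ∃ c : k, v (x - algebraMap k K c) < 1) →
    Algebra.trdeg k K = ((Module.finrank ℤ L + 2 : ℕ) : Cardinal) →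
    ∀ {d : ℕ} {ω : L →+ ℝ} {X : Multiplicative L →* Kˣ} {y z : K}
    {f : (AddMonoidAlgebra k (L × ℕ))[X]}, SysE k v d ω X y z f → ∀ {η : ℝ}, 0 < η →
    v y = ex η → (∀ a, ω a ≠ η) →
    (∀ {A b : ℝ}, Vtx ω A b d f → ∃ (ω' : L →+ ℝ) (X' : Multiplicative L →* Kˣ) (y' z' : K)
      (f' : (AddMonoidAlgebra k (L × ℕ))[X]) (A' : ℝ) (n : ℕ),
      SysE k v d ω' X' y' z' f' ∧ (∃ a, ω' a = η) ∧ A ≤ A' ∧ A' ≤ A + b * η ∧
      Vtx ω' A' (n / d.factorial) d f' ∧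
      ((∃ a, ω' a = A') → (n : ℝ) / d.factorial ≤ b / 2 + 1 / 2 ∧
        (b ≤ 1 → (n : ℝ) / d.factorial < 1)) ∧
      ((∀ a, ω' a ≠ A') → (n : ℝ) / d.factorial ≤ b / 2)) ∧
    ∃ (ω' : L →+ ℝ) (X' : Multiplicative L →* Kˣ) (y' z' : K)
      (f' : (AddMonoidAlgebra k (L × ℕ))[X]) (A' : ℝ) (n : ℕ),
      SysE k v d ω' X' y' z' f' ∧ Vtx ω' A' (n / d.factorial) d f'

/-- The unramified step for systems. -/
def S_core1 : Prop :=
  ∀ {k K : Type u} {L : Type w} [Field k] [Field K] [Algebra k K] [AddCommGroup L]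
    [Module.Free ℤ L] [Module.Finite ℤ L]
    {v : Valuation K ℝ≥0} (p : ℕ) [Fact p.Prime] [CharP k p],
    (∀ c : k, c ≠ 0 → v (algebraMap k K c) = 1) →
    (∀ x : K, v x ≤ 1 → ∃ c : k, v (x - algebraMap k K c) < 1) →
    Algebra.trdeg k K = ((Module.finrank ℤ L + 2 : ℕ) : Cardinal) →
    ∀ {d : ℕ} {ω : L →+ ℝ} {X : Multiplicative L →* Kˣ} {y z : K}
    {f : (AddMonoidAlgebra k (L × ℕ))[X]}, SysE k v d ω X y z f → ∀ {γ : L}, 0 < ω γ →
    v y = ex (ω γ) → ∀ {A b : ℝ}, 0 ≤ A → 0 ≤ b → Lv (wX ω) A d f →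
    Slc 0 d b (LF ω A d f) → ∀ Bd : ℝ,
    (∀ Φ : AddMonoidAlgebra k (L × ℕ), Φ ∈ gt (k := k) (wW ω (ω γ)) 0 →
      Φ ∈ ge (k := k) (wX ω) A → og b (slice ω A Φ) → ∀ A',
      Lw (wW ω (ω γ)) A' d (taylor Φ f) → A' ≤ Bd) → ∀ Q : ℝ → ℝ → Prop,
    (∀ Φ : AddMonoidAlgebra k (L × ℕ), Φ ∈ ge (k := k) (wX ω) A → og b (slice ω A Φ) →
      ∀ A', 0 < A' → Lw (wW ω (ω γ)) A' d (taylor Φ f) →
      (∃ j : ℕ, j < d ∧ ∃ μ, ((taylor Φ f).coeff j).coeff μ ≠ 0 ∧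
        wW ω (ω γ) μ = ((d : ℝ) - j) * A') →
      ∃ w : ℝ, 0 ≤ w ∧ Q A' w ∧ ∀ (j : ℕ) (μ : L × ℕ), j < d →
        ((taylor Φ f).coeff j).coeff μ ≠ 0 → wW ω (ω γ) μ = ((d : ℝ) - j) * A' →
        (μ.2 : ℝ) ≤ ((d : ℝ) - j) * w) →
    ∃ (y' z' : K) (f' : (AddMonoidAlgebra k (L × ℕ))[X]) (u : K)
      (Φ R : AddMonoidAlgebra k (L × ℕ)) (c : k) (A' w : ℝ) (n : ℕ),
      Q A' w ∧ 0 ≤ w ∧
      StpE k v d ω X γ A A' (n / d.factorial) w y z f y' z' f' u Φ R c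

/-- The unramified step from a vertex, the first vertex, and properties of unramified steps. -/
def S_stepV : Prop :=
  ∀ {k K : Type u} {L : Type w} [Field k] [Field K] [Algebra k K] [AddCommGroup L]
    [Module.Free ℤ L] [Module.Finite ℤ L]
    {v : Valuation K ℝ≥0} (p : ℕ) [Fact p.Prime] [CharP k p],
    (∀ c : k, c ≠ 0 → v (algebraMap k K c) = 1) →
    (∀ x : K, v x ≤ 1 → ∃ c : k, v (x - algebraMap k K c) < 1) →
    Algebra.trdeg k K = ((Module.finrank ℤ L + 2 : ℕ) : Cardinal) →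
    ∀ {d : ℕ} {ω : L →+ ℝ} {X : Multiplicative L →* Kˣ} {y z : K}
    {f : (AddMonoidAlgebra k (L × ℕ))[X]}, SysE k v d ω X y z f → ∀ {γ : L}, 0 < ω γ →
    v y = ex (ω γ) →
    (∀ {A b : ℝ}, Vtx ω A b d f →
      ∃ (y' z' : K) (f' : (AddMonoidAlgebra k (L × ℕ))[X]) (u : K)
        (Φ R : AddMonoidAlgebra k (L × ℕ)) (c : k) (A' w : ℝ) (n : ℕ),
        A' = A + w * ω γ ∧ w ≤ b ∧ 0 ≤ w ∧
        StpE k v d ω X γ A A' (n / d.factorial) w y z f y' z' f' u Φ R c) ∧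
    ∃ (y' z' : K) (f' : (AddMonoidAlgebra k (L × ℕ))[X]) (A' : ℝ) (n : ℕ),
      SysE k v d ω X y' z' f' ∧ Vtx ω A' (n / d.factorial) d f'

/-- Properties of unramified steps. -/
def S_stp : Prop :=
  ∀ {k K : Type u} {L : Type w} [Field k] [Field K] [Algebra k K] [AddCommGroup L]
    [Module.Free ℤ L] [Module.Finite ℤ L]
    {v : Valuation K ℝ≥0} (p : ℕ) [Fact p.Prime] [CharP k p] {d : ℕ} {ω : L →+ ℝ}
    {X : Multiplicative L →* Kˣ} {y z : K} {f : (AddMonoidAlgebra k (L × ℕ))[X]} {γ : L}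
    {A A' b b' : ℝ} {y' z' : K} {f' : (AddMonoidAlgebra k (L × ℕ))[X]} {u : K}
    {Φ R : AddMonoidAlgebra k (L × ℕ)} {c : k},
    (∀ {w : ℝ}, StpE k v d ω X γ A A' b' w y z f y' z' f' u Φ R c →
      EV k X y' z' f' = EV k X y z f) ∧
    (StpE k v d ω X γ A A' b b y z f y' z' f' u Φ R c →
      ∀ j : ℕ, j < d → ∀ i : ℕ, ((LF ω A' d f').coeff j).coeff i ≠ 0 →
      (i : ℝ) = ((d : ℝ) - j) * b) ∧
    (StpE k v d ω X γ A A' b b y z f y' z' f' u Φ R c → 0 < d → (f.coeff d).coeff 0 ≠ 0 →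
      1 ≤ b → ∃ j < d, ∃ (i : ℕ) (β : L), (i : ℝ) < ((d : ℝ) - j) * b ∧
        ω β = ((d : ℝ) - j) * A' ∧ ((ShP γ (taylor Φ f)).coeff j).coeff (β, i) ≠ 0)

/-- The order drops if the slope is less than one. -/
def S_dropA1 : Prop :=
  ∀ {k K : Type u} {L : Type w} [Field k] [Field K] [Algebra k K] [AddCommGroup L]
    [Module.Free ℤ L] [Module.Finite ℤ L]
    {v : Valuation K ℝ≥0}, (∀ c : k, c ≠ 0 → v (algebraMap k K c) = 1) →
    (∀ x : K, v x ≤ 1 → ∃ c : k, v (x - algebraMap k K c) < 1) →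
    Algebra.trdeg k K = ((Module.finrank ℤ L + 2 : ℕ) : Cardinal) →
    ∀ {d : ℕ} {ω : L →+ ℝ} {X : Multiplicative L →* Kˣ} {y z : K}
    {f : (AddMonoidAlgebra k (L × ℕ))[X]}, (∀ x y : ℝ, x < y → ∃ a, x < ω a ∧ ω a < y) →
    SysE k v d ω X y z f → ∀ {A b : ℝ}, Vtx ω A b d f → b < 1 → (∃ a, ω a = A) →
    (∃ n : ℕ, b = n / d.factorial) →
    ∃ (y' z' : K) (f' : (AddMonoidAlgebra k (L × ℕ))[X]) (d1 : ℕ), d1 < d ∧
      SysE k v d1 ω X y' z' f'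

/-- The linear change if there is only one monomial of the smallest degree. -/
def S_lin1 : Prop :=
  ∀ {k K : Type u} {L : Type w} [Field k] [Field K] [Algebra k K] [AddCommGroup L]
    [Module.Free ℤ L] [Module.Finite ℤ L]
    {v : Valuation K ℝ≥0}, (∀ c : k, c ≠ 0 → v (algebraMap k K c) = 1) →
    ∀ {ω : L →+ ℝ} {X : Multiplicative L →* Kˣ} {y z : K}
    {f : (AddMonoidAlgebra k (L × ℕ))[X]}, PSE k v ω X y z f → ∀ {i0 j0 : ℕ},
    (f.coeff j0).coeff (0, i0) ≠ 0 →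
    (∀ i j : ℕ, (f.coeff j).coeff (0, i) ≠ 0 → (i = i0 ∧ j = j0) ∨ i0 + j0 < i + j) →
    ∃ (y' : K) (f' : (AddMonoidAlgebra k (L × ℕ))[X]), SysE k v (i0 + j0) ω X y' z f'

/-- The order drops if the value of `y` is not in the lattice, the slope is zero and the value of
`z` is greater than the level. -/
def S_dropB : Prop :=
  ∀ {k K : Type u} {L : Type w} [Field k] [Field K] [Algebra k K] [AddCommGroup L]
    [Module.Free ℤ L] [Module.Finite ℤ L]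
    {v : Valuation K ℝ≥0}, (∀ c : k, c ≠ 0 → v (algebraMap k K c) = 1) →
    (∀ x : K, v x ≤ 1 → ∃ c : k, v (x - algebraMap k K c) < 1) →
    Algebra.trdeg k K = ((Module.finrank ℤ L + 2 : ℕ) : Cardinal) →
    (∀ ω : L →+ ℝ, Function.Injective ω → ∀ x y : ℝ, x < y → ∃ a, x < ω a ∧ ω a < y) →
    ∀ {d : ℕ} {ω : L →+ ℝ} {X : Multiplicative L →* Kˣ} {y z : K}
    {f : (AddMonoidAlgebra k (L × ℕ))[X]}, SysE k v d ω X y z f → ∀ {η : ℝ}, 0 < η →
    v y = ex η → (∀ a, ω a ≠ η) → ∀ {A : ℝ}, Vtx ω A 0 d f → v z < ex A →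
    ∃ (ω' : L →+ ℝ) (X' : Multiplicative L →* Kˣ) (y' z' : K)
      (f' : (AddMonoidAlgebra k (L × ℕ))[X]) (d1 : ℕ), d1 < d ∧ SysE k v d1 ω' X' y' z' f'

/-- The order drops if the leading form is a sum of monomials, the slope is less than one and the
value of `z` is greater than the level. -/
def S_dropB1 : Prop :=
  ∀ {k K : Type u} {L : Type w} [Field k] [Field K] [Algebra k K] [AddCommGroup L]
    [Module.Free ℤ L] [Module.Finite ℤ L]
    {v : Valuation K ℝ≥0}, (∀ c : k, c ≠ 0 → v (algebraMap k K c) = 1) →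
    (∀ x : K, v x ≤ 1 → ∃ c : k, v (x - algebraMap k K c) < 1) →
    Algebra.trdeg k K = ((Module.finrank ℤ L + 2 : ℕ) : Cardinal) →
    ∀ {d : ℕ} {ω : L →+ ℝ} {X : Multiplicative L →* Kˣ} {y z : K}
    {f : (AddMonoidAlgebra k (L × ℕ))[X]}, (∀ x y : ℝ, x < y → ∃ a, x < ω a ∧ ω a < y) →
    SysE k v d ω X y z f → ∀ {A b : ℝ}, Vtx ω A b d f → b < 1 →
    (∀ j < d, ∀ i, ((LF ω A d f).coeff j).coeff i ≠ 0 → (i : ℝ) = ((d : ℝ) - j) * b) →
    v z < ex A →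
    ∃ (y' z' : K) (f' : (AddMonoidAlgebra k (L × ℕ))[X]) (d1 : ℕ), d1 < d ∧
      SysE k v d1 ω X y' z' f'

/-- If the value of `z` is the level, not in the lattice, then we can assume that it is the value
of `y`. -/
def S_dropC : Prop :=
  ∀ {k K : Type u} {L : Type w} [Field k] [Field K] [Algebra k K] [AddCommGroup L]
    [Module.Free ℤ L] [Module.Finite ℤ L]
    {v : Valuation K ℝ≥0}, (∀ c : k, c ≠ 0 → v (algebraMap k K c) = 1) →
    (∀ x : K, v x ≤ 1 → ∃ c : k, v (x - algebraMap k K c) < 1) →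
    Algebra.trdeg k K = ((Module.finrank ℤ L + 2 : ℕ) : Cardinal) →
    ∀ {d : ℕ} {ω : L →+ ℝ} {X : Multiplicative L →* Kˣ} {y z : K}
    {f : (AddMonoidAlgebra k (L × ℕ))[X]}, (∀ x y : ℝ, x < y → ∃ a, x < ω a ∧ ω a < y) →
    SysE k v d ω X y z f → ∀ {A b : ℝ}, (∀ a, ω a ≠ A) → Vtx ω A b d f → v z = ex A →
    ∃ (y' z' : K) (f' : (AddMonoidAlgebra k (L × ℕ))[X]) (A' : ℝ), 0 < A' ∧
      (∀ a, ω a ≠ A') ∧ v y' = ex A' ∧ SysE k v d ω X y' z' f' ∧ Vtx ω A' b d f'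

/-- The first equation. -/
def S_prep : Prop :=
  ∀ {k K : Type u} {L : Type w} [Field k] [Field K] [Algebra k K] [AddCommGroup L]
    [Module.Free ℤ L] [Module.Finite ℤ L]
    {v : Valuation K ℝ≥0}, (∀ c : k, c ≠ 0 → v (algebraMap k K c) = 1) →
    ∀ {ω : L →+ ℝ} {X : Multiplicative L →* Kˣ} {y z : K},
    (∀ x y : ℝ, x < y → ∃ a, x < ω a ∧ ω a < y) → CS k v ω X y z →
    ∀ f : (AddMonoidAlgebra k (L × ℕ))[X], f ≠ 0 → ¬ Goal k v ω X y z (EV k X y z f) →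
    ∃ (y' z' : K) (f' : (AddMonoidAlgebra k (L × ℕ))[X]) (d : ℕ), SysE k v d ω X y' z' f'

/-- The coordinates of a chart. -/
noncomputable def fam2 {K : Type u} {L : Type w} [Field K] [AddCommGroup L] {s : ℕ}
    (b : Module.Basis (Fin s) ℤ L) (X : Multiplicative L →* Kˣ) (y z : K) :
    Option (Option (Fin s)) → K
  | none => z
  | some none => y
  | some (some j) => (X (.ofAdd (b j)) : K)

/-- The algebra of a chart. -/
noncomputable def AC2 (k : Type u) {K : Type u} {L : Type w} [Field k] [Field K] [Algebra k K]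
    [AddCommGroup L] {s : ℕ} (b : Module.Basis (Fin s) ℤ L) (X : Multiplicative L →* Kˣ)
    (y z : K) : Subring K :=
  Subring.closure (Set.range (algebraMap k K) ∪ Set.range (fam2 b X y z))

/-- The local ring of a chart. -/
noncomputable def PC2 (k : Type u) {K : Type u} {L : Type w} [Field k] [Field K] [Algebra k K]
    [AddCommGroup L] {s : ℕ} (v : Valuation K ℝ≥0) (b : Module.Basis (Fin s) ℤ L)
    (X : Multiplicative L →* Kˣ) (y z : K) : Subring K :=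
  lo v.valuationSubring.toSubring (AC2 k b X y z)

/-- Charts. -/
def S_chart2 : Prop :=
  ∀ {k K : Type u} {L : Type w} [Field k] [Field K] [Algebra k K] [AddCommGroup L]
    [Module.Free ℤ L] [Module.Finite ℤ L]
    {v : Valuation K ℝ≥0}, (∀ c : k, c ≠ 0 → v (algebraMap k K c) = 1) →
    Algebra.trdeg k K = ((Module.finrank ℤ L + 2 : ℕ) : Cardinal) →
    ∀ {ω : L →+ ℝ} {X : Multiplicative L →* Kˣ} {y z : K}, CS k v ω X y z →
    (∀ {s : ℕ} (b : Module.Basis (Fin s) ℤ L), AlgebraicIndependent k (fam2 b X y z) ∧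
      ((∀ j, 0 < ω (b j)) → AC2 k b X y z ≤ v.valuationSubring.toSubring) ∧
      (∀ β ∈ chartP b, (X (.ofAdd β) : K) ∈ AC2 k b X y z) ∧
      ∀ t ∈ CO k X y z, ∃ β ∈ chartP b, (X (.ofAdd β) : K) * t ∈ AC2 k b X y z) ∧
    ∀ T : Finset K, (∀ t ∈ T, Mo k v ω X y z t) →
    ∃ (s : ℕ) (b : Module.Basis (Fin s) ℤ L), (∀ j, 0 < ω (b j)) ∧
      ∀ t ∈ T, PMon (PC2 k v b X y z) (fam2 b X y z) t ∧
        (t ∈ v.valuationSubring → t ∈ PC2 k v b X y z)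

/-- Finitely many elements. -/
def S_iter : Prop :=
  ∀ {k K : Type u} {L : Type w} [Field k] [Field K] [Algebra k K] [AddCommGroup L]
    [Module.Free ℤ L] [Module.Finite ℤ L]
    {v : Valuation K ℝ≥0}, (∀ c : k, c ≠ 0 → v (algebraMap k K c) = 1) →
    Algebra.trdeg k K = ((Module.finrank ℤ L + 2 : ℕ) : Cardinal) →
    (∀ {ω : L →+ ℝ} {X : Multiplicative L →* Kˣ} {y z : K}, CS k v ω X y z →
      ∀ t ∈ CO k X y z, t ≠ 0 → Goal k v ω X y z t) →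
    ∀ {ω : L →+ ℝ} {X : Multiplicative L →* Kˣ} {y z : K}, CS k v ω X y z →
    (∀ t : K, ∃ a ∈ CO k X y z, ∃ b ∈ CO k X y z, b ≠ 0 ∧ t = a * b⁻¹) ∧
    ∀ T : Finset K, (∀ t ∈ T, t ≠ 0) → ∃ (ω' : L →+ ℝ) (X' : Multiplicative L →* Kˣ) (y' z' : K),
      CS k v ω' X' y' z' ∧ Dm k v ω X y z ω' X' y' z' ∧ ∀ t ∈ T, Mo k v ω' X' y' z' t

/-- Strong uniformization from monomialization. -/
def S_su2 : Prop :=
  ∀ {k K : Type u} {L : Type w} [Field k] [Field K] [Algebra k K] [AddCommGroup L]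
    [Module.Free ℤ L] [Module.Finite ℤ L]
    {v : Valuation K ℝ≥0}, (∀ c : k, c ≠ 0 → v (algebraMap k K c) = 1) →
    Algebra.trdeg k K = ((Module.finrank ℤ L + 2 : ℕ) : Cardinal) →
    ∀ {ω : L →+ ℝ} {X : Multiplicative L →* Kˣ} {y z : K}, CS k v ω X y z →
    (∀ {ω : L →+ ℝ} {X : Multiplicative L →* Kˣ} {y z : K}, CS k v ω X y z →
      ∀ t ∈ CO k X y z, t ≠ 0 → Goal k v ω X y z t) →
    ∃ U : Set K, U.Finite ∧ Pool.Agent.H176.DT.Mod v.valuationSubring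
      (Subring.closure (Set.range (algebraMap k K) ∪ U)) ∧
      Pool.Agent.H176.DT.SU v.valuationSubring
      (Subring.closure (Set.range (algebraMap k K) ∪ U))

end Pool.Agent.H893.TW
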