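import Pool.Agent.H893.P9
import Pool.Agent.H893.N15
import Pool.Agent.H893.Fin

/-!
# Étale extensions and hypersurfaces of order one
-/

set_option autoImplicit false
set_option linter.unusedVariables false
set_option linter.unusedSectionVars false

universe u w

namespace Pool.Agent.H893.TW

open Pool.Agent.W418.LU2 Polynomial Pool.Agent.H893
open Pool.Agent.H176.DT (Mod SU PP St)
open scoped NNReal

/-- Strong uniformization goes up to étale extensions. -/
theorem et_up {k K : Type u} [Field k] [Field K] [Algebra k K] {v : Valuation K ℝ≥0}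
    (E : IntermediateField k K) (z0 : K) (F : E[X]) (hFr : aeval z0 F = 0)
    (hFV : ∀ j, v (algebraMap E K (F.coeff j)) ≤ 1) (hz : v z0 < 1)
    (hd0 : v (algebraMap E K ((derivative F).coeff 0)) = 1)
    (hclos : ∀ F0 : IntermediateField k K, E ≤ F0 → z0 ∈ F0 → F0 = ⊤)
    (hEU : ∃ U : Set E, U.Finite ∧
      Mod (v.valuationSubring.comap (algebraMap E K))
        (Subring.closure (Set.range (algebraMap k E) ∪ U)) ∧
      SU (v.valuationSubring.comap (algebraMap E K))
        (Subring.closure (Set.range (algebraMap k E) ∪ U))) :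
    ∃ U : Set K, U.Finite ∧
      Mod v.valuationSubring (Subring.closure (Set.range (algebraMap k K) ∪ U)) ∧
      SU v.valuationSubring (Subring.closure (Set.range (algebraMap k K) ∪ U)) := by
  classical
  obtain ⟨U, hU, hM, hSU⟩ := hEU
  have hd1 : v (aeval z0 (derivative F)) = 1 := by
    have h1 : ∀ i, v (algebraMap E K ((derivative F).coeff i)) ≤ 1 := by
      intro i
      rw [coeff_derivative, map_mul, map_mul, map_add, map_natCast, map_one]
      refine mul_le_one₀ (hFV _) zero_le ?_
      have := v_nat (v := v) (i + 1)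
      push_cast at this
      exact this
    have h2 := v_aeval_sub hz h1
    have h4 : aeval z0 (derivative F) = (aeval z0 (derivative F) -
        algebraMap E K ((derivative F).coeff 0)) + algebraMap E K ((derivative F).coeff 0) := by
      ring
    rw [h4, v.map_add_eq_of_lt_right (by rw [hd0]; exact h2), hd0]
  have hclos0 : ∀ w : K, w ∈ Subfield.closure (Set.range (algebraMap E K) ∪ {z0}) := by
    let F0 : IntermediateField k K :=
      (Subfield.closure (Set.range (algebraMap E K) ∪ {z0})).toIntermediateField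
        (fun c => Subfield.subset_closure (Or.inl ⟨algebraMap k E c, rfl⟩))
    have hF0 : ∀ w : K, w ∈ F0 ↔ w ∈ Subfield.closure (Set.range (algebraMap E K) ∪ {z0}) :=
      fun w => Iff.rfl
    have h1 : F0 = ⊤ := by
      refine hclos F0 (fun w hw => ?_) ?_
      · exact (hF0 _).2 (Subfield.subset_closure (Or.inl ⟨⟨w, hw⟩, rfl⟩))
      · exact (hF0 _).2 (Subfield.subset_closure (Or.inr rfl))
    intro w
    rw [← hF0, h1]
    trivial
  obtain ⟨x, μ, hμ1, hμ2, hμ3, hμ4, hclos⟩ := exists_monic_generator v.valuationSubring F z0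
    (fun i => hFV i) hFr
    ((Valuation.isEquiv_valuation_valuationSubring v).lt_one_iff_lt_one.1 hz)
    (val_one hd1) hclos0
  have hint : IsIntegral E x := ⟨μ, hμ1, by rw [← aeval_def]; exact hμ3⟩
  obtain ⟨μ', g', h', hunr⟩ := Pool.Agent.H176.DT.p_et (E := E) v.valuationSubring x μ hμ1 hμ2
    hμ3 hμ4
  obtain ⟨U1, hU1, hM1, hSU1⟩ := Pool.Agent.H176.DT.key_unr (E := E) (F := K)
    (V := v.valuationSubring) _ hM hSU x
    (fun w => Pool.Agent.H176.DT.gen_alg hint (hclos w)) hunr
  have hcl : Subring.closure (((Subring.closure (Set.range (algebraMap k E) ∪ U)).map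
      (algebraMap E K) : Set K) ∪ U1) = Subring.closure (Set.range (algebraMap k K) ∪
      (algebraMap E K '' U ∪ U1)) := by
    have h1 : algebraMap E K '' Set.range (algebraMap k E) = Set.range (algebraMap k K) := by
      ext w
      constructor
      · rintro ⟨_, ⟨c, rfl⟩, rfl⟩
        exact ⟨c, rfl⟩
      · rintro ⟨c, rfl⟩
        exact ⟨_, ⟨c, rfl⟩, rfl⟩
    rw [RingHom.map_closure, Set.image_union, h1, ← Set.union_assoc]
    apply le_antisymm
    · rw [Subring.closure_le]
      rintro w (hw | hw)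
      · exact Subring.closure_mono Set.subset_union_left hw
      · exact Subring.subset_closure (Or.inr hw)
    · rw [Subring.closure_le]
      rintro w (hw | hw)
      · exact Subring.subset_closure (Or.inl (Subring.subset_closure hw))
      · exact Subring.subset_closure (Or.inr hw)
  rw [hcl] at hM1 hSU1
  exact ⟨_, (hU.image _).union hU1, hM1, hSU1⟩

/-- There is a hypersurface of order one. -/
theorem exists_sys1 {k K : Type u} [Field k] (p : ℕ) [Fact p.Prime] [CharP k p]
    [Field K] [Algebra k K] [Algebra.EssFiniteType k K] (v : Valuation K ℝ≥0)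
    (hk : ∀ c : k, c ≠ 0 → v (algebraMap k K c) = 1)
    (hres : ∀ x : K, v x ≤ 1 → ∃ c : k, v (x - algebraMap k K c) < 1)
    (r : ℕ) (hr : 2 ≤ r) (htr : Algebra.trdeg k K = ((r + 1 : ℕ) : Cardinal))
    (x : Fin r → K) (hx0 : ∀ i, x i ≠ 0)
    (hind : ∀ m : Fin r → ℤ, ∏ i, v (x i) ^ m i = 1 → m = 0)
    (hrr : ∀ z : K, z ≠ 0 → ∃ n : ℕ, n ≠ 0 ∧ ∃ m : Fin r → ℤ, v z ^ n = ∏ i, v (x i) ^ m i) :
    ∃ (ω : (Fin r → ℤ) →+ ℝ) (X : Multiplicative (Fin r → ℤ) →* (DualNumber K)ˣ)
      (y z : DualNumber K) (f : (AddMonoidAlgebra k ((Fin r → ℤ) × ℕ))[X]),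
      Sys k v 1 ω X y z f := by
  have hp1 : ExpChar k p := inferInstance
  have htr' : Algebra.trdeg k K = ((Module.finrank ℤ (Fin r → ℤ) + 1 : ℕ) : Cardinal) := by
    rw [Module.finrank_fin_fun]
    exact htr
  by_cases hFG : (valGroup v).FG
  · obtain ⟨x', hx0', hind', hgr⟩ := exists_basis v hFG x hx0 hind hrr
    obtain ⟨d, ω, X, y, z, f, S, hGr⟩ := part0' p hk hres (by omega) htr x' hx0' hind' hgr
    obtain ⟨y', z', f', S'⟩ := part1' p hk hres hGr htr' (dense_of_rank hr ω S.inj) d S
    exact ⟨ω, X, y', z', f', S'⟩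
  · have H : HypH k (Fin r → ℤ) v := hypH p hk hres htr' hFG
    obtain ⟨d, ω, X, y, z, f, S⟩ := part0 p hk hres (by omega) htr H x hx0 hind hrr
    obtain ⟨ω', X', y', z', f', S'⟩ := part1 p hk hres H htr' (dense_of_rank hr) d S
    exact ⟨ω', X', y', z', f', S'⟩

end Pool.Agent.H893.TW
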